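import Pool.Agent.H54.SO.O5
/-! MP_0e09bd_lc (PI helper54): open induction from floors of algebraic elements.
`QF_inv`: every `A` with `QF R A` there is a finite set `Z` of hyperreals, each algebraic over `R` (`∃ P : Polynomial R, P ≠ 0 ∧ aeval z P = 0`), with: for `x < y` in `R` without element of `Z` in `[x, y]` (in the
hyperreals): `x ∈ A ↔ y ∈ A`. Induction on `QF`: for `{0 ≤ f.eval x}`: if `f = 0` `Z = ∅`; else `Z` = roots of `f.map (R.subtype)`; if the truth of `0 ≤ f(x)`, `0 ≤ f(y)` differs, `ivt` (for `f` or, in the other direction, `-f`: from `0 ≤ f(x)`, `f(y) < 0`: apply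
`ivt` to the reflected polynomial `f.comp (-X)` on `[-y, -x]`) gives a root in `[x, y]`. Complement: same `Z`. Intersection: union of the two sets.
`openInd`: claim by induction on the number of elements of `Z` in `[a, b]`: for `0 ≤ a ≤ b` in `R`, `a ∈ A` implies `b ∈ A`. No element: by `QF_inv` (or `a = b`). Otherwise `z` = the least element of `Z` in `[a, b]`, `c ∈ R` its floor, `c ≤ z < c + 1`; `a ≤ c` by
discreteness (`a < c + 1`). `c ∈ A`: if `c = a` clear; if `a < c < z` no element of `Z` in `[a, c]`; if `c = z > a` then `a ≤ c - 1`, `c - 1 ∈ A` (no element of `Z` in `[a, c-1]`, or `a = c - 1`) and the induction step. Then `c + 1 ∈ A`. If `b ≤ c` then `b = c` (as `z ≤ b ≤ c ≤ z`). Otherwise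
`c + 1 ≤ b` and `[c+1, b]` contains fewer elements of `Z` (not `z`): induction hypothesis. -/
set_option autoImplicit false
namespace Pool.Agent.H54.SO

private theorem coe_eval_O6 (R : Subring Hyperreal) (f : Polynomial R) (x : R) :
    (f.map R.subtype).eval (x : Hyperreal) = ((f.eval x : R) : Hyperreal) := by
  rw [Polynomial.eval_map]
  exact Polynomial.eval₂_at_apply R.subtype x

private theorem QF_inv (R : Subring Hyperreal) (A : Set R) (hA : QF R A) :
    ∃ Z : Finset Hyperreal, (∀ z ∈ Z, ∃ P : Polynomial R, P ≠ 0 ∧ Polynomial.aeval z P = 0) ∧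
      ∀ x y : R, (x : Hyperreal) < y → (∀ z ∈ Z, ¬ ((x : Hyperreal) ≤ z ∧ z ≤ y)) →
        (x ∈ A ↔ y ∈ A) := by
  classical
  induction hA with
  | nonneg f =>
    by_cases hf : f = 0
    · refine ⟨∅, by simp, fun x y _ _ => ?_⟩
      rw [hf]
      simp
    · have hinj : Function.Injective R.subtype := Subtype.val_injective
      have hmap : f.map R.subtype ≠ 0 := (Polynomial.map_ne_zero_iff hinj).2 hf
      refine ⟨(f.map R.subtype).roots.toFinset, ?_, ?_⟩
      · intro z hz
        refine ⟨f, hf, ?_⟩
        rw [Multiset.mem_toFinset, Polynomial.mem_roots hmap] at hz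
        have h1 : (f.map R.subtype).eval z = 0 := hz
        rw [Polynomial.eval_map] at h1
        exact h1
      · intro x y hxy hno
        have hroot : ∀ c : Hyperreal, (x : Hyperreal) ≤ c → c ≤ y → (f.map R.subtype).eval c ≠ 0 := by
          intro c h1 h2 h3
          refine hno c ?_ ⟨h1, h2⟩
          rw [Multiset.mem_toFinset, Polynomial.mem_roots hmap]
          exact h3
        have e1 := coe_eval_O6 R f x
        have e2 := coe_eval_O6 R f y
        constructor
        · intro hx
          have hx' : (0 : Hyperreal) ≤ ((f.eval x : R) : Hyperreal) := hx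
          show (0 : R) ≤ f.eval y
          by_contra hy
          rw [not_le] at hy
          have hy' : ((f.eval y : R) : Hyperreal) < 0 := hy
          obtain ⟨c, h1, h2, h3⟩ := ivt ((f.map R.subtype).comp (-Polynomial.X)) (-(y : Hyperreal))
            (-(x : Hyperreal)) (neg_le_neg hxy.le)
            (by rw [Polynomial.eval_comp, Polynomial.eval_neg, Polynomial.eval_X, neg_neg, e2]; exact hy')
            (by rw [Polynomial.eval_comp, Polynomial.eval_neg, Polynomial.eval_X, neg_neg, e1]; exact hx')
          rw [Polynomial.eval_comp, Polynomial.eval_neg, Polynomial.eval_X] at h3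
          exact hroot (-c) (by linarith) (by linarith) h3
        · intro hy
          have hy' : (0 : Hyperreal) ≤ ((f.eval y : R) : Hyperreal) := hy
          show (0 : R) ≤ f.eval x
          by_contra hx
          rw [not_le] at hx
          have hx' : ((f.eval x : R) : Hyperreal) < 0 := hx
          obtain ⟨c, h1, h2, h3⟩ := ivt (f.map R.subtype) x y hxy.le (by rw [e1]; exact hx')
            (by rw [e2]; exact hy')
          exact hroot c h1 h2 h3
  | compl A _ ih =>
    obtain ⟨Z, h1, h2⟩ := ih
    exact ⟨Z, h1, fun x y hxy hno => not_congr (h2 x y hxy hno)⟩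
  | inter A B _ _ ih1 ih2 =>
    obtain ⟨Z1, h1, h2⟩ := ih1
    obtain ⟨Z2, h3, h4⟩ := ih2
    refine ⟨Z1 ∪ Z2, ?_, ?_⟩
    · intro z hz
      rcases Finset.mem_union.1 hz with h | h
      · exact h1 z h
      · exact h3 z h
    · intro x y hxy hno
      exact and_congr (h2 x y hxy (fun z hz => hno z (Finset.mem_union_left _ hz)))
        (h4 x y hxy (fun z hz => hno z (Finset.mem_union_right _ hz)))

theorem openInd (R : Subring Hyperreal) (hdisc : ∀ a : R, 0 < a → 1 ≤ a)
    (hfloor : ∀ α : Hyperreal, (∃ P : Polynomial R, P ≠ 0 ∧ Polynomial.aeval α P = 0) →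
      ∃ c : R, (c : Hyperreal) ≤ α ∧ α < (c : Hyperreal) + 1) : OpenInduction R := by
  classical
  intro A hA h0 hstep
  obtain ⟨Z, hZ1, hZ2⟩ := QF_inv R A hA
  have disc : ∀ a b : R, (a : Hyperreal) < b → (a : Hyperreal) + 1 ≤ b := by
    intro a b hab
    have h1 : (0 : R) < b - a := by
      show (0 : Hyperreal) < ((b - a : R) : Hyperreal)
      push_cast
      linarith
    have h2 : (1 : Hyperreal) ≤ ((b - a : R) : Hyperreal) := hdisc _ h1
    push_cast at h2
    linarith
  have claim : ∀ n : ℕ, ∀ a b : R, (0 : Hyperreal) ≤ a → (a : Hyperreal) ≤ b →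
      (Z.filter (fun z => (a : Hyperreal) ≤ z ∧ z ≤ b)).card = n → a ∈ A → b ∈ A := by
    intro n
    induction n using Nat.strong_induction_on with
    | _ n ih =>
      intro a b ha hab hn haA
      rcases (Z.filter (fun z => (a : Hyperreal) ≤ z ∧ z ≤ b)).eq_empty_or_nonempty with hS | hS
      · rcases lt_or_eq_of_le hab with h | h
        · refine (hZ2 a b h fun z hz hzab => ?_).1 haA
          have : z ∈ Z.filter (fun z => (a : Hyperreal) ≤ z ∧ z ≤ b) := Finset.mem_filter.2 ⟨hz, hzab⟩
          rw [hS] at this
          exact absurd this (Finset.notMem_empty _)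
        · have : a = b := Subtype.ext h
          rwa [← this]
      · obtain ⟨z, hz⟩ : ∃ z, z = (Z.filter (fun z => (a : Hyperreal) ≤ z ∧ z ≤ b)).min' hS := ⟨_, rfl⟩
        have hzS := Finset.min'_mem _ hS
        rw [← hz] at hzS
        have hzmin : ∀ w ∈ Z, (a : Hyperreal) ≤ w → w ≤ b → z ≤ w := by
          intro w hw h1 h2
          rw [hz]
          exact Finset.min'_le _ _ (Finset.mem_filter.2 ⟨hw, h1, h2⟩)
        obtain ⟨hzZ, haz, hzb⟩ := Finset.mem_filter.1 hzS
        obtain ⟨c, hcz, hzc⟩ := hfloor z (hZ1 z hzZ)
        have hac : (a : Hyperreal) ≤ c := by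
          by_contra hcon
          rw [not_le] at hcon
          have := disc c a hcon
          linarith
        have hno : ∀ e : R, (a : Hyperreal) < e → (e : Hyperreal) < z → e ∈ A := by
          intro e h1 h2
          refine (hZ2 a e h1 fun w hw hwe => ?_).1 haA
          have := hzmin w hw hwe.1 (by linarith [hwe.2])
          linarith [hwe.2]
        have hcA : c ∈ A := by
          rcases lt_or_eq_of_le hac with h1 | h1
          · rcases lt_or_eq_of_le hcz with h2 | h2
            · exact hno c h1 h2
            · have h3 := disc a c h1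
              have h4 : ((c - 1 : R) : Hyperreal) = c - 1 := by push_cast; ring
              have h5 : c - 1 ∈ A := by
                rcases lt_or_eq_of_le (show (a : Hyperreal) ≤ ((c - 1 : R) : Hyperreal) by
                  rw [h4]; linarith) with h6 | h6
                · exact hno _ h6 (by rw [h4]; linarith)
                · have : a = c - 1 := Subtype.ext h6
                  rwa [← this]
              have h6 : (0 : R) ≤ c - 1 := by
                show (0 : Hyperreal) ≤ ((c - 1 : R) : Hyperreal)
                rw [h4]
                linarith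
              have h7 := hstep _ h6 h5
              rwa [sub_add_cancel] at h7
          · have : a = c := Subtype.ext h1
            rwa [← this]
        have hc0 : (0 : R) ≤ c := by
          show (0 : Hyperreal) ≤ (c : Hyperreal)
          linarith
        have hc1 : c + 1 ∈ A := hstep c hc0 hcA
        rcases le_or_gt (b : Hyperreal) c with hbc | hbc
        · have : c = b := Subtype.ext (le_antisymm (hcz.trans hzb) hbc)
          rwa [← this]
        · have h1 := disc c b hbc
          have h2 : ((c + 1 : R) : Hyperreal) = c + 1 := by push_cast; ring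
          refine ih _ ?_ (c + 1) b (by rw [h2]; linarith) (by rw [h2]; exact h1) rfl hc1
          rw [← hn]
          apply Finset.card_lt_card
          rw [Finset.ssubset_iff_of_subset]
          · refine ⟨z, hzS, fun hz' => ?_⟩
            have h3 := (Finset.mem_filter.1 hz').2.1
            rw [h2] at h3
            linarith
          · intro w hw
            obtain ⟨hw1, hw2, hw3⟩ := Finset.mem_filter.1 hw
            rw [h2] at hw2
            exact Finset.mem_filter.2 ⟨hw1, by linarith, hw3⟩
  intro x hx
  have hx' : (0 : Hyperreal) ≤ (x : Hyperreal) := hx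
  exact claim _ 0 x (by simp) (by simpa using hx') rfl h0

end Pool.Agent.H54.SO
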