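import Pool.Agent.H54.SO.P0
/-! MP_0e09bd_lc (PI helper54): discreteness and floors.
`RR_std`: `n a = G(y)`, `n ∣ G(w)`. If `G = C c`: `n ∣ c` in the ultrapower, so in the integers (`cast_dvd`), `c = n k`, `a = k`. Otherwise `|n a| > N |n|` for all `N`, so `a` infinite.
`RR_disc`: from `RR_std`: either `a` is an integer, positive, so `≥ 1`, or infinite and positive.
`RR_floor`: multiply `P : Polynomial (RR y w)` by a common denominator: `P' : Polynomial (MvPolynomial ℕ ℤ)` and `m ≠ 0` with `P'.map (aeval y) = m * P.map (subtype)` (induction on `P` or `Polynomial.sum`, finitely many coefficients), so `P'.map ≠ 0` has the root `α`. `(Y2)` gives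
`|n α - G(y)| ≤ N`, `n ≠ 0`. By `RR_residue` `g = (G(y) - k) / n ∈ RR`, `0 ≤ k < |n|`, so `|α - g| ≤ N + 1`. Among the `g + i`, `|i| ≤ N + 2`, take the largest one `≤ α` (`Int` induction, or `Int.exists_greatest_of_bdd`): `c ≤ α < c + 1`. -/
set_option autoImplicit false
namespace Pool.Agent.H54.SO
open Pool.Agent.H54.SZ

theorem RR_std (y : ℕ → Hyperreal) (w : ℕ → K) (hy : Y1 y) (a : RR y w) :
    (∃ k : ℤ, (a : Hyperreal) = (k : Hyperreal)) ∨ ∀ N : ℕ, (N : Hyperreal) < |(a : Hyperreal)| := by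
  obtain ⟨n, G, hn, hG, hG'⟩ := a.2
  have hn' : (n : Hyperreal) ≠ 0 := by exact_mod_cast hn
  by_cases hc : ∃ c : ℤ, G = MvPolynomial.C c
  · left
    obtain ⟨c, rfl⟩ := hc
    have h1 : MvPolynomial.aeval w (MvPolynomial.C c : MvPolynomial ℕ ℤ) = (c : K) := by simp
    have h2 : MvPolynomial.aeval y (MvPolynomial.C c : MvPolynomial ℕ ℤ) = (c : Hyperreal) := by
      simp
    rw [h1, cast_dvd] at hG'
    obtain ⟨k, rfl⟩ := hG'
    refine ⟨k, ?_⟩
    rw [h2] at hG
    apply mul_left_cancel₀ hn'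
    rw [hG]
    push_cast
    rfl
  · right
    push Not at hc
    intro N
    have h1 := hy G hc (N * n.natAbs)
    rw [← hG, abs_mul] at h1
    have h2 : ((n.natAbs : ℕ) : Hyperreal) = |(n : Hyperreal)| := by
      rw [Nat.cast_natAbs, Int.cast_abs]
    rw [Nat.cast_mul, h2, mul_comm] at h1
    exact lt_of_mul_lt_mul_left h1 (abs_nonneg _)

theorem RR_disc (y : ℕ → Hyperreal) (w : ℕ → K) (hy : Y1 y) (a : RR y w) (ha : 0 < a) : 1 ≤ a := by
  have ha' : (0 : Hyperreal) < (a : Hyperreal) := ha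
  change (1 : Hyperreal) ≤ (a : Hyperreal)
  rcases RR_std y w hy a with ⟨k, hk⟩ | h
  · rw [hk] at ha' ⊢
    have h1 : 0 < k := by exact_mod_cast ha'
    have h2 : 1 ≤ k := h1
    exact_mod_cast h2
  · have h1 := h 1
    rw [abs_of_pos ha', Nat.cast_one] at h1
    exact h1.le

private theorem P1_clear (y : ℕ → Hyperreal) (w : ℕ → K) (P : Polynomial (RR y w)) :
    ∃ (m : ℤ) (P' : Polynomial (MvPolynomial ℕ ℤ)), m ≠ 0 ∧
      P'.map (MvPolynomial.aeval y : MvPolynomial ℕ ℤ →ₐ[ℤ] Hyperreal).toRingHom =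
        Polynomial.C (m : Hyperreal) * P.map (RR y w).subtype := by
  induction P using Polynomial.induction_on' with
  | add P Q hP hQ =>
    obtain ⟨m, P', hm, hP'⟩ := hP
    obtain ⟨l, Q', hl, hQ'⟩ := hQ
    refine ⟨m * l, Polynomial.C (l : MvPolynomial ℕ ℤ) * P' + Polynomial.C (m : MvPolynomial ℕ ℤ) * Q',
      mul_ne_zero hm hl, ?_⟩
    have e : ∀ t : ℤ, (MvPolynomial.aeval y : MvPolynomial ℕ ℤ →ₐ[ℤ] Hyperreal).toRingHom
        (t : MvPolynomial ℕ ℤ) = (t : Hyperreal) := fun t => map_intCast _ t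
    rw [Polynomial.map_add, Polynomial.map_mul, Polynomial.map_mul, Polynomial.map_C,
      Polynomial.map_C, hP', hQ', e, e, Polynomial.map_add, Int.cast_mul, Polynomial.C_mul]
    ring
  | monomial k a =>
    obtain ⟨n, G, hn, hG, _⟩ := a.2
    refine ⟨n, Polynomial.monomial k G, hn, ?_⟩
    rw [Polynomial.map_monomial, Polynomial.map_monomial, Polynomial.C_mul_monomial]
    congr 1
    exact hG.symm

theorem RR_floor (y : ℕ → Hyperreal) (w : ℕ → K) (hy : Y1 y)
    (hy2 : ∀ α : Hyperreal, (∃ P : Polynomial (MvPolynomial ℕ ℤ),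
        P.map (MvPolynomial.aeval y : MvPolynomial ℕ ℤ →ₐ[ℤ] Hyperreal).toRingHom ≠ 0 ∧
        (P.map (MvPolynomial.aeval y : MvPolynomial ℕ ℤ →ₐ[ℤ] Hyperreal).toRingHom).eval α = 0) →
      ∃ (n : ℤ) (G : MvPolynomial ℕ ℤ) (N : ℕ), n ≠ 0 ∧
        |(n : Hyperreal) * α - MvPolynomial.aeval y G| ≤ (N : Hyperreal))
    (α : Hyperreal) (hα : ∃ P : Polynomial (RR y w), P ≠ 0 ∧ Polynomial.aeval α P = 0) :
    ∃ c : RR y w, (c : Hyperreal) ≤ α ∧ α < (c : Hyperreal) + 1 := by
  obtain ⟨P, hP, hα⟩ := hα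
  obtain ⟨m, P', hm, hP'⟩ := P1_clear y w P
  have hm' : (m : Hyperreal) ≠ 0 := by exact_mod_cast hm
  have h1 : P.map (RR y w).subtype ≠ 0 :=
    (Polynomial.map_ne_zero_iff Subtype.val_injective).2 hP
  obtain ⟨n, G, N, hn, hb⟩ := hy2 α ⟨P', by
    rw [hP']
    exact mul_ne_zero (Polynomial.C_ne_zero.2 hm') h1, by
    rw [hP', Polynomial.eval_mul]
    have h2 : (P.map (RR y w).subtype).eval α = Polynomial.aeval α P := by
      rw [Polynomial.eval_map, Polynomial.aeval_def]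
      rfl
    rw [h2, hα, mul_zero]⟩
  obtain ⟨k, hk0, hk1, hk2⟩ := RR_residue y w G n hn
  have hn' : (n : Hyperreal) ≠ 0 := by exact_mod_cast hn
  have hg0 : (n : Hyperreal) * ((MvPolynomial.aeval y G - (k : Hyperreal)) / n) =
      MvPolynomial.aeval y (G - MvPolynomial.C k) := by
    rw [mul_div_cancel₀ _ hn', map_sub]
    simp
  let g : RR y w := ⟨(MvPolynomial.aeval y G - (k : Hyperreal)) / n, n, G - MvPolynomial.C k, hn,
    hg0, hk2⟩
  have hg : (n : Hyperreal) * (g : Hyperreal) = MvPolynomial.aeval y G - (k : Hyperreal) :=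
    mul_div_cancel₀ _ hn'
  have hnabs : (1 : Hyperreal) ≤ |(n : Hyperreal)| := by
    have h3 : (1 : ℤ) ≤ |n| := Int.one_le_abs hn
    have h4 : ((1 : ℤ) : Hyperreal) ≤ ((|n| : ℤ) : Hyperreal) := by exact_mod_cast h3
    push_cast at h4
    exact h4
  have hkn : |(k : Hyperreal)| ≤ |(n : Hyperreal)| := by
    have h3 : |k| ≤ |n| := by rw [abs_of_nonneg hk0]; exact hk1.le
    have h4 : ((|k| : ℤ) : Hyperreal) ≤ ((|n| : ℤ) : Hyperreal) := by exact_mod_cast h3
    push_cast at h4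
    exact h4
  have hB : |α - (g : Hyperreal)| ≤ ((N + |n| : ℤ) : Hyperreal) := by
    have h3 : (n : Hyperreal) * (α - (g : Hyperreal)) =
        ((n : Hyperreal) * α - MvPolynomial.aeval y G) + (k : Hyperreal) := by
      rw [mul_sub, hg]
      ring
    have h4 : |(n : Hyperreal)| * |α - (g : Hyperreal)| ≤ (N : Hyperreal) + |(n : Hyperreal)| := by
      rw [← abs_mul, h3]
      exact (abs_add_le _ _).trans (add_le_add hb hkn)
    have h5 : |α - (g : Hyperreal)| ≤ |(n : Hyperreal)| * |α - (g : Hyperreal)| :=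
      le_mul_of_one_le_left (abs_nonneg _) hnabs
    push_cast
    exact h5.trans h4
  obtain ⟨hB1, hB2⟩ := abs_le.1 hB
  obtain ⟨i, hi, hi'⟩ := Int.exists_greatest_of_bdd (P := fun z : ℤ => (z : Hyperreal) ≤ α - (g : Hyperreal))
    ⟨N + |n|, fun z hz => by
      have h3 : ((z : ℤ) : Hyperreal) ≤ ((N + |n| : ℤ) : Hyperreal) := le_trans hz hB2
      exact_mod_cast h3⟩
    ⟨-(N + |n|), by
      show (((-(N + |n|) : ℤ)) : Hyperreal) ≤ α - (g : Hyperreal)
      rw [Int.cast_neg]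
      exact hB1⟩
  have h6 : α - (g : Hyperreal) < (i : Hyperreal) + 1 := by
    by_contra hcon
    push Not at hcon
    have h7 := hi' (i + 1) (by push_cast; exact hcon)
    omega
  refine ⟨g + (i : RR y w), ?_, ?_⟩
  · have h7 : ((g + (i : RR y w) : RR y w) : Hyperreal) = (g : Hyperreal) + (i : Hyperreal) := by
      push_cast
      rfl
    rw [h7]
    have h8 : (i : Hyperreal) ≤ α - (g : Hyperreal) := hi
    linarith
  · have h7 : ((g + (i : RR y w) : RR y w) : Hyperreal) = (g : Hyperreal) + (i : Hyperreal) := by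
      push_cast
      rfl
    rw [h7]
    linarith

end Pool.Agent.H54.SO
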