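import Pool.Agent.H54.SO.P0
import Pool.Agent.H54.SZ.E6
/-! MP_0e09bd_lc (PI helper54): all infinite irreducible elements (compare SZ/E6.lean, same proof with `MvPolynomial ℕ`).
`n m = G(y)`, `n ∣ G(w)`; `G` is not constant (else `m` is an integer by `cast_dvd`). `MQ G` has an irreducible factor (`WfDvdMonoid.exists_irreducible_factor`, `MvPolynomial ℕ ℚ` is a UFD); clearing denominators (an integer multiple of a rational polynomial is an integer polynomial) there are `h, v`,
`k ≠ 0` with `C k * G = h * v`, `MQ h` irreducible. Case 1 of `hR` with `N = (k n).natAbs`: prime `p > N`, `p ∣ h(w)`, so `p ∣ k G(w) = k n m'`, where `m' = G(w) / n`; `p` coprime to `k n`, so `p ∣ m'`; then `c = m / p` is in the ring (denominator `n p`, `n p ∣ G(w)`). `m = p c`, `p` not a unit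
(`1 = p u` would give, `u` in the ring, by `Y1.inj` and `cast_dvd`, `p ∣ 1`), so `c` is a unit; a unit of the ring is an integer (`u u' = 1`, both `|.| ≥ 1` as the ring is discrete: values of polynomials are integers or infinite), so `m` is an integer, contradiction. Case 2: `MQ (Ys s)` is associated to
`MQ h`, so `C k' * G = Ys s * v'`, `k' ≠ 0`. `Y = (Ys s)(w)` is not divisible by any prime, so it is a unit modulo the integer `c = k' n`: `RR_residue` gives the residue, coprime to `c`; integer `x` with `c ∣ x Y - 1`. `c ∣ Y v'(w)` (`k' G(w) = Y v'(w)`, `n ∣ G(w)`), so `c ∣ v'(w)`, so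
`v2 = v'(y) / c` is in the ring, `m = (Ys s)(y) v2`. `m` irreducible, `(Ys s)(y)` infinite so not a unit, `v2` is a unit, so `1` or `-1`. -/
set_option autoImplicit false
namespace Pool.Agent.H54.SO
open Pool.Agent.H54.SZ

theorem P3_MQ_mul (G H : MvPolynomial ℕ ℤ) : MQ (G * H) = MQ G * MQ H := map_mul _ _ _

theorem P3_MQ_add (G H : MvPolynomial ℕ ℤ) : MQ (G + H) = MQ G + MQ H := map_add _ _ _

theorem P3_MQ_C (c : ℤ) : MQ (MvPolynomial.C c) = MvPolynomial.C (c : ℚ) := MvPolynomial.map_C _ _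

theorem P3_MQ_X (i : ℕ) : MQ (MvPolynomial.X i) = MvPolynomial.X i := MvPolynomial.map_X _ _

theorem P3_clear (g : MvPolynomial ℕ ℚ) :
    ∃ (D : ℤ) (G : MvPolynomial ℕ ℤ), D ≠ 0 ∧ MQ G = MvPolynomial.C (D : ℚ) * g := by
  induction g using MvPolynomial.induction_on with
  | C a =>
    refine ⟨a.den, MvPolynomial.C a.num, by exact_mod_cast a.den_nz, ?_⟩
    rw [P3_MQ_C, ← MvPolynomial.C_mul]
    congr 1
    have h1 : (a.den : ℚ) ≠ 0 := by exact_mod_cast a.den_nz
    have h2 : (a.den : ℚ) * a = a.num := Rat.den_mul_eq_num a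
    exact h2.symm
  | add p q hp hq =>
    obtain ⟨D1, G1, h1, e1⟩ := hp
    obtain ⟨D2, G2, h2, e2⟩ := hq
    refine ⟨D1 * D2, MvPolynomial.C D2 * G1 + MvPolynomial.C D1 * G2, mul_ne_zero h1 h2, ?_⟩
    rw [P3_MQ_add, P3_MQ_mul, P3_MQ_mul, P3_MQ_C, P3_MQ_C, e1, e2]
    push_cast
    rw [MvPolynomial.C_mul]
    ring
  | mul_X p i hp =>
    obtain ⟨D, G, h, e⟩ := hp
    refine ⟨D, G * MvPolynomial.X i, h, ?_⟩
    rw [P3_MQ_mul, P3_MQ_X, e, mul_assoc]

theorem P3_MQ_inj (G H : MvPolynomial ℕ ℤ) (h : MQ G = MQ H) : G = H :=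
  MvPolynomial.map_injective (Int.castRingHom ℚ) (RingHom.injective_int _) h

theorem P3_const (y : ℕ → Hyperreal) (a : Hyperreal) (n c : ℤ) (hn : n ≠ 0)
    (h1 : (n : Hyperreal) * a = MvPolynomial.aeval y (MvPolynomial.C c : MvPolynomial ℕ ℤ))
    (w : ℕ → K) (h2 : (n : K) ∣ MvPolynomial.aeval w (MvPolynomial.C c : MvPolynomial ℕ ℤ)) :
    ∃ k : ℤ, a = (k : Hyperreal) := by
  have h3 : (n : K) ∣ ((c : ℤ) : K) := by simpa using h2
  rw [cast_dvd] at h3
  obtain ⟨k, hk⟩ := h3
  refine ⟨k, ?_⟩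
  have h4 : (n : Hyperreal) * a = (c : Hyperreal) := by simpa using h1
  have hn' : (n : Hyperreal) ≠ 0 := by exact_mod_cast hn
  apply mul_left_cancel₀ hn'
  rw [h4, hk]
  push_cast
  rfl

theorem P3_const_of_mul (A B : MvPolynomial ℕ ℤ) (c : ℤ) (hc : c ≠ 0)
    (h : A * B = MvPolynomial.C c) : ∃ a : ℤ, A = MvPolynomial.C a := by
  have hA : A ≠ 0 := by
    rintro rfl
    rw [zero_mul] at h
    exact hc (MvPolynomial.C_injective _ _ (by rw [map_zero]; exact h.symm))
  have hB : B ≠ 0 := by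
    rintro rfl
    rw [mul_zero] at h
    exact hc (MvPolynomial.C_injective _ _ (by rw [map_zero]; exact h.symm))
  have h1 : A.totalDegree + B.totalDegree = 0 := by
    rw [← MvPolynomial.totalDegree_mul_of_isDomain hA hB, h, MvPolynomial.totalDegree_C]
  exact ⟨_, MvPolynomial.totalDegree_eq_zero_iff_eq_C.1 (by omega)⟩

theorem P3_unit (y : ℕ → Hyperreal) (w : ℕ → K) (hy : Y1 y) (a b : Hyperreal) (ha : a ∈ RR y w)
    (hb : b ∈ RR y w) (h : a * b = 1) : ∃ k : ℤ, a = (k : Hyperreal) ∧ (k = 1 ∨ k = -1) := by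
  obtain ⟨n, A, hn, hA, hA'⟩ := ha
  obtain ⟨n', B, hn', hB, hB'⟩ := hb
  have h1 : A * B = MvPolynomial.C (n * n') := by
    apply hy.inj
    rw [map_mul, ← hA, ← hB]
    have : (n : Hyperreal) * a * ((n' : Hyperreal) * b) = (n : Hyperreal) * n' * (a * b) := by ring
    rw [this, h]
    simp
  obtain ⟨c, rfl⟩ := P3_const_of_mul A B _ (mul_ne_zero hn hn') h1
  obtain ⟨c', rfl⟩ := P3_const_of_mul B _ _ (mul_ne_zero hn hn') ((mul_comm _ _).trans h1)
  obtain ⟨k, hk⟩ := P3_const y a n c hn hA w hA'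
  obtain ⟨k', hk'⟩ := P3_const y b n' c' hn' hB w hB'
  refine ⟨k, hk, ?_⟩
  have h2 : k * k' = 1 := by
    rw [hk, hk'] at h
    exact_mod_cast h
  exact Int.isUnit_iff.1 (IsUnit.of_mul_eq_one _ h2)

theorem RR_class {ι : Type} (y : ℕ → Hyperreal) (w : ℕ → K) (hy : Y1 y) (Ys : ι → MvPolynomial ℕ ℤ)
    (hY : ∀ s, Irreducible (MQ (Ys s)))
    (hY2 : ∀ s (p : ℕ), p.Prime → ¬ (p : K) ∣ MvPolynomial.aeval w (Ys s))
    (hR : ∀ h : MvPolynomial ℕ ℤ, Irreducible (MQ h) → (∃ s, Associated (MQ (Ys s)) (MQ h)) ∨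
      ∀ N : ℕ, ∃ p : ℕ, p.Prime ∧ N < p ∧ (p : K) ∣ MvPolynomial.aeval w h)
    (m : RR y w) (hm : Irreducible m) (hinf : ∀ k : ℤ, (m : Hyperreal) ≠ (k : Hyperreal)) :
    ∃ s, (m : Hyperreal) = MvPolynomial.aeval y (Ys s) ∨
      (m : Hyperreal) = - MvPolynomial.aeval y (Ys s) := by
  obtain ⟨n, G, hn, hG, hG'⟩ := m.2
  have hnH : (n : Hyperreal) ≠ 0 := by exact_mod_cast hn
  obtain ⟨m', hm'⟩ := hG'
  have hGc : ∀ c : ℤ, G ≠ MvPolynomial.C c := by
    rintro c rfl
    obtain ⟨k, hk⟩ := P3_const y (m : Hyperreal) n c hn hG w ⟨m', hm'⟩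
    exact hinf k hk
  have hG0 : MQ G ≠ 0 := by
    intro h
    apply hGc 0
    apply P3_MQ_inj
    rw [h, map_zero]
    exact (map_zero _).symm
  have hGu : ¬ IsUnit (MQ G) := by
    intro h
    obtain ⟨r, -, hr⟩ := MvPolynomial.isUnit_iff_eq_C_of_isReduced.1 h
    apply hGc (G.coeff 0)
    ext d
    by_cases hd : d = 0
    · rw [hd, MvPolynomial.coeff_C]
      simp
    · have h1 : MvPolynomial.coeff d (MQ G) = 0 := by
        rw [hr, MvPolynomial.coeff_C, if_neg (Ne.symm hd)]
      rw [MvPolynomial.coeff_map] at h1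
      rw [MvPolynomial.coeff_C, if_neg (Ne.symm hd)]
      have h2 : ((G.coeff d : ℤ) : ℚ) = 0 := by simpa using h1
      exact_mod_cast h2
  obtain ⟨g, hg, v0, hv0⟩ := WfDvdMonoid.exists_irreducible_factor hGu hG0
  obtain ⟨D1, h, hD1, hh⟩ := P3_clear g
  obtain ⟨D2, v, hD2, hv⟩ := P3_clear v0
  have hD1u : IsUnit (MvPolynomial.C (D1 : ℚ) : MvPolynomial ℕ ℚ) := by
    apply IsUnit.map
    rw [isUnit_iff_ne_zero]
    exact_mod_cast hD1
  have hhirr : Irreducible (MQ h) := by
    rw [hh]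
    exact (irreducible_isUnit_mul hD1u).2 hg
  have hkf : MvPolynomial.C ((D1 * D2 : ℤ) : ℚ) * MQ G = MQ h * MQ v := by
    rw [hh, hv, hv0]
    push_cast
    rw [MvPolynomial.C_mul]
    ring
  rcases hR h hhirr with ⟨s, u, hu⟩ | hcase
  · -- case 2
    obtain ⟨D3, v', hD3, hv'⟩ := P3_clear ((u : MvPolynomial ℕ ℚ) * MQ v)
    have hk' : MvPolynomial.C (D1 * D2 * D3) * G = Ys s * v' := by
      apply P3_MQ_inj
      have e2 : MvPolynomial.C (((D1 * D2 * D3 : ℤ)) : ℚ) =
          (MvPolynomial.C ((D1 * D2 : ℤ) : ℚ) * MvPolynomial.C (D3 : ℚ) : MvPolynomial ℕ ℚ) := by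
        rw [← MvPolynomial.C_mul]; push_cast; rfl
      rw [P3_MQ_mul, P3_MQ_mul, P3_MQ_C, hv', e2]
      calc MvPolynomial.C ((D1 * D2 : ℤ) : ℚ) * MvPolynomial.C (D3 : ℚ) * MQ G
          = MvPolynomial.C (D3 : ℚ) * (MvPolynomial.C ((D1 * D2 : ℤ) : ℚ) * MQ G) := by ring
        _ = MvPolynomial.C (D3 : ℚ) * (MQ h * MQ v) := by rw [hkf]
        _ = MvPolynomial.C (D3 : ℚ) * (MQ (Ys s) * (u : MvPolynomial ℕ ℚ) * MQ v) := by rw [hu]
        _ = MQ (Ys s) * (MvPolynomial.C (D3 : ℚ) * ((u : MvPolynomial ℕ ℚ) * MQ v)) := by ring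
    set c : ℤ := D1 * D2 * D3 * n with hc
    have hc0 : c ≠ 0 := mul_ne_zero (mul_ne_zero (mul_ne_zero hD1 hD2) hD3) hn
    have hcH : (c : Hyperreal) ≠ 0 := by exact_mod_cast hc0
    have h1 : (c : Hyperreal) * (m : Hyperreal) =
        MvPolynomial.aeval y (Ys s) * MvPolynomial.aeval y v' := by
      have h2 := congrArg (MvPolynomial.aeval y) hk'
      rw [map_mul (MvPolynomial.aeval y), map_mul (MvPolynomial.aeval y), ← hG] at h2
      rw [← h2, hc]
      rw [MvPolynomial.aeval_C]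
      simp only [algebraMap_int_eq, eq_intCast]
      push_cast
      ring
    have h1' : (c : K) * m' = MvPolynomial.aeval w (Ys s) * MvPolynomial.aeval w v' := by
      have h2 := congrArg (MvPolynomial.aeval w) hk'
      rw [map_mul (MvPolynomial.aeval w), map_mul (MvPolynomial.aeval w), hm'] at h2
      rw [← h2, hc]
      rw [MvPolynomial.aeval_C]
      simp only [algebraMap_int_eq, eq_intCast]
      push_cast
      ring
    obtain ⟨x, hx⟩ := E6_inv_mod _ (hY2 s) c hc0
    have h3 : (c : K) ∣ MvPolynomial.aeval w v' := by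
      have h4 : MvPolynomial.aeval w v' = (x : K) * ((c : K) * m') -
          ((x : K) * MvPolynomial.aeval w (Ys s) - 1) * MvPolynomial.aeval w v' := by
        rw [h1']; ring
      rw [h4]
      exact dvd_sub ⟨(x : K) * m', by ring⟩ (Dvd.dvd.mul_right hx _)
    have hv2R : MvPolynomial.aeval y v' / (c : Hyperreal) ∈ RR y w :=
      ⟨c, v', hc0, mul_div_cancel₀ _ hcH, h3⟩
    have h5 : (m : Hyperreal) =
        MvPolynomial.aeval y (Ys s) * (MvPolynomial.aeval y v' / (c : Hyperreal)) := by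
      apply mul_left_cancel₀ hcH
      rw [h1]
      field_simp
    have h6 : m = (⟨MvPolynomial.aeval y (Ys s), aeval_mem' y w (Ys s)⟩ : RR y w) *
        ⟨MvPolynomial.aeval y v' / (c : Hyperreal), hv2R⟩ := Subtype.ext h5
    rcases hm.isUnit_or_isUnit h6 with h7 | h7
    · exfalso
      obtain ⟨z, hz⟩ := h7.exists_right_inv
      have h8 : MvPolynomial.aeval y (Ys s) * (z : Hyperreal) = 1 := by
        have := congrArg (fun t : RR y w => (t : Hyperreal)) hz
        exact this
      obtain ⟨k, hk, -⟩ := P3_unit y w hy _ _ (aeval_mem' y w (Ys s)) z.2 h8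
      have h9 : Ys s = MvPolynomial.C k := by
        apply hy.inj
        rw [hk]
        simp
      have h10 : k ≠ 0 := by
        rintro rfl
        apply (hY s).ne_zero
        rw [h9, map_zero]
        exact map_zero _
      apply (hY s).not_isUnit
      rw [h9, MQ, MvPolynomial.map_C]
      apply IsUnit.map
      rw [isUnit_iff_ne_zero]
      simpa using h10
    · obtain ⟨z, hz⟩ := h7.exists_right_inv
      have h8 : MvPolynomial.aeval y v' / (c : Hyperreal) * (z : Hyperreal) = 1 := by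
        have := congrArg (fun t : RR y w => (t : Hyperreal)) hz
        exact this
      obtain ⟨k, hk, hk1⟩ := P3_unit y w hy _ _ hv2R z.2 h8
      refine ⟨s, ?_⟩
      rw [h5, hk]
      rcases hk1 with rfl | rfl
      · left; push_cast; ring
      · right; push_cast; ring
  · -- case 1
    exfalso
    set k : ℤ := D1 * D2 with hk
    have hkn : k * n ≠ 0 := mul_ne_zero (mul_ne_zero hD1 hD2) hn
    obtain ⟨p, hp, hpN, hpd⟩ := hcase (k * n).natAbs
    have hkf' : MvPolynomial.C k * G = h * v := by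
      apply P3_MQ_inj
      rw [P3_MQ_mul, P3_MQ_mul, P3_MQ_C]
      exact hkf
    have h1 : ((k * n : ℤ) : K) * m' = MvPolynomial.aeval w h * MvPolynomial.aeval w v := by
      have h2 := congrArg (MvPolynomial.aeval w) hkf'
      rw [map_mul (MvPolynomial.aeval w), map_mul (MvPolynomial.aeval w), hm'] at h2
      rw [← h2]
      rw [MvPolynomial.aeval_C]
      simp only [algebraMap_int_eq, eq_intCast]
      push_cast
      ring
    have h2 : (p : K) ∣ ((k * n : ℤ) : K) * m' := by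
      rw [h1]
      exact Dvd.dvd.mul_right hpd _
    have hcop : IsCoprime (p : ℤ) (k * n) := by
      rw [(Nat.prime_iff_prime_int.1 hp).coprime_iff_not_dvd]
      intro hd
      have h3 : p ∣ (k * n).natAbs := Int.natCast_dvd.1 hd
      have h4 := Nat.le_of_dvd (Int.natAbs_pos.2 hkn) h3
      omega
    obtain ⟨x, z, hxz⟩ := hcop
    have h3 : (x : K) * (p : K) + (z : K) * ((k * n : ℤ) : K) = 1 := by
      have := congrArg (fun t : ℤ => (t : K)) hxz
      push_cast at this
      push_cast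
      exact this
    have h4 : (p : K) ∣ m' := by
      have h5 : m' = (p : K) * ((x : K) * m') + (z : K) * (((k * n : ℤ) : K) * m') := by
        linear_combination (-m') * h3
      rw [h5]
      exact dvd_add (Dvd.intro _ rfl) (Dvd.dvd.mul_left h2 _)
    obtain ⟨c, hc⟩ := h4
    have hpH : (p : Hyperreal) ≠ 0 := by exact_mod_cast hp.ne_zero
    have hcR : (m : Hyperreal) / (p : Hyperreal) ∈ RR y w := by
      refine ⟨n * p, G, mul_ne_zero hn (by exact_mod_cast hp.ne_zero), ?_, c, ?_⟩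
      · rw [← hG]
        push_cast
        field_simp
      · rw [hm', hc]
        push_cast
        ring
    have h6 : m = ((p : ℕ) : RR y w) * ⟨(m : Hyperreal) / (p : Hyperreal), hcR⟩ := by
      apply Subtype.ext
      change (m : Hyperreal) = (p : Hyperreal) * ((m : Hyperreal) / (p : Hyperreal))
      field_simp
    rcases hm.isUnit_or_isUnit h6 with h7 | h7
    · obtain ⟨t, ht⟩ := h7.exists_right_inv
      have h8 : (p : Hyperreal) * (t : Hyperreal) = 1 := by
        have := congrArg (fun t : RR y w => (t : Hyperreal)) ht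
        exact this
      obtain ⟨k0, hk0, hk1⟩ := P3_unit y w hy _ _ (natCast_mem (RR y w) p) t.2 h8
      have h9 : (p : ℤ) = k0 := by exact_mod_cast hk0
      have := hp.two_le
      rcases hk1 with rfl | rfl <;> omega
    · obtain ⟨t, ht⟩ := h7.exists_right_inv
      have h8 : (m : Hyperreal) / (p : Hyperreal) * (t : Hyperreal) = 1 := by
        have := congrArg (fun t : RR y w => (t : Hyperreal)) ht
        exact this
      obtain ⟨k0, hk0, -⟩ := P3_unit y w hy _ _ hcR t.2 h8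
      refine hinf (p * k0) ?_
      rw [div_eq_iff hpH] at hk0
      rw [hk0]
      push_cast
      ring

end Pool.Agent.H54.SO
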