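import Pool.Agent.H54.SO.P0
/-! MP_0e09bd_lc (PI helper54): the ring is integrally closed (normal open induction).
Let `c = a / b` (`a, b` in the ring, `b ≠ 0`) satisfy a monic equation over the ring. Step 1: the ring is contained in `ℚ[y]`, isomorphic to `MvPolynomial ℕ ℚ` (`Y1.inj`), a UFD, so integrally closed: `c = P(y)`. Step 2: the ultrapower
`K` of the integers has greatest common divisors, so it is integrally closed; the substitution `y ↦ w` sends the monic equation of `c` to a monic equation over `K` of `P(w)` in the field of fractions of `K`, so `P(w)` is in `K`, which says `n ∣ G(w)` for `n P = G`. -/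
set_option autoImplicit false
namespace Pool.Agent.H54.SO
open Pool.Agent.H54.SZ

private theorem P4_mem {F : Type} [Field F] (S : Subring F) [IsIntegrallyClosed S] (c : F)
    (a b : S) (hb : b ≠ 0) (h : (b : F) * c = a) (hc : IsIntegral S c) : c ∈ S := by
  have hinj : Function.Injective (Algebra.ofId S F) := fun x y hxy => Subtype.ext hxy
  let φ : FractionRing S →ₐ[S] F := IsFractionRing.liftAlgHom hinj
  have hφ : ∀ s : S, φ (algebraMap S (FractionRing S) s) = (s : F) := fun s => φ.commutes s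
  have hφi : Function.Injective φ := φ.toRingHom.injective
  obtain ⟨x, hx⟩ : ∃ x : FractionRing S, φ x = c := by
    refine ⟨algebraMap S (FractionRing S) a / algebraMap S (FractionRing S) b, ?_⟩
    rw [map_div₀, hφ, hφ, ← h]
    have : (b : F) ≠ 0 := fun h0 => hb (Subtype.ext h0)
    field_simp
  have h1 : IsIntegral S x := by
    rw [← isIntegral_algHom_iff φ hφi, hx]; exact hc
  obtain ⟨z, hz⟩ := IsIntegrallyClosed.isIntegral_iff.1 h1
  rw [← hx, ← hz, hφ]
  exact z.2

private theorem P4_closed {F : Type} [Field F] (S : Subring F)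
    (H : ∀ (c : F) (a b : S), b ≠ 0 → (b : F) * c = a → IsIntegral S c → c ∈ S) :
    IsIntegrallyClosed S := by
  have hinj : Function.Injective (Algebra.ofId S F) := fun x y hxy => Subtype.ext hxy
  let φ : FractionRing S →ₐ[S] F := IsFractionRing.liftAlgHom hinj
  have hφ : ∀ s : S, φ (algebraMap S (FractionRing S) s) = (s : F) := fun s => φ.commutes s
  have hφi : Function.Injective φ := φ.toRingHom.injective
  rw [isIntegrallyClosed_iff (FractionRing S)]
  intro x hx
  obtain ⟨a, b, hb, hab⟩ := IsFractionRing.div_surjective S x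
  have hb0 : b ≠ 0 := nonZeroDivisors.ne_zero hb
  have hb1 : algebraMap S (FractionRing S) b ≠ 0 := by
    rw [Ne, IsFractionRing.to_map_eq_zero_iff]; exact hb0
  have h1 : φ x ∈ S := by
    refine H (φ x) a b hb0 ?_ ((isIntegral_algHom_iff φ hφi).2 hx)
    rw [← hφ b, ← map_mul, ← hφ a, ← hab]
    congr 1
    field_simp
  refine ⟨⟨φ x, h1⟩, hφi ?_⟩
  rw [hφ]

private theorem K_closed : IsIntegrallyClosed K := by
  classical
  have key : ∀ a b : K, ∃ c : K, ∀ d : K, d ∣ a ∧ d ∣ b ↔ d ∣ c := by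
    intro a b
    induction a using Filter.Germ.inductionOn with
    | _ f =>
    induction b using Filter.Germ.inductionOn with
    | _ g =>
    refine ⟨((fun i => ((Int.gcd (f i) (g i) : ℕ) : ℤ) : ℕ → ℤ) : K), fun d => ⟨?_, ?_⟩⟩
    · induction d using Filter.Germ.inductionOn with
      | _ d =>
      rintro ⟨⟨u, hu⟩, ⟨v, hv⟩⟩
      induction u using Filter.Germ.inductionOn with
      | _ u =>
      induction v using Filter.Germ.inductionOn with
      | _ v =>
      rw [← Filter.Germ.coe_mul, Filter.Germ.coe_eq] at hu hv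
      refine ⟨((fun i => ((Int.gcd (f i) (g i) : ℕ) : ℤ) / d i : ℕ → ℤ) : K), ?_⟩
      rw [← Filter.Germ.coe_mul, Filter.Germ.coe_eq]
      filter_upwards [hu, hv] with i hi hi'
      have h1 : d i ∣ f i := ⟨u i, hi⟩
      have h2 : d i ∣ g i := ⟨v i, hi'⟩
      exact (Int.mul_ediv_cancel' (Int.dvd_coe_gcd h1 h2)).symm
    · intro h
      constructor
      · refine h.trans ⟨((fun i => f i / ((Int.gcd (f i) (g i) : ℕ) : ℤ) : ℕ → ℤ) : K), ?_⟩
        rw [← Filter.Germ.coe_mul, Filter.Germ.coe_eq]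
        exact Filter.Eventually.of_forall fun i =>
          (Int.mul_ediv_cancel' (Int.gcd_dvd_left (f i) (g i))).symm
      · refine h.trans ⟨((fun i => g i / ((Int.gcd (f i) (g i) : ℕ) : ℤ) : ℕ → ℤ) : K), ?_⟩
        rw [← Filter.Germ.coe_mul, Filter.Germ.coe_eq]
        exact Filter.Eventually.of_forall fun i =>
          (Int.mul_ediv_cancel' (Int.gcd_dvd_right (f i) (g i))).symm
  have : IsGCDMonoid K := ⟨gcdMonoidOfExistsGCD key⟩
  exact GCDMonoid.toIsIntegrallyClosed

private theorem P4_clear (P : MvPolynomial ℕ ℚ) : ∃ (n : ℤ) (G : MvPolynomial ℕ ℤ), n ≠ 0 ∧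
    MvPolynomial.C (n : ℚ) * P = MQ G := by
  induction P using MvPolynomial.induction_on with
  | C q =>
    refine ⟨q.den, MvPolynomial.C q.num, by exact_mod_cast q.den_ne_zero, ?_⟩
    unfold MQ
    rw [MvPolynomial.map_C, ← map_mul]
    congr 1
    have := Rat.den_mul_eq_num q
    push_cast
    exact this
  | add p q hp hq =>
    obtain ⟨n, G, hn, hG⟩ := hp
    obtain ⟨m, H, hm, hH⟩ := hq
    refine ⟨n * m, MvPolynomial.C m * G + MvPolynomial.C n * H, mul_ne_zero hn hm, ?_⟩
    unfold MQ at *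
    rw [map_add, map_mul, map_mul, ← hG, ← hH, MvPolynomial.map_C, MvPolynomial.map_C]
    simp only [eq_intCast]
    push_cast
    rw [map_mul]
    ring
  | mul_X p i hp =>
    obtain ⟨n, G, hn, hG⟩ := hp
    refine ⟨n, G * MvPolynomial.X i, hn, ?_⟩
    unfold MQ at *
    rw [map_mul, ← hG, MvPolynomial.map_X]
    ring

private theorem P4_aevalMQ {A : Type} [CommRing A] [Algebra ℚ A] (z : ℕ → A) (G : MvPolynomial ℕ ℤ) :
    MvPolynomial.aeval z (MQ G) = MvPolynomial.aeval z G := by
  simp only [MvPolynomial.aeval_def, MvPolynomial.eval₂_map]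
  congr 1
  exact RingHom.ext_int _ _

private theorem P4_inj (y : ℕ → Hyperreal) (hy : Y1 y) :
    Function.Injective (MvPolynomial.aeval y : MvPolynomial ℕ ℚ →ₐ[ℚ] Hyperreal) := by
  rw [injective_iff_map_eq_zero]
  intro P hP
  obtain ⟨n, G, hn, hG⟩ := P4_clear P
  have h1 : MvPolynomial.aeval y G = MvPolynomial.aeval y (0 : MvPolynomial ℕ ℤ) := by
    rw [← P4_aevalMQ, ← hG, map_mul, hP, mul_zero, map_zero]
  have h2 := hy.inj G 0 h1
  rw [h2, MQ, map_zero] at hG
  rcases mul_eq_zero.1 hG with h3 | h3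
  · rw [MvPolynomial.C_eq_zero] at h3
    exact absurd (by exact_mod_cast h3) hn
  · exact h3

theorem RR_normal (y : ℕ → Hyperreal) (w : ℕ → K) (hy : Y1 y) : IsIntegrallyClosed (RR y w) := by
  have := K_closed
  let ev : MvPolynomial ℕ ℚ →ₐ[ℚ] Hyperreal := MvPolynomial.aeval y
  have hev : Function.Injective ev := P4_inj y hy
  let S : Subring Hyperreal := ev.toRingHom.range
  let E : MvPolynomial ℕ ℚ ≃+* S := RingEquiv.ofBijective ev.toRingHom.rangeRestrict
    ⟨fun a b hab => hev (congrArg Subtype.val hab), ev.toRingHom.rangeRestrict_surjective⟩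
  have : IsIntegrallyClosed S := IsIntegrallyClosed.of_equiv E
  have hle : RR y w ≤ S := by
    rintro a ⟨n, G, hn, hG, -⟩
    refine ⟨MvPolynomial.C ((n : ℚ)⁻¹) * MQ G, ?_⟩
    show ev _ = a
    rw [map_mul, P4_aevalMQ, ← hG, MvPolynomial.algHom_C]
    have hn' : (n : Hyperreal) ≠ 0 := by exact_mod_cast hn
    have : (algebraMap ℚ Hyperreal) ((n : ℚ)⁻¹) = ((n : Hyperreal))⁻¹ := by
      rw [map_inv₀]; simp
    rw [this]
    field_simp
  let F' := FractionRing K
  let Θ : MvPolynomial ℕ ℚ →ₐ[ℚ] F' := MvPolynomial.aeval (fun i => algebraMap K F' (w i))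
  have hΘ : ∀ G : MvPolynomial ℕ ℤ, Θ (MQ G) = algebraMap K F' (MvPolynomial.aeval w G) := by
    intro G
    show MvPolynomial.aeval (fun i => algebraMap K F' (w i)) (MvPolynomial.map (Int.castRingHom ℚ) G) = _
    rw [MvPolynomial.aeval_def, MvPolynomial.eval₂_map, MvPolynomial.aeval_def,
      MvPolynomial.eval₂_comp_left]
    congr 1
    exact RingHom.ext_int _ _
  apply P4_closed
  intro c a b hb hbc hc
  obtain ⟨f, hf, hfc⟩ := hc
  have hc' : IsIntegral S c := by
    refine ⟨f.map (Subring.inclusion hle), hf.map _, ?_⟩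
    rw [Polynomial.eval₂_map]
    exact hfc
  have hcS : c ∈ S := by
    refine P4_mem S c (Subring.inclusion hle a) (Subring.inclusion hle b) ?_ hbc hc'
    intro h0
    have h1 : (b : Hyperreal) = 0 := congrArg Subtype.val h0
    exact hb (Subtype.ext h1)
  obtain ⟨P, hP⟩ := hcS
  have hP' : ev P = c := hP
  let ρ : RR y w →+* MvPolynomial ℕ ℚ := (E.symm : S →+* MvPolynomial ℕ ℚ).comp (Subring.inclusion hle)
  have hρ : ∀ r : RR y w, ev (ρ r) = (r : Hyperreal) := by
    intro r
    have : E (E.symm (Subring.inclusion hle r)) = Subring.inclusion hle r := E.apply_symm_apply _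
    exact congrArg Subtype.val this
  have h1 : (f.map ρ).eval P = 0 := by
    apply hev
    rw [map_zero, Polynomial.eval_map]
    have h2 := Polynomial.hom_eval₂ f ρ ev.toRingHom P
    have h3 : ev.toRingHom.comp ρ = algebraMap (RR y w) Hyperreal := RingHom.ext hρ
    rw [h3] at h2
    have h4 : ev.toRingHom P = c := hP'
    rw [h4, hfc] at h2
    exact h2
  have h5 : ((f.map ρ).map Θ.toRingHom) ∈ Polynomial.lifts (algebraMap K F') := by
    rw [Polynomial.lifts_iff_coeff_lifts]
    intro i
    rw [Polynomial.coeff_map, Polynomial.coeff_map]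
    obtain ⟨n, G, hn, hG, k, hk⟩ := (f.coeff i).2
    have h6 : MvPolynomial.C (n : ℚ) * ρ (f.coeff i) = MQ G := by
      apply hev
      rw [map_mul, hρ]
      show _ = MvPolynomial.aeval y (MQ G)
      rw [P4_aevalMQ, ← hG, MvPolynomial.algHom_C]
      simp
    refine ⟨k, ?_⟩
    have h7 := congrArg Θ h6
    rw [hΘ, hk, map_mul, MvPolynomial.algHom_C, map_mul] at h7
    have hn' : (n : F') ≠ 0 := by exact_mod_cast hn
    have h8 : (algebraMap ℚ F') (n : ℚ) = (n : F') := by simp
    have h9 : (algebraMap K F') (n : K) = (n : F') := by simp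
    rw [h8, h9] at h7
    exact (mul_left_cancel₀ hn' h7).symm
  obtain ⟨q, hq1, -, hq3⟩ := Polynomial.lifts_and_natDegree_eq_and_monic h5 ((hf.map ρ).map _)
  have h10 : IsIntegral K (Θ P) := by
    refine ⟨q, hq3, ?_⟩
    rw [← Polynomial.eval_map, hq1]
    have h11 : (Polynomial.map Θ.toRingHom (Polynomial.map ρ f)).eval (Θ.toRingHom P) = Θ.toRingHom ((f.map ρ).eval P) :=
      Polynomial.eval_map_apply _ _
    rw [h1, map_zero] at h11
    exact h11
  obtain ⟨k, hk⟩ := IsIntegrallyClosed.isIntegral_iff.1 h10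
  obtain ⟨n, G, hn, hG⟩ := P4_clear P
  refine ⟨n, G, hn, ?_, k, ?_⟩
  · have h12 : (algebraMap ℚ Hyperreal) (n : ℚ) = (n : Hyperreal) := by simp
    rw [← P4_aevalMQ, ← hG, map_mul, ← hP', MvPolynomial.algHom_C, h12]
  · apply IsFractionRing.injective K F'
    rw [← hΘ, ← hG, map_mul, MvPolynomial.algHom_C, map_mul, hk]
    simp

end Pool.Agent.H54.SO
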