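import Pool.Agent.H54.SO.P0
/-! MP_0e09bd_lc (PI helper54): the irreducible elements `G(y)` without standard prime factor are prime.
`m = G(y)`; not zero and not a unit (as in P2.lean: `m u = 1`, `n u = H(y)` gives `C n = G H` by `Y1.inj`, so `MQ G` would be a unit). Let `m ∣ a b`, `a b = m c`. `n1 a = A(y)`, `n2 b = B(y)`, `n3 c = C'(y)` with `n1 ∣ A(w)` etc. `Y1.inj` : `C n3 * A * B = C (n1 n2) * G * C'`, so `MQ G ∣ MQ A * MQ B`
(`n3` is a unit over the rationals); `MQ G` is irreducible in a UFD, so prime (`Irreducible.prime`): say `MQ G ∣ MQ A`, `MQ A = MQ G * q`; clear denominators: `k ≠ 0`, `C k * A = G * q'`, `q'` integer polynomial. Claim: `x = q'(y) / (k n1)` is in the ring: `k A(w) = G(w) q'(w)`, `n1 ∣ A(w)`, so `k n1 ∣ G(w) q'(w)` in `K`; no prime divides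
`G(w)`, so `G(w)` is a unit modulo the integer `N = k n1`: `RR_residue` gives an integer `g` with `N ∣ G(w) - g`, `g` coprime to `N` (a common prime would divide `G(w)`; `cast_dvd`), Bezout in the integers gives `N ∣ q'(w)`. Then `a = m x`. -/
set_option autoImplicit false
namespace Pool.Agent.H54.SO
open Pool.Agent.H54.SZ

theorem P5_aeval_C {S : Type} [CommRing S] (y : ℕ → S) (c : ℤ) :
    MvPolynomial.aeval y (MvPolynomial.C c : MvPolynomial ℕ ℤ) = (c : S) := by
  rw [MvPolynomial.aeval_C]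
  simp

/-- an element without standard prime divisor is invertible modulo every standard integer -/
theorem P5_inv_mod (y : K) (hy : ∀ p : ℕ, p.Prime → ¬ (p : K) ∣ y) (c : ℤ) (hc : c ≠ 0) :
    ∃ x : ℤ, (c : K) ∣ (x : K) * y - 1 := by
  have hc' : (0 : K) < ((|c| : ℤ) : K) := by
    have : 0 < |c| := abs_pos.mpr hc
    exact_mod_cast this
  obtain ⟨q, r, h1, h2, h3⟩ := K_div y _ hc'
  obtain ⟨r0, hr0⟩ := std_of_bdd r |c| (by rw [abs_of_nonneg h2]; exact h3.le)
  have hcop : IsCoprime r0 c := by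
    rw [Int.isCoprime_iff_gcd_eq_one]
    by_contra hg
    obtain ⟨p, hp, hpg⟩ := Nat.exists_prime_and_dvd hg
    have h4 : (p : ℤ) ∣ r0 := dvd_trans (by exact_mod_cast hpg) (Int.gcd_dvd_left r0 c)
    have h5 : (p : ℤ) ∣ c := dvd_trans (by exact_mod_cast hpg) (Int.gcd_dvd_right r0 c)
    refine hy p hp ?_
    rw [h1, hr0]
    have h6 : ((p : ℤ) : K) ∣ (r0 : K) := (cast_dvd _ _).mpr h4
    have h7 : ((p : ℤ) : K) ∣ ((|c| : ℤ) : K) := (cast_dvd _ _).mpr ((dvd_abs _ _).mpr h5)
    have h8 : ((p : ℤ) : K) = (p : K) := by simp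
    rw [h8] at h6 h7
    exact dvd_add (Dvd.dvd.mul_right h7 _) h6
  obtain ⟨x, z, hxz⟩ := hcop
  refine ⟨x, ?_⟩
  have h9 : (c : K) ∣ ((|c| : ℤ) : K) := (cast_dvd _ _).mpr ((dvd_abs _ _).mpr dvd_rfl)
  have h10 : (x : K) * (r0 : K) + (z : K) * (c : K) = 1 := by
    have := congrArg (fun t : ℤ => (t : K)) hxz
    push_cast at this
    exact this
  have h11 : (x : K) * y - 1 = ((|c| : ℤ) : K) * ((x : K) * q) - (c : K) * (z : K) := by
    rw [h1, hr0]
    linear_combination h10
  rw [h11]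
  exact dvd_sub (Dvd.dvd.mul_right h9 _) (Dvd.intro _ rfl)

/-- clearing denominators -/
theorem P5_clear (q : MvPolynomial ℕ ℚ) :
    ∃ (k : ℤ) (q' : MvPolynomial ℕ ℤ), k ≠ 0 ∧ MQ q' = MvPolynomial.C (k : ℚ) * q := by
  induction q using MvPolynomial.induction_on with
  | C a =>
    refine ⟨a.den, MvPolynomial.C a.num, by exact_mod_cast a.den_nz, ?_⟩
    rw [MQ, MvPolynomial.map_C, ← MvPolynomial.C_mul]
    congr 1
    rw [mul_comm]
    have := Rat.mul_den_eq_num a
    rw [eq_intCast, ← this]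
    simp
  | add p q hp hq =>
    obtain ⟨k1, p', hk1, h1⟩ := hp
    obtain ⟨k2, q', hk2, h2⟩ := hq
    refine ⟨k1 * k2, MvPolynomial.C k2 * p' + MvPolynomial.C k1 * q', mul_ne_zero hk1 hk2, ?_⟩
    rw [MQ, map_add, map_mul, map_mul]
    change MvPolynomial.map (Int.castRingHom ℚ) (MvPolynomial.C k2) * MQ p' +
      MvPolynomial.map (Int.castRingHom ℚ) (MvPolynomial.C k1) * MQ q' = _
    rw [h1, h2, MvPolynomial.map_C, MvPolynomial.map_C]
    push_cast
    rw [MvPolynomial.C_mul, eq_intCast, eq_intCast]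
    ring
  | mul_X p i hp =>
    obtain ⟨k1, p', hk1, h1⟩ := hp
    refine ⟨k1, p' * MvPolynomial.X i, hk1, ?_⟩
    rw [MQ, map_mul, MvPolynomial.map_X]
    change MQ p' * _ = _
    rw [h1]
    ring

theorem P5_div (G A : MvPolynomial ℕ ℤ) (h : MQ G ∣ MQ A) :
    ∃ (k : ℤ) (q : MvPolynomial ℕ ℤ), k ≠ 0 ∧ MvPolynomial.C k * A = G * q := by
  obtain ⟨q0, hq0⟩ := h
  obtain ⟨k, q, hk, hq⟩ := P5_clear q0
  refine ⟨k, q, hk, ?_⟩
  apply MvPolynomial.map_injective (Int.castRingHom ℚ) (RingHom.injective_int _)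
  rw [map_mul, map_mul, MvPolynomial.map_C]
  change _ * MQ A = MQ G * MQ q
  rw [hq, hq0, eq_intCast]
  ring

theorem P5_half (y : ℕ → Hyperreal) (w : ℕ → K) (G A q : MvPolynomial ℕ ℤ)
    (hp : ∀ p : ℕ, p.Prime → ¬ (p : K) ∣ MvPolynomial.aeval w G)
    (m a : RR y w) (hm : (m : Hyperreal) = MvPolynomial.aeval y G)
    (n k : ℤ) (hn : n ≠ 0) (hk : k ≠ 0)
    (hA : (n : Hyperreal) * (a : Hyperreal) = MvPolynomial.aeval y A)
    (hA' : (n : K) ∣ MvPolynomial.aeval w A) (hq : MvPolynomial.C k * A = G * q) : m ∣ a := by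
  have hc0 : k * n ≠ 0 := mul_ne_zero hk hn
  obtain ⟨x, hx⟩ := P5_inv_mod _ hp (k * n) hc0
  have e1 : (k : K) * MvPolynomial.aeval w A = MvPolynomial.aeval w G * MvPolynomial.aeval w q := by
    have := congrArg (MvPolynomial.aeval w) hq
    rw [map_mul, map_mul, P5_aeval_C] at this
    exact this
  have e2 : (k : Hyperreal) * MvPolynomial.aeval y A = MvPolynomial.aeval y G * MvPolynomial.aeval y q := by
    have := congrArg (MvPolynomial.aeval y) hq
    rw [map_mul, map_mul, P5_aeval_C] at this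
    exact this
  have h3 : ((k * n : ℤ) : K) ∣ MvPolynomial.aeval w q := by
    have h4 : MvPolynomial.aeval w q = (x : K) * ((k : K) * MvPolynomial.aeval w A) -
        ((x : K) * MvPolynomial.aeval w G - 1) * MvPolynomial.aeval w q := by
      rw [e1]; ring
    rw [h4]
    apply dvd_sub
    · apply Dvd.dvd.mul_left
      push_cast
      exact mul_dvd_mul_left _ hA'
    · exact Dvd.dvd.mul_right hx _
  have hcH : ((k * n : ℤ) : Hyperreal) ≠ 0 := by exact_mod_cast hc0
  have hz : ((k * n : ℤ) : Hyperreal) * (MvPolynomial.aeval y q / ((k * n : ℤ) : Hyperreal)) =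
      MvPolynomial.aeval y q := mul_div_cancel₀ _ hcH
  refine ⟨⟨MvPolynomial.aeval y q / ((k * n : ℤ) : Hyperreal), k * n, q, hc0, hz, h3⟩, Subtype.ext ?_⟩
  show (a : Hyperreal) = (m : Hyperreal) * (MvPolynomial.aeval y q / ((k * n : ℤ) : Hyperreal))
  apply mul_left_cancel₀ hcH
  calc ((k * n : ℤ) : Hyperreal) * (a : Hyperreal) = (k : Hyperreal) * ((n : Hyperreal) * (a : Hyperreal)) := by
        push_cast; ring
    _ = (m : Hyperreal) * (((k * n : ℤ) : Hyperreal) * (MvPolynomial.aeval y q / ((k * n : ℤ) : Hyperreal))) := by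
        rw [hz, hA, e2, hm]
    _ = _ := by ring

theorem RR_prime (y : ℕ → Hyperreal) (w : ℕ → K) (hy : Y1 y) (G : MvPolynomial ℕ ℤ)
    (hG : Irreducible (MQ G)) (hp : ∀ p : ℕ, p.Prime → ¬ (p : K) ∣ MvPolynomial.aeval w G)
    (m : RR y w) (hm : (m : Hyperreal) = MvPolynomial.aeval y G) : Prime m := by
  refine ⟨?_, ?_, ?_⟩
  · intro h0
    have h1 : G = 0 := by
      apply hy.inj
      rw [← hm, h0, map_zero]; rfl
    apply hG.ne_zero
    rw [MQ, h1, map_zero]
  · intro hu
    obtain ⟨u, hu⟩ := hu.exists_right_inv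
    obtain ⟨n, H, hn, hH, hH'⟩ := u.2
    have h1 : (m : Hyperreal) * (u : Hyperreal) = 1 := by
      have := congrArg (fun t : RR y w => (t : Hyperreal)) hu
      simpa using this
    have h2 : MvPolynomial.C n = G * H := by
      apply hy.inj
      rw [map_mul, ← hm, ← hH, P5_aeval_C]
      calc (n : Hyperreal) = (n : Hyperreal) * ((m : Hyperreal) * (u : Hyperreal)) := by rw [h1, mul_one]
        _ = _ := by ring
    apply hG.not_isUnit
    have h3 : MQ G * MQ H = MvPolynomial.C (n : ℚ) := by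
      have := congrArg (MvPolynomial.map (Int.castRingHom ℚ)) h2
      rw [map_mul, MvPolynomial.map_C, eq_intCast] at this
      exact this.symm
    have h4 : IsUnit (MQ G * MQ H) := by
      rw [h3]
      apply IsUnit.map MvPolynomial.C
      rw [isUnit_iff_ne_zero]
      exact_mod_cast hn
    exact isUnit_of_mul_isUnit_left h4
  · intro a b hab
    obtain ⟨c, hc⟩ := hab
    obtain ⟨n1, A, hn1, hA, hA'⟩ := a.2
    obtain ⟨n2, B, hn2, hB, hB'⟩ := b.2
    obtain ⟨n3, D, hn3, hD, hD'⟩ := c.2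
    have h1 : (a : Hyperreal) * (b : Hyperreal) = (m : Hyperreal) * (c : Hyperreal) := by
      have := congrArg (fun t : RR y w => (t : Hyperreal)) hc
      simpa using this
    obtain ⟨N, hN⟩ : ∃ N : ℤ, N = n1 * n2 := ⟨_, rfl⟩
    have h2 : MvPolynomial.C n3 * (A * B) = MvPolynomial.C N * (G * D) := by
      apply hy.inj
      rw [map_mul, map_mul, map_mul, map_mul, P5_aeval_C, P5_aeval_C, ← hA, ← hB, ← hD, ← hm, hN]
      push_cast
      calc (n3 : Hyperreal) * ((n1 : Hyperreal) * (a : Hyperreal) * ((n2 : Hyperreal) * (b : Hyperreal)))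
          = (n3 : Hyperreal) * (n1 : Hyperreal) * (n2 : Hyperreal) * ((a : Hyperreal) * (b : Hyperreal)) := by ring
        _ = _ := by rw [h1]; ring
    have hpr : Prime (MQ G) := hG.prime
    have h3 : MQ G ∣ MQ A * MQ B := by
      have h4 : MvPolynomial.C (n3 : ℚ) * (MQ A * MQ B) =
          MvPolynomial.C (N : ℚ) * (MQ G * MQ D) := by
        have := congrArg (MvPolynomial.map (Int.castRingHom ℚ)) h2
        rw [map_mul, map_mul, map_mul, map_mul, MvPolynomial.map_C, MvPolynomial.map_C,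
          eq_intCast, eq_intCast] at this
        exact this
      have h5 : IsUnit (MvPolynomial.C (n3 : ℚ) : MvPolynomial ℕ ℚ) := by
        apply IsUnit.map MvPolynomial.C
        rw [isUnit_iff_ne_zero]
        exact_mod_cast hn3
      rw [← h5.dvd_mul_left, h4]
      exact ⟨MvPolynomial.C (N : ℚ) * MQ D, by ring⟩
    rcases hpr.dvd_or_dvd h3 with h | h
    · left
      obtain ⟨k, q, hk, hq⟩ := P5_div G A h
      exact P5_half y w G A q hp m a hm n1 k hn1 hk hA hA' hq
    · right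
      obtain ⟨k, q, hk, hq⟩ := P5_div G B h
      exact P5_half y w G B q hp m b hm n2 k hn2 hk hB hB' hq

end Pool.Agent.H54.SO
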