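import Pool.Agent.H54.SO.S1
/-! MP_0e09bd_lc (PI helper54): polynomials in one of the variables.
`one_var`: use `MvPolynomial.exists_rename_eq_of_vars_subset_range` (or: by `MvPolynomial.induction_on'`/support) with the map `Unit → ℕ`, `() ↦ k`, and `MvPolynomial.pUnitAlgEquiv`.
`irr_var`: `f(X_k) = a b`; for `i ≠ k`: `spl ℚ i` is an injective ring hom into a domain, `spl ℚ i (f(X_k)) = C _` has natDegree 0 (`spl_not`), so `natDegree (spl ℚ i a) = 0`, so `i ∉ a.vars` (`spl_const`); so `a = u(X_k)`, `b = v(X_k)` by `one_var`; `u ↦ u(X_k)` is injective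
(evaluate the variable `k` at the polynomial variable), so `f = u v`, one of them is a unit. Not a unit: a unit of `MvPolynomial ℕ ℚ` is a constant.
`comp_vars`: for `i ≠ k`: `spl ℚ i` of both sides: the left side is `(f.map C..).comp (spl ℚ i m)` of natDegree `natDegree f * natDegree (spl ℚ i m)` (domain; `Polynomial.natDegree_comp`, `Polynomial.aeval` as composition over the coefficient ring `MvPolynomial ℕ ℚ`), the right side has natDegree 0, so
`natDegree (spl ℚ i m) = 0`, `i ∉ m.vars`; `one_var`. -/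
set_option autoImplicit false
namespace Pool.Agent.H54.SO
open Pool.Agent.H54.SZ

theorem one_var (k : ℕ) (m : MvPolynomial ℕ ℚ) (h : ∀ i ∈ m.vars, i = k) :
    ∃ u : Polynomial ℚ, m = Polynomial.aeval (MvPolynomial.X k : MvPolynomial ℕ ℚ) u := by
  refine ⟨MvPolynomial.aeval (fun _ => Polynomial.X) m, ?_⟩
  rw [MvPolynomial.comp_aeval_apply]
  simp only [Polynomial.aeval_X]
  conv_lhs => rw [← MvPolynomial.aeval_X_left_apply m]
  refine MvPolynomial.eval₂Hom_congr' rfl (fun i hi _ => ?_) rfl
  rw [h i hi]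

/-- evaluation of all variables at the polynomial variable -/
theorem back_var (k : ℕ) (u : Polynomial ℚ) :
    (MvPolynomial.aeval (fun _ => Polynomial.X) : MvPolynomial ℕ ℚ →ₐ[ℚ] Polynomial ℚ)
      (Polynomial.aeval (MvPolynomial.X k : MvPolynomial ℕ ℚ) u) = u := by
  have h := Polynomial.aeval_algHom_apply
    (MvPolynomial.aeval (fun _ => Polynomial.X) : MvPolynomial ℕ ℚ →ₐ[ℚ] Polynomial ℚ)
    (MvPolynomial.X k) u
  rw [← h, MvPolynomial.aeval_X, Polynomial.aeval_X_left_apply]

theorem inj_var (k : ℕ) (u v : Polynomial ℚ)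
    (h : Polynomial.aeval (MvPolynomial.X k : MvPolynomial ℕ ℚ) u =
      Polynomial.aeval (MvPolynomial.X k : MvPolynomial ℕ ℚ) v) : u = v := by
  rw [← back_var k u, h, back_var]

theorem spl_var (k i : ℕ) (hi : i ≠ k) (u : Polynomial ℚ) :
    spl ℚ i (Polynomial.aeval (MvPolynomial.X k : MvPolynomial ℕ ℚ) u) =
      Polynomial.C (Polynomial.aeval (MvPolynomial.X k : MvPolynomial ℕ ℚ) u) := by
  rw [← Polynomial.aeval_algHom_apply]
  have h1 : spl ℚ i (MvPolynomial.X k) = Polynomial.C (MvPolynomial.X k) := by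
    unfold spl
    rw [MvPolynomial.aeval_X, if_neg (Ne.symm hi)]
  rw [h1]
  exact Polynomial.aeval_algebraMap_apply (Polynomial (MvPolynomial ℕ ℚ))
    (MvPolynomial.X k : MvPolynomial ℕ ℚ) u

theorem irr_var (k : ℕ) (f : Polynomial ℚ) (hf : Irreducible f) :
    Irreducible (Polynomial.aeval (MvPolynomial.X k : MvPolynomial ℕ ℚ) f) := by
  constructor
  · intro H
    have := H.map (MvPolynomial.aeval (fun _ => Polynomial.X) :
      MvPolynomial ℕ ℚ →ₐ[ℚ] Polynomial ℚ)
    rw [back_var] at this
    exact hf.not_isUnit this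
  · intro a b hab
    have hne : Polynomial.aeval (MvPolynomial.X k : MvPolynomial ℕ ℚ) f ≠ 0 := by
      intro H
      apply hf.ne_zero
      apply inj_var k
      rw [H, map_zero]
    have ha : a ≠ 0 := by
      rintro rfl
      exact hne (by rw [hab, zero_mul])
    have hb : b ≠ 0 := by
      rintro rfl
      exact hne (by rw [hab, mul_zero])
    have key : ∀ i, i ≠ k → i ∉ a.vars ∧ i ∉ b.vars := by
      intro i hi
      have h1 := congrArg (fun z => (spl ℚ i z).natDegree) hab
      have ha' : spl ℚ i a ≠ 0 := fun H => ha (spl_injective ℚ i (by rw [H, map_zero]))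
      have hb' : spl ℚ i b ≠ 0 := fun H => hb (spl_injective ℚ i (by rw [H, map_zero]))
      rw [spl_var k i hi, Polynomial.natDegree_C, map_mul, Polynomial.natDegree_mul ha' hb'] at h1
      exact ⟨(spl_const ℚ i a (by omega)).2, (spl_const ℚ i b (by omega)).2⟩
    obtain ⟨u, hu⟩ := one_var k a (fun i hi => by
      by_contra hik
      exact (key i hik).1 hi)
    obtain ⟨v, hv⟩ := one_var k b (fun i hi => by
      by_contra hik
      exact (key i hik).2 hi)
    have huv : f = u * v := by
      apply inj_var k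
      rw [map_mul, ← hu, ← hv, hab]
    rcases hf.isUnit_or_isUnit huv with h | h
    · left
      rw [hu]
      exact h.map (Polynomial.aeval (MvPolynomial.X k : MvPolynomial ℕ ℚ))
    · right
      rw [hv]
      exact h.map (Polynomial.aeval (MvPolynomial.X k : MvPolynomial ℕ ℚ))

theorem comp_vars (k : ℕ) (f g : Polynomial ℚ) (hf : 0 < f.natDegree) (m : MvPolynomial ℕ ℚ)
    (h : Polynomial.aeval m f = Polynomial.aeval (MvPolynomial.X k : MvPolynomial ℕ ℚ) g) :
    ∃ u : Polynomial ℚ, m = Polynomial.aeval (MvPolynomial.X k : MvPolynomial ℕ ℚ) u := by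
  apply one_var
  intro i hi
  by_contra hik
  have h1 := congrArg (spl ℚ i) h
  rw [spl_var k i hik, ← Polynomial.aeval_algHom_apply] at h1
  have h2 : Polynomial.aeval (spl ℚ i m) f =
      (f.map (algebraMap ℚ (MvPolynomial ℕ ℚ))).comp (spl ℚ i m) := by
    rw [Polynomial.comp, Polynomial.eval₂_map, Polynomial.aeval_def]
    rfl
  have h3 := congrArg Polynomial.natDegree h1
  rw [h2, Polynomial.natDegree_comp, Polynomial.natDegree_C,
    Polynomial.natDegree_map_eq_of_injective
      (FaithfulSMul.algebraMap_injective ℚ (MvPolynomial ℕ ℚ))] at h3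
  have h4 : (spl ℚ i m).natDegree = 0 := by
    rcases Nat.mul_eq_zero.1 h3 with h5 | h5
    · omega
    · exact h5
  exact (spl_const ℚ i m h4).2 hi

end Pool.Agent.H54.SO
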