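import Pool.Agent.H54.SO.Q2
/-! MP_0e09bd_lc (PI helper54): all residues.
Enumerate the pairs `(h, N)` with `Irreducible (MQ h)` and not associated to any `MQ (aeval (X k) f)`, `f ∈ S k` (countable type; if empty, trivial): `e : ℕ → ...` surjective. By `key` choose recursively primes `P 0 < P 1 < ...` and `t s : ℕ → ℤ` with `P s > N_s`, `P s ∣ eval (t s) h_s`, and `t s` admissible mod `P s`
(strong recursion: at step `s` apply `key` with bound `max N_s (P (s-1))`; e.g. define the pair sequence by `Nat.rec`). `r k p = t s k` if `p = P s`, otherwise a residue with `p` dividing no `f(r)`, `f ∈ S k` (`(hS k).nofix p hp`; if `p` is not prime: 0). -/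
set_option autoImplicit false
namespace Pool.Agent.H54.SO
open Pool.Agent.H54.SZ

private theorem mv_countable : Countable (MvPolynomial ℕ ℤ) := by
  rw [← Cardinal.mk_le_aleph0_iff]
  refine MvPolynomial.cardinalMk_le_max.trans ?_
  simp

private theorem adm_res {P : Finset (Polynomial ℤ)} (hP : Adm P) (p : ℕ) (hp : p.Prime) :
    ∃ k : ℤ, ∀ f ∈ P, ¬ (p : ℤ) ∣ f.eval k := by
  obtain ⟨k, hk⟩ := hP.nofix p hp
  exact ⟨k, fun f hf hd => hk (hd.trans (Finset.dvd_prod_of_mem (fun f : Polynomial ℤ => f.eval k) hf))⟩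

theorem resid (S : ℕ → Finset (Polynomial ℤ)) (hS : ∀ k, Adm (S k)) :
    ∃ r : ℕ → ℕ → ℤ,
      (∀ k, ∀ f ∈ S k, ∀ p : ℕ, p.Prime → ¬ (p : ℤ) ∣ f.eval (r k p)) ∧
      (∀ h : MvPolynomial ℕ ℤ, Irreducible (MQ h) →
        (∃ k, ∃ f ∈ S k, Associated (MQ (Polynomial.aeval (MvPolynomial.X k) f)) (MQ h)) ∨
        ∀ N : ℕ, ∃ p : ℕ, p.Prime ∧ N < p ∧ (p : ℤ) ∣ MvPolynomial.eval (fun k => r k p) h) := by
  classical
  have hstep : ∀ (h : MvPolynomial ℕ ℤ) (N : ℕ), ∃ x : ℕ × (ℕ → ℤ), x.1.Prime ∧ N < x.1 ∧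
      (∀ k, ∀ f ∈ S k, ¬ (x.1 : ℤ) ∣ f.eval (x.2 k)) ∧
      (Irreducible (MQ h) →
        (∀ k, ∀ f ∈ S k, ¬ Associated (MQ (Polynomial.aeval (MvPolynomial.X k) f)) (MQ h)) →
        (x.1 : ℤ) ∣ MvPolynomial.eval x.2 h) := by
    intro h N
    by_cases hg : Irreducible (MQ h) ∧
        ∀ k, ∀ f ∈ S k, ¬ Associated (MQ (Polynomial.aeval (MvPolynomial.X k) f)) (MQ h)
    · obtain ⟨p, hp, hN, t, ht, hadm⟩ := key S hS h hg.1 hg.2 N
      exact ⟨(p, t), hp, hN, hadm, fun _ _ => ht⟩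
    · obtain ⟨p, hN, hp⟩ := Nat.exists_infinite_primes (N + 1)
      choose t ht using fun k => adm_res (hS k) p hp
      exact ⟨(p, t), hp, hN, ht, fun h1 h2 => absurd ⟨h1, h2⟩ hg⟩
  choose c hc1 hc2 hc3 hc4 using hstep
  have := mv_countable
  obtain ⟨e, he⟩ := exists_surjective_nat (MvPolynomial ℕ ℤ × ℕ)
  let G : ℕ → ℕ × (ℕ → ℤ) := fun s => Nat.rec (c (e 0).1 (e 0).2)
    (fun s g => c (e (s + 1)).1 (max (e (s + 1)).2 g.1)) s
  have hG1 : ∀ s, G (s + 1) = c (e (s + 1)).1 (max (e (s + 1)).2 (G s).1) := fun s => rfl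
  have hG0 : G 0 = c (e 0).1 (e 0).2 := rfl
  have hmono : StrictMono fun s => (G s).1 := by
    apply strictMono_nat_of_lt_succ
    intro s
    change (G s).1 < (G (s + 1)).1
    rw [hG1]
    exact lt_of_le_of_lt (le_max_right _ _) (hc2 _ _)
  have hprop : ∀ s, (G s).1.Prime ∧ (e s).2 < (G s).1 ∧
      (∀ k, ∀ f ∈ S k, ¬ ((G s).1 : ℤ) ∣ f.eval ((G s).2 k)) ∧
      (Irreducible (MQ (e s).1) →
        (∀ k, ∀ f ∈ S k, ¬ Associated (MQ (Polynomial.aeval (MvPolynomial.X k) f)) (MQ (e s).1)) →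
        ((G s).1 : ℤ) ∣ MvPolynomial.eval (G s).2 (e s).1) := by
    intro s
    cases s with
    | zero => rw [hG0]; exact ⟨hc1 _ _, hc2 _ _, hc3 _ _, hc4 _ _⟩
    | succ s =>
      rw [hG1]
      exact ⟨hc1 _ _, lt_of_le_of_lt (le_max_left _ _) (hc2 _ _), hc3 _ _, hc4 _ _⟩
  have hr : ∀ p : ℕ, ∃ t : ℕ → ℤ, (∀ s, (G s).1 = p → t = (G s).2) ∧
      (p.Prime → ∀ k, ∀ f ∈ S k, ¬ (p : ℤ) ∣ f.eval (t k)) := by
    intro p
    by_cases hs : ∃ s, (G s).1 = p
    · obtain ⟨s, rfl⟩ := hs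
      refine ⟨(G s).2, fun s' hs' => ?_, fun _ => (hprop s).2.2.1⟩
      have : s' = s := hmono.injective hs'
      rw [this]
    · by_cases hp : p.Prime
      · choose t ht using fun k => adm_res (hS k) p hp
        exact ⟨t, fun s hs' => absurd ⟨s, hs'⟩ hs, fun _ => ht⟩
      · exact ⟨fun _ => 0, fun s hs' => absurd ⟨s, hs'⟩ hs, fun h => absurd h hp⟩
  choose t ht1 ht2 using hr
  refine ⟨fun k p => t p k, fun k f hf p hp => ht2 p hp k f hf, fun h hh => ?_⟩
  by_cases ha : ∃ k, ∃ f ∈ S k, Associated (MQ (Polynomial.aeval (MvPolynomial.X k) f)) (MQ h)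
  · exact Or.inl ha
  · right
    push Not at ha
    intro N
    obtain ⟨s, hs⟩ := he (h, N)
    obtain ⟨h1, h2, -, h4⟩ := hprop s
    rw [hs] at h2 h4
    refine ⟨(G s).1, h1, h2, ?_⟩
    have h5 : t (G s).1 = (G s).2 := ht1 _ s rfl
    have h6 : (fun k => t (G s).1 k) = (G s).2 := h5
    rw [h6]
    exact h4 hh ha

/-- divisibility by a prime is decided by the residues -/
theorem dvd_iff_mv (w : ℕ → K) (p : ℕ) (r : ℕ → ℤ) (hp : ∀ k, (p : K) ∣ w k - (r k : K))
    (G : MvPolynomial ℕ ℤ) :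
    ((p : K) ∣ MvPolynomial.aeval w G) ↔ (p : ℤ) ∣ MvPolynomial.eval r G := by
  have h3 : (p : K) ∣ MvPolynomial.aeval w G - ((MvPolynomial.eval r G : ℤ) : K) := by
    induction G using MvPolynomial.induction_on with
    | C a => simp
    | add f g hf hg =>
      have : MvPolynomial.aeval w (f + g) - ((MvPolynomial.eval r (f + g) : ℤ) : K)
          = (MvPolynomial.aeval w f - ((MvPolynomial.eval r f : ℤ) : K))
            + (MvPolynomial.aeval w g - ((MvPolynomial.eval r g : ℤ) : K)) := by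
        rw [map_add, map_add]; push_cast; ring
      rw [this]
      exact dvd_add hf hg
    | mul_X f k hf =>
      have : MvPolynomial.aeval w (f * MvPolynomial.X k)
            - ((MvPolynomial.eval r (f * MvPolynomial.X k) : ℤ) : K)
          = (MvPolynomial.aeval w f - ((MvPolynomial.eval r f : ℤ) : K)) * w k
            + ((MvPolynomial.eval r f : ℤ) : K) * (w k - (r k : K)) := by
        rw [map_mul, map_mul, MvPolynomial.aeval_X, MvPolynomial.eval_X]; push_cast; ring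
      rw [this]
      exact dvd_add (Dvd.dvd.mul_right hf _) (Dvd.dvd.mul_left (hp k) _)
  rw [← cast_dvd]
  have h4 : (((p : ℤ)) : K) = (p : K) := by simp
  rw [h4]
  constructor
  · intro h; have := dvd_sub h h3; simpa using this
  · intro h; have := dvd_add h3 h; simpa using this

end Pool.Agent.H54.SO
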