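import Pool.Agent.H54.SO.O4
import Pool.Agent.H54.SO.O6
import Pool.Agent.H54.SO.P1
import Pool.Agent.H54.SO.P5
import Pool.Agent.H54.SO.P3
import Pool.Agent.H54.SO.P4
import Pool.Agent.H54.SO.Q1
import Pool.Agent.H54.SO.Q3
import Pool.Agent.H54.SZ.D1
/-! MP_0e09bd_lc: assembly, open induction version. -/
set_option autoImplicit false
namespace Pool.Agent.H54.SO
open Pool.Agent.H54.SZ

theorem MQ_aeval (k : ℕ) (f : Polynomial ℤ) :
    MQ (Polynomial.aeval (MvPolynomial.X k) f) =
      Polynomial.aeval (MvPolynomial.X k : MvPolynomial ℕ ℚ) (f.map (Int.castRingHom ℚ)) := by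
  rw [Polynomial.aeval_def, Polynomial.aeval_def, Polynomial.eval₂_map, MQ, Polynomial.hom_eval₂]
  congr 1
  · ext x; simp
  · simp

theorem MQ_inj (G H : MvPolynomial ℕ ℤ) (h : MQ G = MQ H) : G = H :=
  MvPolynomial.map_injective (Int.castRingHom ℚ) (RingHom.injective_int _) h

/-- clearing the denominator in a composition -/
theorem composeM (y : ℕ → Hyperreal) (m : Hyperreal) (n : ℤ) (F : MvPolynomial ℕ ℤ) (f : Polynomial ℤ)
    (hF : (n : Hyperreal) * m = MvPolynomial.aeval y F) :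
    (n : Hyperreal) ^ f.natDegree * Polynomial.aeval m f =
      MvPolynomial.aeval y (Polynomial.aeval F (f.scaleRoots n)) := by
  have h0 : MvPolynomial.aeval y (Polynomial.aeval F (f.scaleRoots n)) =
      Polynomial.aeval (MvPolynomial.aeval y F) (f.scaleRoots n) :=
    (Polynomial.aeval_algHom_apply (MvPolynomial.aeval y : MvPolynomial ℕ ℤ →ₐ[ℤ] Hyperreal) F
      (f.scaleRoots n)).symm
  rw [h0, ← hF]
  have := Polynomial.scaleRoots_eval₂_mul (p := f) (algebraMap ℤ Hyperreal) m n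
  simpa [Polynomial.aeval_def] using this.symm

theorem comp_scaleM (f : Polynomial ℤ) (F : MvPolynomial ℕ ℤ) (n : ℤ) (hn : n ≠ 0) :
    MQ (Polynomial.aeval F (f.scaleRoots n)) =
      MvPolynomial.C ((n : ℚ) ^ f.natDegree) *
        Polynomial.aeval (MvPolynomial.C ((n : ℚ)⁻¹) * MQ F) (f.map (Int.castRingHom ℚ)) := by
  have hn' : (n : ℚ) ≠ 0 := by exact_mod_cast hn
  set φ : ℤ →+* MvPolynomial ℕ ℚ := (MvPolynomial.C : ℚ →+* MvPolynomial ℕ ℚ).comp (Int.castRingHom ℚ) with hφ
  have h1 := Polynomial.scaleRoots_eval₂_mul (p := f) φ (MvPolynomial.C ((n : ℚ)⁻¹) * MQ F) n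
  have h2 : φ n * (MvPolynomial.C ((n : ℚ)⁻¹) * MQ F) = MQ F := by
    have e : φ n = MvPolynomial.C (n : ℚ) := rfl
    rw [e, ← mul_assoc, ← MvPolynomial.C_mul, mul_inv_cancel₀ hn', MvPolynomial.C_1, one_mul]
  rw [h2] at h1
  rw [Polynomial.aeval_def, Polynomial.aeval_def, Polynomial.eval₂_map, MQ, Polynomial.hom_eval₂]
  have e1 : (MvPolynomial.map (Int.castRingHom ℚ) : MvPolynomial ℕ ℤ →+* MvPolynomial ℕ ℚ).comp
      (algebraMap ℤ (MvPolynomial ℕ ℤ)) = φ := by ext x; simp
  have e2 : (algebraMap ℚ (MvPolynomial ℕ ℚ)).comp (Int.castRingHom ℚ) = φ := rfl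
  rw [e1, e2]
  have h3 : Polynomial.eval₂ φ (MQ F) (f.scaleRoots n) = _ := h1
  rw [h3]
  have e3 : φ n = MvPolynomial.C (n : ℚ) := rfl
  rw [e3, MvPolynomial.C_pow]

theorem nonconst_comp (m : MvPolynomial ℕ ℚ) (hm : ∀ c : ℚ, m ≠ MvPolynomial.C c)
    (f : Polynomial ℚ) (hf : 0 < f.natDegree) (c : ℚ) : Polynomial.aeval m f ≠ MvPolynomial.C c := by
  intro h
  have h1 : Polynomial.aeval m f = Polynomial.aeval (MvPolynomial.X 0 : MvPolynomial ℕ ℚ) (Polynomial.C c) := by
    rw [h]; simp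
  have h2 : Polynomial.aeval m f = Polynomial.aeval (MvPolynomial.X 1 : MvPolynomial ℕ ℚ) (Polynomial.C c) := by
    rw [h]; simp
  obtain ⟨u, hu⟩ := comp_vars 0 f _ hf m h1
  obtain ⟨v, hv⟩ := comp_vars 1 f _ hf m h2
  have h3 : m = MvPolynomial.C (u.eval 0) := by
    have h4 := congrArg (MvPolynomial.aeval (fun i => if i = 0 then (0 : MvPolynomial ℕ ℚ) else MvPolynomial.X i)) hv
    rw [← Polynomial.aeval_algHom_apply] at h4
    simp only [MvPolynomial.aeval_X, one_ne_zero, if_false] at h4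
    rw [← hv] at h4
    rw [← h4]
    have h5 := congrArg (MvPolynomial.aeval (fun i => if i = 0 then (0 : MvPolynomial ℕ ℚ) else MvPolynomial.X i)) hu
    rw [← Polynomial.aeval_algHom_apply] at h5
    simp only [MvPolynomial.aeval_X, if_true] at h5
    rw [h5]
    rw [Polynomial.aeval_def, Polynomial.eval₂_at_zero, Polynomial.coeff_zero_eq_eval_zero]
    rfl
  exact hm _ h3

theorem mainO (SS : Set (Finset (Polynomial ℤ))) (hSS : ∀ P ∈ SS, Adm P) :
    ∃ R : Subring Hyperreal,
    (∃ w : R, ∀ n : ℤ, (n : R) < w) ∧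
    (∀ a : R, 0 < a → 1 ≤ a) ∧
    OpenInduction R ∧
    IsIntegrallyClosed R ∧
    (∀ P ∈ SS, ∀ B : R, ∃ m : R, B < m ∧ ∀ f ∈ P, Prime (Polynomial.aeval m f)) ∧
    (∀ P : Finset (Polynomial ℤ), Adm P → P.Nonempty → ∀ m : R, (∀ n : ℤ, m ≠ (n : R)) →
      (∀ f ∈ P, Irreducible (Polynomial.aeval m f)) →
      ∃ S ∈ SS, ∃ u : Polynomial ℚ, ∀ f ∈ P, ∃ g ∈ S,
        (f.map (Int.castRingHom ℚ)).comp u = g.map (Int.castRingHom ℚ) ∨
        (f.map (Int.castRingHom ℚ)).comp u = - g.map (Int.castRingHom ℚ)) := by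
  classical
  have hcP : Countable (Polynomial ℤ) := by
    rw [← Cardinal.mk_le_aleph0_iff]
    refine Polynomial.cardinalMk_le_max.trans ?_
    simp
  have hne : Nonempty {P : Finset (Polynomial ℤ) // P ∈ SS ∨ P = ∅} := ⟨⟨∅, Or.inr rfl⟩⟩
  obtain ⟨e, he⟩ := exists_surjective_nat {P : Finset (Polynomial ℤ) // P ∈ SS ∨ P = ∅}
  set S : ℕ → Finset (Polynomial ℤ) := fun k => if k % 2 = 0 then (e (k / 2).unpair.1).1 else ∅ with hS
  have hAdm0 : Adm (∅ : Finset (Polynomial ℤ)) := by
    constructor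
    · intro f hf; simp at hf
    · intro p hp
      refine ⟨0, ?_⟩
      simp only [Finset.prod_empty]
      intro h
      have := Int.eq_one_of_dvd_one (by positivity) h
      exact hp.one_lt.ne' (by exact_mod_cast this)
  have hAdm : ∀ l, Adm (S l) := by
    intro l
    rw [hS]
    simp only
    split_ifs with h0
    · rcases (e (l / 2).unpair.1).2 with h | h
      · exact hSS _ h
      · rw [h]; exact hAdm0
    · exact hAdm0
  obtain ⟨r, hU, hR⟩ := resid S hAdm
  choose w hw hwp using fun k => exists_omega (r k)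
  obtain ⟨y, hy1, hy2, hy3⟩ := exists_y
  have hy : Y1 y := hy1
  have hdvd : ∀ (p : ℕ), p.Prime → ∀ G : MvPolynomial ℕ ℤ,
      ((p : K) ∣ MvPolynomial.aeval w G) ↔ (p : ℤ) ∣ MvPolynomial.eval (fun k => r k p) G :=
    fun p hp G => dvd_iff_mv w p (fun k => r k p) (fun k => hwp k p hp) G
  set Ys : (Σ l, {f : Polynomial ℤ // f ∈ S l}) → MvPolynomial ℕ ℤ :=
    fun i => Polynomial.aeval (MvPolynomial.X i.1) i.2.1 with hYs
  have hY1 : ∀ i, Irreducible (MQ (Ys i)) := by
    intro i
    rw [hYs]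
    simp only
    rw [MQ_aeval]
    exact irr_var _ _ ((hAdm i.1).irrQ _ i.2.2)
  have hY2 : ∀ i (p : ℕ), p.Prime → ¬ (p : K) ∣ MvPolynomial.aeval w (Ys i) := by
    intro i p hp
    rw [hdvd p hp]
    have h1 : MvPolynomial.eval (fun k => r k p) (Ys i) = i.2.1.eval (r i.1 p) := by
      have h2 := Polynomial.aeval_algHom_apply
        (MvPolynomial.aeval (fun k => r k p) : MvPolynomial ℕ ℤ →ₐ[ℤ] ℤ) (MvPolynomial.X i.1) i.2.1
      rw [MvPolynomial.aeval_X] at h2
      simpa [MvPolynomial.aeval_eq_eval] using h2.symm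
    rw [h1]
    exact hU i.1 i.2.1 i.2.2 p hp
  have hR' : ∀ h : MvPolynomial ℕ ℤ, Irreducible (MQ h) → (∃ i, Associated (MQ (Ys i)) (MQ h)) ∨
      ∀ N : ℕ, ∃ p : ℕ, p.Prime ∧ N < p ∧ (p : K) ∣ MvPolynomial.aeval w h := by
    intro h hh
    rcases hR h hh with ⟨l, f, hf, h1⟩ | h1
    · exact Or.inl ⟨⟨l, f, hf⟩, h1⟩
    · right
      intro N
      obtain ⟨p, hp, hN, hdv⟩ := h1 N
      exact ⟨p, hp, hN, (hdvd p hp h).2 hdv⟩
  have hXc : ∀ (k : ℕ) (c : ℤ), (MvPolynomial.X k : MvPolynomial ℕ ℤ) ≠ MvPolynomial.C c := by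
    intro k c h
    have := congrArg MvPolynomial.totalDegree h
    rw [MvPolynomial.totalDegree_X, MvPolynomial.totalDegree_C] at this
    omega
  refine ⟨RR y w, ?_, RR_disc y w hy, ?_, RR_normal y w hy, ?_, ?_⟩
  · -- an infinite element
    have h1 := hy1 (MvPolynomial.X 0) (hXc 0)
    have hmem : y 0 ∈ RR y w := by
      have := aeval_mem' y w (MvPolynomial.X 0)
      rwa [MvPolynomial.aeval_X] at this
    rw [MvPolynomial.aeval_X] at h1
    refine ⟨|⟨y 0, hmem⟩|, ?_⟩
    intro n
    rw [← Subtype.coe_lt_coe]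
    have h2 : (((n : RR y w)) : Hyperreal) = (n : Hyperreal) := by simp
    have h3 : ((|(⟨y 0, hmem⟩ : RR y w)| : RR y w) : Hyperreal) = |y 0| := rfl
    rw [h2, h3]
    refine lt_of_le_of_lt ?_ (h1 n.natAbs)
    have h4 : ((n : ℤ) : Hyperreal) ≤ (((n.natAbs : ℕ) : ℤ) : Hyperreal) := Int.cast_le.2 Int.le_natAbs
    rwa [Int.cast_natCast] at h4
  · exact openInd (RR y w) (RR_disc y w hy) (RR_floor y w hy hy2)
  · intro P hP B
    obtain ⟨n, G, hn, hG, -⟩ := B.2
    obtain ⟨i0, hi0⟩ := he ⟨P, Or.inl hP⟩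
    obtain ⟨k1, hk1⟩ := hy3 G
    obtain ⟨k2, hk2⟩ := hy3 (-G)
    set j := Nat.pair i0 (max k1 k2) with hj
    have hj1 : max k1 k2 ≤ j := Nat.right_le_pair _ _
    have hSj : S (2 * j) = P := by
      rw [hS]
      simp only
      rw [if_pos (by omega)]
      have : 2 * j / 2 = j := by omega
      rw [this, hj, Nat.unpair_pair, hi0]
    have h1 := hk1 j (le_trans (le_max_left _ _) hj1)
    have h2 := hk2 j (le_trans (le_max_right _ _) hj1)
    rw [map_neg] at h2
    have h3 : |MvPolynomial.aeval y G| < y (2 * j) := abs_lt.2 ⟨by linarith, h1⟩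
    have hmem : y (2 * j) ∈ RR y w := by
      have := aeval_mem' y w (MvPolynomial.X (2 * j))
      rwa [MvPolynomial.aeval_X] at this
    refine ⟨⟨y (2 * j), hmem⟩, ?_, ?_⟩
    · rw [← Subtype.coe_lt_coe]
      refine lt_of_le_of_lt (le_trans (le_abs_self _) ?_) h3
      rw [← hG, abs_mul]
      have h4 : (1 : Hyperreal) ≤ |(n : Hyperreal)| := by
        rw [← Int.cast_abs]; exact_mod_cast Int.one_le_abs hn
      have := mul_le_mul_of_nonneg_right h4 (abs_nonneg (B : Hyperreal))
      simpa using this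
    · intro f hf
      rw [← hSj] at hf
      apply RR_prime y w hy (Ys ⟨2 * j, f, hf⟩) (hY1 _) (hY2 _)
      have h5 := Polynomial.aeval_algHom_apply (RR y w).subtype.toIntAlgHom
        (⟨y (2 * j), hmem⟩ : RR y w) f
      have h6 := Polynomial.aeval_algHom_apply
        (MvPolynomial.aeval y : MvPolynomial ℕ ℤ →ₐ[ℤ] Hyperreal) (MvPolynomial.X (2 * j)) f
      rw [MvPolynomial.aeval_X] at h6
      rw [hYs]
      simp only
      rw [← h6]
      exact h5.symm
  · intro P hPA hPn m hmn hmI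
    obtain ⟨n, F, hn, hF, -⟩ := m.2
    have hnQ : (n : ℚ) ≠ 0 := by exact_mod_cast hn
    have hnK : (n : Hyperreal) ≠ 0 := by exact_mod_cast hn
    have hmn' : ∀ k : ℤ, (m : Hyperreal) ≠ (k : Hyperreal) := by
      intro k hk
      apply hmn k
      apply Subtype.ext
      rw [hk]; simp
    have hFc : ∀ c : ℤ, F ≠ MvPolynomial.C c := by
      intro c hc
      rcases RR_std y w hy m with ⟨k, hk⟩ | hinf
      · exact hmn' k hk
      · have h1 := hinf c.natAbs
        rw [hc] at hF
        have h2 : (n : Hyperreal) * m = (c : Hyperreal) := by simpa using hF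
        have h3 : |(m : Hyperreal)| ≤ |(c : Hyperreal)| := by
          rw [← h2, abs_mul]
          have h4 : (1 : Hyperreal) ≤ |(n : Hyperreal)| := by
            rw [← Int.cast_abs]; exact_mod_cast Int.one_le_abs hn
          have := mul_le_mul_of_nonneg_right h4 (abs_nonneg (m : Hyperreal))
          simpa using this
        have h5 : |(c : Hyperreal)| = ((c.natAbs : ℕ) : Hyperreal) := by
          rw [← Int.cast_abs, Int.abs_eq_natAbs]; simp
        rw [h5] at h3
        exact absurd (h1.trans_le h3) (lt_irrefl _)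
    set mQ : MvPolynomial ℕ ℚ := MvPolynomial.C ((n : ℚ)⁻¹) * MQ F with hmQ
    have hmQF : MvPolynomial.C (n : ℚ) * mQ = MQ F := by
      rw [hmQ, ← mul_assoc, ← MvPolynomial.C_mul, mul_inv_cancel₀ hnQ, MvPolynomial.C_1, one_mul]
    have hmQc : ∀ c : ℚ, mQ ≠ MvPolynomial.C c := by
      intro c hc
      have h1 : MQ F = MvPolynomial.C ((n : ℚ) * c) := by rw [← hmQF, hc, MvPolynomial.C_mul]
      have h2 : F = MvPolynomial.C (MvPolynomial.coeff 0 F) := by
        ext e
        rw [MvPolynomial.coeff_C]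
        split_ifs with h3
        · rw [← h3]
        · have h4 := congrArg (MvPolynomial.coeff e) h1
          rw [MQ, MvPolynomial.coeff_map, MvPolynomial.coeff_C, if_neg h3, eq_intCast] at h4
          exact_mod_cast h4
      exact hFc _ h2
    -- values
    have key : ∀ f ∈ P, ∃ i : (Σ l, {f : Polynomial ℤ // f ∈ S l}),
        (Polynomial.aeval mQ (f.map (Int.castRingHom ℚ)) =
          Polynomial.aeval (MvPolynomial.X i.1 : MvPolynomial ℕ ℚ) (i.2.1.map (Int.castRingHom ℚ)) ∨
        Polynomial.aeval mQ (f.map (Int.castRingHom ℚ)) =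
          Polynomial.aeval (MvPolynomial.X i.1 : MvPolynomial ℕ ℚ) (-(i.2.1.map (Int.castRingHom ℚ)))) := by
      intro f hf
      have hfd := (hPA.irr f hf).2
      have hfdQ : 0 < (f.map (Int.castRingHom ℚ)).natDegree := by
        rw [Polynomial.natDegree_map_eq_of_injective (RingHom.injective_int _)]; exact hfd
      have hG := composeM y m n F f hF
      have hcoe : ((Polynomial.aeval m f : RR y w) : Hyperreal) = Polynomial.aeval (m : Hyperreal) f :=
        (Polynomial.aeval_algHom_apply (RR y w).subtype.toIntAlgHom m f).symm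
      have hnp : (n : ℚ) ^ f.natDegree ≠ 0 := pow_ne_zero _ hnQ
      have hGc : ∀ c : ℤ, Polynomial.aeval F (f.scaleRoots n) ≠ MvPolynomial.C c := by
        intro c hc
        have h1 := congrArg MQ hc
        rw [comp_scaleM f F n hn, ← hmQ] at h1
        have h2 : Polynomial.aeval mQ (f.map (Int.castRingHom ℚ)) =
            MvPolynomial.C (((n : ℚ) ^ f.natDegree)⁻¹ * (c : ℚ)) := by
          have h3 : MQ (MvPolynomial.C c) = MvPolynomial.C (c : ℚ) := by simp [MQ]
          rw [h3] at h1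
          rw [MvPolynomial.C_mul, ← h1, ← mul_assoc, ← MvPolynomial.C_mul, inv_mul_cancel₀ hnp,
            MvPolynomial.C_1, one_mul]
        exact nonconst_comp mQ hmQc _ hfdQ _ h2
      have hinf : ∀ k : ℤ, ((Polynomial.aeval m f : RR y w) : Hyperreal) ≠ (k : Hyperreal) := by
        intro k hk
        rw [hcoe] at hk
        rw [hk] at hG
        have h1 := hy1 _ hGc (n ^ f.natDegree * k).natAbs
        rw [← hG] at h1
        have h5 : |(n : Hyperreal) ^ f.natDegree * (k : Hyperreal)| =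
            (((n ^ f.natDegree * k).natAbs : ℕ) : Hyperreal) := by
          have : (n : Hyperreal) ^ f.natDegree * (k : Hyperreal) =
              ((n ^ f.natDegree * k : ℤ) : Hyperreal) := by push_cast; ring
          rw [this, ← Int.cast_abs, Int.abs_eq_natAbs]; simp
        rw [h5] at h1
        exact lt_irrefl _ h1
      obtain ⟨i, hi⟩ := RR_class y w hy Ys hY1 hY2 hR' (Polynomial.aeval m f) (hmI f hf) hinf
      rw [hcoe] at hi
      refine ⟨i, ?_⟩
      have hCn : (MvPolynomial.C ((n : ℚ) ^ f.natDegree) : MvPolynomial ℕ ℚ) ≠ 0 := by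
        rw [Ne, MvPolynomial.C_eq_zero]; exact hnp
      rcases hi with hi | hi
      · left
        rw [hi] at hG
        have h1 : MvPolynomial.aeval y (MvPolynomial.C (n ^ f.natDegree) * Ys i) =
            MvPolynomial.aeval y (Polynomial.aeval F (f.scaleRoots n)) := by
          rw [← hG]; simp
        have h2 := congrArg MQ (hy.inj _ _ h1)
        rw [comp_scaleM f F n hn, ← hmQ] at h2
        have h3 : MQ (MvPolynomial.C (n ^ f.natDegree) * Ys i) =
            MvPolynomial.C ((n : ℚ) ^ f.natDegree) * MQ (Ys i) := by simp [MQ]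
        rw [h3] at h2
        have h4 := mul_left_cancel₀ hCn h2
        rw [← h4, hYs]
        simp only
        rw [MQ_aeval]
      · right
        rw [hi] at hG
        have h1 : MvPolynomial.aeval y (MvPolynomial.C (n ^ f.natDegree) * -Ys i) =
            MvPolynomial.aeval y (Polynomial.aeval F (f.scaleRoots n)) := by
          rw [← hG]; simp
        have h2 := congrArg MQ (hy.inj _ _ h1)
        rw [comp_scaleM f F n hn, ← hmQ] at h2
        have h3 : MQ (MvPolynomial.C (n ^ f.natDegree) * -Ys i) =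
            MvPolynomial.C ((n : ℚ) ^ f.natDegree) * -MQ (Ys i) := by simp [MQ]
        rw [h3] at h2
        have h4 := mul_left_cancel₀ hCn h2
        rw [← h4, hYs]
        simp only
        rw [MQ_aeval, map_neg]
    have hXinj : ∀ (k : ℕ) (a b : Polynomial ℚ),
        Polynomial.aeval (MvPolynomial.X k : MvPolynomial ℕ ℚ) a =
        Polynomial.aeval (MvPolynomial.X k : MvPolynomial ℕ ℚ) b → a = b := by
      intro k a b hab
      have h1 := congrArg (MvPolynomial.aeval (fun _ : ℕ => (Polynomial.X : Polynomial ℚ))) hab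
      rw [← Polynomial.aeval_algHom_apply, ← Polynomial.aeval_algHom_apply, MvPolynomial.aeval_X,
        Polynomial.aeval_X_left_apply, Polynomial.aeval_X_left_apply] at h1
      exact h1
    obtain ⟨f1, hf1⟩ := hPn
    obtain ⟨i1, hi1⟩ := key f1 hf1
    have hf1d : 0 < (f1.map (Int.castRingHom ℚ)).natDegree := by
      rw [Polynomial.natDegree_map_eq_of_injective (RingHom.injective_int _)]
      exact (hPA.irr f1 hf1).2
    obtain ⟨u, hu⟩ : ∃ u : Polynomial ℚ, mQ = Polynomial.aeval (MvPolynomial.X i1.1 : MvPolynomial ℕ ℚ) u := by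
      rcases hi1 with h | h
      · exact comp_vars i1.1 _ _ hf1d mQ h
      · exact comp_vars i1.1 _ _ hf1d mQ h
    have hS1 : S i1.1 ∈ SS := by
      have h0 : S i1.1 ≠ ∅ := Finset.ne_empty_of_mem i1.2.2
      have h1 : S i1.1 = if i1.1 % 2 = 0 then (e (i1.1 / 2).unpair.1).1 else ∅ := rfl
      split_ifs at h1 with h2
      · rcases (e (i1.1 / 2).unpair.1).2 with h | h
        · rw [h1]; exact h
        · exact absurd (h1.trans h) h0
      · exact absurd h1 h0
    refine ⟨S i1.1, hS1, u, ?_⟩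
    intro f hf
    obtain ⟨i, hi⟩ := key f hf
    have hfd : 0 < (f.map (Int.castRingHom ℚ)).natDegree := by
      rw [Polynomial.natDegree_map_eq_of_injective (RingHom.injective_int _)]
      exact (hPA.irr f hf).2
    have hii : i.1 = i1.1 := by
      by_contra hne
      obtain ⟨v, hv⟩ : ∃ v : Polynomial ℚ, mQ = Polynomial.aeval (MvPolynomial.X i.1 : MvPolynomial ℕ ℚ) v := by
        rcases hi with h | h
        · exact comp_vars i.1 _ _ hfd mQ h
        · exact comp_vars i.1 _ _ hfd mQ h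
      set ψ : MvPolynomial ℕ ℚ →ₐ[ℚ] MvPolynomial ℕ ℚ :=
        MvPolynomial.aeval (fun i' => if i' = i1.1 then (0 : MvPolynomial ℕ ℚ) else MvPolynomial.X i') with hψ
      have h4 := congrArg ψ hv
      rw [← Polynomial.aeval_algHom_apply] at h4
      have h4' : ψ (MvPolynomial.X i.1) = MvPolynomial.X i.1 := by
        rw [hψ, MvPolynomial.aeval_X, if_neg hne]
      rw [h4', ← hv] at h4
      have h5 := congrArg ψ hu
      rw [← Polynomial.aeval_algHom_apply] at h5
      have h5' : ψ (MvPolynomial.X i1.1) = 0 := by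
        rw [hψ, MvPolynomial.aeval_X, if_pos rfl]
      rw [h5'] at h5
      apply hmQc (u.eval 0)
      rw [← h4, h5]
      rw [Polynomial.aeval_def, Polynomial.eval₂_at_zero, Polynomial.coeff_zero_eq_eval_zero]
      rfl
    obtain ⟨l, g, hg⟩ := i
    simp only at hii
    subst hii
    have hcomp : Polynomial.aeval mQ (f.map (Int.castRingHom ℚ)) =
        Polynomial.aeval (MvPolynomial.X i1.1 : MvPolynomial ℕ ℚ) ((f.map (Int.castRingHom ℚ)).comp u) := by
      rw [Polynomial.aeval_comp, ← hu]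
    refine ⟨g, hg, ?_⟩
    rcases hi with hi | hi
    · left
      apply hXinj i1.1
      rw [← hcomp, hi]
    · right
      apply hXinj i1.1
      rw [← hcomp, hi]

end Pool.Agent.H54.SO
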