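import Pool.Agent.H54.SZ.G0
import Pool.Agent.H54.SZ.D2
/-! MP_0e09bd_lc (PI helper54), open induction version: definitions. -/
set_option autoImplicit false
namespace Pool.Agent.H54.SO
open Pool.Agent.H54.SZ

/-- the polynomial over the rationals -/
noncomputable abbrev MQ (G : MvPolynomial ℕ ℤ) : MvPolynomial ℕ ℚ := MvPolynomial.map (Int.castRingHom ℚ) G

/-- splitting off the variable `k` -/
noncomputable def spl (R : Type) [CommRing R] (k : ℕ) :
    MvPolynomial ℕ R →ₐ[R] Polynomial (MvPolynomial ℕ R) :=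
  MvPolynomial.aeval (fun i => if i = k then Polynomial.X else Polynomial.C (MvPolynomial.X i))

/-- sets definable by quantifier free formulas with parameters, in one variable -/
inductive QF (R : Type) [CommRing R] [LinearOrder R] : Set R → Prop
  | nonneg (f : Polynomial R) : QF R {x | 0 ≤ f.eval x}
  | compl (A : Set R) : QF R A → QF R Aᶜ
  | inter (A B : Set R) : QF R A → QF R B → QF R (A ∩ B)

/-- the scheme of open induction -/
def OpenInduction (R : Type) [CommRing R] [LinearOrder R] : Prop :=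
  ∀ A : Set R, QF R A → (0 : R) ∈ A → (∀ x : R, 0 ≤ x → x ∈ A → x + 1 ∈ A) → ∀ x : R, 0 ≤ x → x ∈ A

/-- all nonconstant polynomials in the first `k` elements are infinite -/
def Inv (k : ℕ) (y : ℕ → Hyperreal) : Prop :=
  ∀ G : MvPolynomial ℕ ℤ, (∀ i ∈ G.vars, i < k) → (∀ c : ℤ, G ≠ MvPolynomial.C c) →
    ∀ N : ℕ, (N : Hyperreal) < |MvPolynomial.aeval y G|

/-- an integer multiple of `α` is at finite distance from a polynomial in the first `k` elements -/
def NearZ (k : ℕ) (y : ℕ → Hyperreal) (α : Hyperreal) : Prop :=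
  ∃ (n : ℤ) (G : MvPolynomial ℕ ℤ) (N : ℕ), n ≠ 0 ∧ (∀ i ∈ G.vars, i < k) ∧
    |(n : Hyperreal) * α - MvPolynomial.aeval y G| ≤ (N : Hyperreal)

end Pool.Agent.H54.SO
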