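import Pool.Agent.H54.SO.O0
/-! MP_0e09bd_lc (PI helper54): Lagrange interpolation and a generic real number.
`interp`: `f` = Lagrange interpolation of its values at the `n` distinct nodes `(e j : Hyperreal)` (`Lagrange.eq_interpolate_of_eval_eq` or `Lagrange.eq_interpolate`), each basis
polynomial has coefficients which are finite (it is the image of the real basis polynomial under the coercion, or: finite products of `X - C node` with constant
`∏ (e j - e i)⁻¹`, all coefficients finite since finite elements form a subring containing the reals); sums of finite elements are finite.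
`generic`: for each `s` the set of real `ε` with `(F s).eval ε` finite is finite (otherwise `natDegree + 1` distinct ones give finite coefficients by `interp`); the union over the countable
index type is countable, the interval (0,1) is not (`Set.Countable.mono`, `Cardinal.Real.Ioo_countable_iff` / `not_countable`). -/
set_option autoImplicit false
namespace Pool.Agent.H54.SO

/-- finite hyperreals -/
def FiO1 (x : Hyperreal) : Prop := ∃ N : ℕ, |x| ≤ (N : Hyperreal)

lemma FiO1_real (r : ℝ) : FiO1 (r : Hyperreal) := by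
  obtain ⟨N, hN⟩ := exists_nat_ge |r|
  refine ⟨N, ?_⟩
  have h : ((|r| : ℝ) : Hyperreal) ≤ ((N : ℝ) : Hyperreal) := Hyperreal.coe_le_coe.2 hN
  rw [Hyperreal.coe_abs] at h
  have h2 : ((N : ℝ) : Hyperreal) = (N : Hyperreal) := rfl
  rw [h2] at h
  exact h

lemma FiO1_zero : FiO1 0 := ⟨0, by simp⟩

lemma FiO1_add {x y : Hyperreal} (hx : FiO1 x) (hy : FiO1 y) : FiO1 (x + y) := by
  obtain ⟨N, hN⟩ := hx
  obtain ⟨M, hM⟩ := hy
  refine ⟨N + M, (abs_add_le x y).trans ?_⟩
  push_cast
  exact add_le_add hN hM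

lemma FiO1_mul {x y : Hyperreal} (hx : FiO1 x) (hy : FiO1 y) : FiO1 (x * y) := by
  obtain ⟨N, hN⟩ := hx
  obtain ⟨M, hM⟩ := hy
  refine ⟨N * M, ?_⟩
  rw [abs_mul]
  push_cast
  exact mul_le_mul hN hM (abs_nonneg _) (Nat.cast_nonneg _)

lemma FiO1_sum {ι : Type} (s : Finset ι) (x : ι → Hyperreal) (h : ∀ i ∈ s, FiO1 (x i)) :
    FiO1 (∑ i ∈ s, x i) := by
  classical
  induction s using Finset.induction_on with
  | empty => simpa using FiO1_zero
  | insert a s ha ih =>
    rw [Finset.sum_insert ha]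
    exact FiO1_add (h a (Finset.mem_insert_self a s)) (ih fun i hi => h i (Finset.mem_insert_of_mem hi))

lemma FiO1_polymul {f g : Polynomial Hyperreal} (hf : ∀ i, FiO1 (f.coeff i))
    (hg : ∀ i, FiO1 (g.coeff i)) (i : ℕ) : FiO1 ((f * g).coeff i) := by
  rw [Polynomial.coeff_mul]
  exact FiO1_sum _ _ fun p _ => FiO1_mul (hf _) (hg _)

lemma FiO1_C {c : Hyperreal} (hc : FiO1 c) (i : ℕ) : FiO1 ((Polynomial.C c).coeff i) := by
  rw [Polynomial.coeff_C]
  split_ifs
  · exact hc
  · exact FiO1_zero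

lemma FiO1_prod {ι : Type} (s : Finset ι) (f : ι → Polynomial Hyperreal)
    (h : ∀ j ∈ s, ∀ i, FiO1 ((f j).coeff i)) (i : ℕ) : FiO1 ((∏ j ∈ s, f j).coeff i) := by
  classical
  induction s using Finset.induction_on generalizing i with
  | empty =>
    rw [Finset.prod_empty, ← Polynomial.C_1]
    exact FiO1_C (by simpa using FiO1_real 1) i
  | insert a s ha ih =>
    rw [Finset.prod_insert ha]
    exact FiO1_polymul (h a (Finset.mem_insert_self a s))
      (fun i => ih (fun j hj => h j (Finset.mem_insert_of_mem hj)) i) i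

lemma FiO1_basisDivisor (x y : ℝ) (i : ℕ) :
    FiO1 ((Lagrange.basisDivisor (x : Hyperreal) (y : Hyperreal)).coeff i) := by
  unfold Lagrange.basisDivisor
  refine FiO1_polymul (FiO1_C ?_) ?_ i
  · have := FiO1_real (x - y)⁻¹
    simpa using this
  · intro j
    rw [Polynomial.coeff_sub, Polynomial.coeff_X, sub_eq_add_neg]
    refine FiO1_add ?_ ?_
    · split_ifs
      · simpa using FiO1_real 1
      · exact FiO1_zero
    · rw [← Polynomial.coeff_neg, ← Polynomial.C_neg]
      exact FiO1_C (by simpa using FiO1_real (-y)) j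

theorem interp (f : Polynomial Hyperreal) (n : ℕ) (hd : f.natDegree < n) (e : Fin n → ℝ)
    (he : Function.Injective e)
    (hfin : ∀ j, ∃ N : ℕ, |f.eval ((e j : ℝ) : Hyperreal)| ≤ (N : Hyperreal)) (i : ℕ) :
    ∃ N : ℕ, |f.coeff i| ≤ (N : Hyperreal) := by
  have hinj : Function.Injective fun j : Fin n => ((e j : ℝ) : Hyperreal) := fun a b hab =>
    he (Hyperreal.coe_eq_coe.1 hab)
  have hdeg : f.degree < ((Finset.univ : Finset (Fin n)).card : ℕ) := by
    rw [Finset.card_univ, Fintype.card_fin]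
    exact lt_of_le_of_lt Polynomial.degree_le_natDegree (by exact_mod_cast hd)
  have key := Lagrange.eq_interpolate_of_eval_eq (s := (Finset.univ : Finset (Fin n)))
    (v := fun j : Fin n => ((e j : ℝ) : Hyperreal)) (f := f)
    (fun j => f.eval ((e j : ℝ) : Hyperreal)) (hinj.injOn) hdeg (fun _ _ => rfl)
  rw [Lagrange.interpolate_apply] at key
  rw [key, Polynomial.finsetSum_coeff]
  refine FiO1_sum _ _ fun j _ => FiO1_polymul (FiO1_C (hfin j)) (fun i => ?_) i
  unfold Lagrange.basis
  exact FiO1_prod _ _ (fun k _ i => FiO1_basisDivisor _ _ i) i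

theorem generic (ι : Type) [Countable ι] (F : ι → Polynomial Hyperreal)
    (hF : ∀ s, ∃ i, ∀ N : ℕ, (N : Hyperreal) < |(F s).coeff i|) :
    ∃ ε : ℝ, 0 < ε ∧ ε < 1 ∧ ∀ s, ∀ N : ℕ, (N : Hyperreal) < |(F s).eval (ε : Hyperreal)| := by
  have hfinite : ∀ s, {ε : ℝ | FiO1 ((F s).eval (ε : Hyperreal))}.Finite := by
    intro s
    by_contra hinf
    have hinf' : {ε : ℝ | FiO1 ((F s).eval (ε : Hyperreal))}.Infinite := hinf
    obtain ⟨i, hi⟩ := hF s
    have emb := hinf'.natEmbedding
    obtain ⟨N, hN⟩ := interp (F s) ((F s).natDegree + 1) (Nat.lt_succ_self _)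
      (fun j => ((emb (j : ℕ)) : ℝ))
      (fun a b hab => Fin.ext (emb.injective (Subtype.ext hab)))
      (fun j => (emb (j : ℕ)).2) i
    exact absurd hN (not_le.2 (hi N))
  have hcount : (⋃ s, {ε : ℝ | FiO1 ((F s).eval (ε : Hyperreal))}).Countable :=
    Set.countable_iUnion fun s => (hfinite s).countable
  have hnot : ¬ (Set.Ioo (0:ℝ) 1).Countable := by
    rw [← Cardinal.le_aleph0_iff_set_countable, Cardinal.mk_Ioo_real one_pos]
    exact not_le.2 Cardinal.aleph0_lt_continuum
  have : ∃ ε ∈ Set.Ioo (0:ℝ) 1, ε ∉ ⋃ s, {ε : ℝ | FiO1 ((F s).eval (ε : Hyperreal))} := by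
    by_contra hcon
    push Not at hcon
    exact hnot (hcount.mono hcon)
  obtain ⟨ε, hε, hne⟩ := this
  refine ⟨ε, hε.1, hε.2, fun s N => ?_⟩
  by_contra hle
  rw [not_lt] at hle
  exact hne (Set.mem_iUnion.2 ⟨s, N, hle⟩)

end Pool.Agent.H54.SO
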