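import Pool.Agent.H54.SO.S1
import Pool.Agent.H54.SO.O1
/-! MP_0e09bd_lc (PI helper54): a new element near `α`.
Index type: the `G : MvPolynomial ℕ ℤ` with `∀ i ∈ G.vars, i < k + 1` and not constant (countable). For such `G` let `p = (spl ℤ k G).map (aeval y)` in `Polynomial Hyperreal`, and
`F G = p.comp (X + C α)` (polynomial in ε). `z = α + ε`: `aeval (update y k z) G = p.eval z = (F G).eval ε` (`spl_eval`). Claim: some coefficient of `F G` is infinite. Let
`n = p.natDegree`; the coefficients `a_i = aeval y ((spl ℤ k G).coeff i)` are polynomials in the first `k` elements (`spl_vars`), so infinite or standard integers (`Inv k y`: if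
`(spl ℤ k G).coeff i` is not a constant its value is infinite; note a nonconstant has infinite hence nonzero value, so `natDegree p = natDegree (spl ℤ k G)`). If `n = 0`: `G` is a nonconstant polynomial in
the first `k` elements, `p = C (aeval y G)`, infinite. If `n ≥ 1`: the coefficient of `F G` at `n` is `a_n`; if infinite, done. Otherwise `a_n = c` is a nonzero integer, and the coefficient at
`n - 1` is `a_(n-1) + n c α` (`Polynomial.taylor` : `taylor_coeff`, or natDegree computations); if it were finite then `NearZ k y α` (integer `n c ≠ 0`, polynomial `-(spl ℤ k G).coeff (n-1)`),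
contradiction. Apply `generic`. `|z - α| = ε ≤ 1`. -/
set_option autoImplicit false
namespace Pool.Agent.H54.SO
open Pool.Agent.H54.SZ

/-- the coefficient below the top one -/
private theorem taylor_coeff_pred (p : Polynomial Hyperreal) (m : ℕ) (hp : p.natDegree ≤ m + 1)
    (α : Hyperreal) : (Polynomial.taylor α p).coeff m = p.coeff m + ((m : Hyperreal) + 1) * p.coeff (m + 1) * α := by
  rw [Polynomial.taylor_coeff, Polynomial.hasseDeriv_apply,
    Polynomial.sum_over_range' _ (by intro i; simp) (m + 2) (by omega), Polynomial.eval_finsetSum,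
    Finset.sum_range_succ, Finset.sum_range_succ]
  have h0 : ∑ x ∈ Finset.range m, Polynomial.eval α
      ((Polynomial.monomial (x - m)) (((x.choose m : ℕ) : Hyperreal) * p.coeff x)) = 0 := by
    refine Finset.sum_eq_zero fun x hx => ?_
    rw [Nat.choose_eq_zero_of_lt (Finset.mem_range.1 hx)]
    simp
  rw [h0]
  simp

private theorem taylor_coeff_top (p : Polynomial Hyperreal) (m : ℕ) (hp : p.natDegree ≤ m)
    (α : Hyperreal) : (Polynomial.taylor α p).coeff m = p.coeff m := by
  rw [Polynomial.taylor_coeff, Polynomial.hasseDeriv_apply,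
    Polynomial.sum_over_range' _ (by intro i; simp) (m + 1) (by omega), Polynomial.eval_finsetSum,
    Finset.sum_range_succ]
  have h0 : ∑ x ∈ Finset.range m, Polynomial.eval α
      ((Polynomial.monomial (x - m)) (((x.choose m : ℕ) : Hyperreal) * p.coeff x)) = 0 := by
    refine Finset.sum_eq_zero fun x hx => ?_
    rw [Nat.choose_eq_zero_of_lt (Finset.mem_range.1 hx)]
    simp
  rw [h0]
  simp

theorem step_alpha (k : ℕ) (y : ℕ → Hyperreal) (h : Inv k y) (α : Hyperreal) (hα : ¬ NearZ k y α) :
    ∃ z : Hyperreal, |z - α| ≤ 1 ∧ Inv (k + 1) (Function.update y k z) := by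
  let ι : Type := {G : MvPolynomial ℕ ℤ // (∀ i ∈ G.vars, i < k + 1) ∧ ∀ c : ℤ, G ≠ MvPolynomial.C c}
  let φ : MvPolynomial ℕ ℤ →+* Hyperreal :=
    (MvPolynomial.aeval y : MvPolynomial ℕ ℤ →ₐ[ℤ] Hyperreal).toRingHom
  have hφC : ∀ c : ℤ, φ (MvPolynomial.C c) = (c : Hyperreal) := by
    intro c
    show MvPolynomial.aeval y (MvPolynomial.C c) = _
    rw [MvPolynomial.aeval_C]
    simp
  let F : ι → Polynomial Hyperreal := fun G => Polynomial.taylor α ((spl ℤ k G.1).map φ)
  have hF : ∀ s : ι, ∃ i, ∀ N : ℕ, (N : Hyperreal) < |(F s).coeff i| := by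
    rintro ⟨G, hG1, hG2⟩
    set P := spl ℤ k G with hP
    have hcoef : ∀ j, ∀ i ∈ (P.coeff j).vars, i < k := by
      intro j i hi
      obtain ⟨h1, h2⟩ := spl_vars ℤ k G j i hi
      have := hG1 i h1
      omega
    have hP0 : P ≠ 0 := by
      intro h0
      have h1 : G = 0 := spl_injective ℤ k (by rw [← hP, h0, map_zero])
      exact hG2 0 (by rw [h1, map_zero])
    set n := P.natDegree with hn
    have hmap : (P.map φ).natDegree ≤ n := Polynomial.natDegree_map_le
    show ∃ i, ∀ N : ℕ, (N : Hyperreal) < |(Polynomial.taylor α (P.map φ)).coeff i|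
    by_cases hc : ∃ c : ℤ, P.coeff n = MvPolynomial.C c
    · obtain ⟨c, hc⟩ := hc
      have hc0 : c ≠ 0 := by
        rintro rfl
        rw [map_zero] at hc
        exact hP0 (Polynomial.leadingCoeff_eq_zero.1 hc)
      rcases Nat.eq_zero_or_pos n with hn0 | hn0
      · exfalso
        have h1 := (spl_const ℤ k G (by rw [← hP, ← hn, hn0])).1
        rw [← hP] at h1
        rw [hn0] at hc
        exact hG2 c (h1.trans hc)
      · obtain ⟨m, hm⟩ : ∃ m, n = m + 1 := ⟨n - 1, by omega⟩
        refine ⟨m, fun N => ?_⟩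
        rw [taylor_coeff_pred _ m (by omega)]
        by_contra hcon
        have hcon' := not_lt.1 hcon
        apply hα
        refine ⟨((m : ℤ) + 1) * c, -P.coeff m, N, mul_ne_zero (by omega) hc0, ?_, ?_⟩
        · rw [MvPolynomial.vars_neg]
          exact hcoef m
        · rw [Polynomial.coeff_map, Polynomial.coeff_map, ← hm, hc, hφC] at hcon'
          have h2 : MvPolynomial.aeval y (-P.coeff m) = - φ (P.coeff m) := by
            rw [map_neg]; rfl
          rw [h2]
          have h3 : (((((m : ℤ) + 1) * c : ℤ)) : Hyperreal) * α - -φ (P.coeff m) =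
              φ (P.coeff m) + ((m : Hyperreal) + 1) * (c : Hyperreal) * α := by
            push_cast; ring
          rw [h3]
          exact hcon'
    · refine ⟨n, fun N => ?_⟩
      rw [taylor_coeff_top _ n hmap, Polynomial.coeff_map]
      exact h (P.coeff n) (hcoef n) (fun c hc' => hc ⟨c, hc'⟩) N
  have hcount : Countable (MvPolynomial ℕ ℤ) := by
    rw [← Cardinal.mk_le_aleph0_iff]
    refine MvPolynomial.cardinalMk_le_max.trans ?_
    simp
  obtain ⟨ε, hε0, hε1, hε⟩ := generic ι F hF
  refine ⟨α + (ε : Hyperreal), ?_, ?_⟩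
  · rw [add_sub_cancel_left]
    have h1 : |((ε : ℝ) : Hyperreal)| = ((|ε| : ℝ) : Hyperreal) := (Hyperreal.coe_abs ε).symm
    rw [h1, abs_of_pos hε0]
    exact_mod_cast hε1.le
  · intro G hG1 hG2 N
    have h1 := hε ⟨G, hG1, hG2⟩ N
    have h2 : (F ⟨G, hG1, hG2⟩).eval (ε : Hyperreal) =
        MvPolynomial.aeval (Function.update y k (α + (ε : Hyperreal))) G := by
      rw [spl_eval]
      show Polynomial.eval _ (Polynomial.taylor α _) = _
      rw [Polynomial.taylor_eval, add_comm]
    rw [h2] at h1
    exact h1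

end Pool.Agent.H54.SO
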