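import Pool.Agent.H54.SO.S1
/-! MP_0e09bd_lc (PI helper54): a new very large element.
`countable_bound`: represent `a s` by sequences `b s : ℕ → ℝ` (ι countable, enumerate by ℕ): `z j = 1 + max` over `s ≤ j` of `b s j`; then `b s j < z j` for `j ≥ s`.
`step_big`: take `z` larger than `|aeval y G|` for all `G : MvPolynomial ℕ ℤ` (countable type). `Inv (k+1)` for `G` with variables `< k + 1`, not constant: `p = (spl ℤ k G).map (aeval y)`, value `p.eval z`
(`spl_eval`). If `natDegree (spl ℤ k G) = 0` then `G` has variables `< k` (`spl_const`) and `Inv k y` applies (the value does not change). Otherwise `n = natDegree ≥ 1`, the leading coefficient `a_n` of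
`spl ℤ k G` is nonzero, so `|aeval y a_n| ≥ 1` (integer or infinite by `Inv k y`), and `|∑_{i<n} a_i(y) z^i| ≤ A z^(n-1)` with `A = ∑ |a_i(y)|`, `|p.eval z| ≥ z^n - A z^(n-1) = z^(n-1) (z - A)`, and `z > A + N`
for every `N` : `A + N ≤ |aeval y H|`... simplest: `z` larger than all finite sums: `2 |a_i(y)| (n+1) < z` each since `2 (n+1) a_i` is also a polynomial, and `z > 2N + 2`, so `A ≤ z / 2` and
`z - A ≥ z / 2 > N`. -/
set_option autoImplicit false
namespace Pool.Agent.H54.SO
open Pool.Agent.H54.SZ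

theorem countable_bound (ι : Type) [Countable ι] (a : ι → Hyperreal) : ∃ z : Hyperreal, ∀ s, a s < z := by
  rcases isEmpty_or_nonempty ι with hι | hι
  · exact ⟨0, fun s => (hι.false s).elim⟩
  · obtain ⟨f, hf⟩ := exists_surjective_nat ι
    have hrep : ∀ n : ℕ, ∃ b : ℕ → ℝ, Hyperreal.ofSeq b = a (f n) := fun n => Quotient.exists_rep (a (f n))
    choose b hb using hrep
    refine ⟨Hyperreal.ofSeq (fun j => 1 + ∑ s ∈ Finset.range (j + 1), |b s j|), ?_⟩
    intro s
    obtain ⟨n, rfl⟩ := hf s
    rw [← hb n]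
    apply Hyperreal.ofSeq_lt_ofSeq.2
    refine Filter.Eventually.filter_mono Nat.hyperfilter_le_atTop ?_
    filter_upwards [Filter.eventually_ge_atTop n] with j hj
    have h1 : |b n j| ≤ ∑ s ∈ Finset.range (j + 1), |b s j| :=
      Finset.single_le_sum (f := fun s => |b s j|) (fun i _ => abs_nonneg _) (Finset.mem_range.2 (by omega))
    have h2 := le_abs_self (b n j)
    linarith

theorem countable_mv_O3 : Countable (MvPolynomial ℕ ℤ) := by
  rw [← Cardinal.mk_le_aleph0_iff]
  refine le_trans MvPolynomial.cardinalMk_le_max ?_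
  simp

theorem step_big (k : ℕ) (y : ℕ → Hyperreal) (h : Inv k y) :
    ∃ z : Hyperreal, (∀ G : MvPolynomial ℕ ℤ, |MvPolynomial.aeval y G| < z) ∧
      Inv (k + 1) (Function.update y k z) := by
  have hcount := countable_mv_O3
  obtain ⟨z, hz⟩ := countable_bound (MvPolynomial ℕ ℤ) (fun G => |MvPolynomial.aeval y G|)
  refine ⟨z, hz, ?_⟩
  have hzN : ∀ N : ℕ, (N : Hyperreal) < z := by
    intro N
    have h1 := hz (MvPolynomial.C (N : ℤ))
    simpa using h1
  have hz1 : 1 ≤ z := by
    have h1 := hzN 1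
    rw [Nat.cast_one] at h1
    exact h1.le
  intro G hG hc N
  rw [spl_eval ℤ k Hyperreal y z G]
  by_cases hn : (spl ℤ k G).natDegree = 0
  · obtain ⟨h1, h2⟩ := spl_const ℤ k G hn
    have h3 : spl ℤ k G = Polynomial.C G := spl_not ℤ k G h2
    rw [h3, Polynomial.map_C, Polynomial.eval_C]
    refine h G ?_ hc N
    intro i hi
    have h4 := hG i hi
    have h5 : i ≠ k := by
      rintro rfl
      exact h2 hi
    omega
  · obtain ⟨n, hn'⟩ := Nat.exists_eq_succ_of_ne_zero hn
    rw [Nat.succ_eq_add_one] at hn'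
    have hlead : (spl ℤ k G).coeff (n + 1) ≠ 0 := by
      rw [← hn']
      apply Polynomial.leadingCoeff_ne_zero.2
      intro h0
      rw [h0] at hn
      simp at hn
    have hvars : ∀ j, ∀ i ∈ ((spl ℤ k G).coeff j).vars, i < k := by
      intro j i hi
      obtain ⟨h1, h2⟩ := spl_vars ℤ k G j i hi
      have h3 := hG i h1
      omega
    have hone : 1 ≤ |MvPolynomial.aeval y ((spl ℤ k G).coeff (n + 1))| := by
      by_cases hcc : ∃ c : ℤ, (spl ℤ k G).coeff (n + 1) = MvPolynomial.C c
      · obtain ⟨c, hcc⟩ := hcc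
        have hc0 : c ≠ 0 := by
          rintro rfl
          apply hlead
          rw [hcc, map_zero]
        have h5 : (1 : ℤ) ≤ |c| := Int.one_le_abs hc0
        have h6 : ((1 : ℤ) : Hyperreal) ≤ ((|c| : ℤ) : Hyperreal) := Int.cast_le.2 h5
        rw [hcc]
        simpa using h6
      · have h5 := h _ (hvars (n + 1)) (fun c hcc' => hcc ⟨c, hcc'⟩) 1
        rw [Nat.cast_one] at h5
        exact h5.le
    obtain ⟨S, hS⟩ : ∃ S, S = ∑ i ∈ Finset.range (n + 1), |MvPolynomial.aeval y ((spl ℤ k G).coeff i)| := ⟨_, rfl⟩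
    have hnpos : (0 : Hyperreal) < (n : Hyperreal) + 1 := by
      have h1 : (0 : Hyperreal) ≤ (n : Hyperreal) := Nat.cast_nonneg n
      linarith
    have hS0 : 0 ≤ S := by
      rw [hS]
      exact Finset.sum_nonneg (fun i _ => abs_nonneg _)
    have hS2 : 2 * S ≤ z := by
      have h1 : ∀ i ∈ Finset.range (n + 1), (2 * ((n : Hyperreal) + 1)) * |MvPolynomial.aeval y ((spl ℤ k G).coeff i)| ≤ z := by
        intro i _
        have h2 := hz (MvPolynomial.C ((2 * (n + 1) : ℕ) : ℤ) * (spl ℤ k G).coeff i)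
        have h3 : MvPolynomial.aeval y (MvPolynomial.C ((2 * (n + 1) : ℕ) : ℤ) * (spl ℤ k G).coeff i) =
            (2 * ((n : Hyperreal) + 1)) * MvPolynomial.aeval y ((spl ℤ k G).coeff i) := by
          rw [map_mul, MvPolynomial.aeval_C]
          simp
        rw [h3, abs_mul, abs_of_nonneg (by linarith)] at h2
        exact h2.le
      have h4 := Finset.sum_le_sum h1
      rw [← Finset.mul_sum, ← hS, Finset.sum_const, Finset.card_range, nsmul_eq_mul] at h4
      push_cast at h4
      have h5 : ((n : Hyperreal) + 1) * (2 * S) ≤ ((n : Hyperreal) + 1) * z := by linarith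
      exact le_of_mul_le_mul_left h5 hnpos
    have hval : ((spl ℤ k G).map (MvPolynomial.aeval y : MvPolynomial ℕ ℤ →ₐ[ℤ] Hyperreal).toRingHom).eval z =
        (∑ i ∈ Finset.range (n + 1), MvPolynomial.aeval y ((spl ℤ k G).coeff i) * z ^ i) +
          MvPolynomial.aeval y ((spl ℤ k G).coeff (n + 1)) * z ^ (n + 1) := by
      rw [Polynomial.eval_map, Polynomial.eval₂_eq_sum_range, hn', Finset.sum_range_succ]
      rfl
    have hE : |∑ i ∈ Finset.range (n + 1), MvPolynomial.aeval y ((spl ℤ k G).coeff i) * z ^ i| ≤ S * z ^ n := by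
      refine le_trans (Finset.abs_sum_le_sum_abs _ _) ?_
      rw [hS, Finset.sum_mul]
      apply Finset.sum_le_sum
      intro i hi
      have hi' : i ≤ n := by
        have := Finset.mem_range.1 hi
        omega
      rw [abs_mul]
      apply mul_le_mul_of_nonneg_left _ (abs_nonneg _)
      rw [abs_of_nonneg (pow_nonneg (by linarith) i)]
      exact pow_le_pow_right₀ hz1 hi'
    have hzn : 1 ≤ z ^ n := one_le_pow₀ hz1
    have hL : z * z ^ n ≤ |MvPolynomial.aeval y ((spl ℤ k G).coeff (n + 1)) * z ^ (n + 1)| := by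
      rw [abs_mul, abs_of_nonneg (pow_nonneg (by linarith : (0 : Hyperreal) ≤ z) (n + 1)), pow_succ']
      have h1 : 0 ≤ z * z ^ n := mul_nonneg (by linarith) (by linarith)
      have h2 := mul_le_mul_of_nonneg_right hone h1
      rw [one_mul] at h2
      exact h2
    rw [hval]
    have hT : |MvPolynomial.aeval y ((spl ℤ k G).coeff (n + 1)) * z ^ (n + 1)| ≤
        |(∑ i ∈ Finset.range (n + 1), MvPolynomial.aeval y ((spl ℤ k G).coeff i) * z ^ i) +
          MvPolynomial.aeval y ((spl ℤ k G).coeff (n + 1)) * z ^ (n + 1)| +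
        |∑ i ∈ Finset.range (n + 1), MvPolynomial.aeval y ((spl ℤ k G).coeff i) * z ^ i| := by
      have h1 := abs_sub ((∑ i ∈ Finset.range (n + 1), MvPolynomial.aeval y ((spl ℤ k G).coeff i) * z ^ i) +
          MvPolynomial.aeval y ((spl ℤ k G).coeff (n + 1)) * z ^ (n + 1))
        (∑ i ∈ Finset.range (n + 1), MvPolynomial.aeval y ((spl ℤ k G).coeff i) * z ^ i)
      rw [add_sub_cancel_left] at h1
      exact h1
    have hfin : z - S ≤ (z - S) * z ^ n := by
      have h1 : 0 ≤ z - S := by linarith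
      have h2 := mul_le_mul_of_nonneg_left hzn h1
      rw [mul_one] at h2
      exact h2
    have h2N := hzN (2 * N)
    push_cast at h2N
    have hexp : (z - S) * z ^ n = z * z ^ n - S * z ^ n := by ring
    rw [hexp] at hfin
    linarith

end Pool.Agent.H54.SO
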