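import Pool.Agent.H54.SO.O2
import Pool.Agent.H54.SO.O3
/-! MP_0e09bd_lc (PI helper54): the infinite sequence. Recursion: state = `(k, y)` with `Inv k y` and `y i = 0` for `i ≥ k` (start: `y = 0`, `Inv 0 y` holds because a polynomial without variables is constant:
`MvPolynomial.vars_eq_empty...`, `MvPolynomial.eq_C_of_isEmpty` style; e.g. `G = C (coeff 0 G)`). Even stage `k`: `y_k = z` from `step_big`. Odd stage `k`: a surjection `code` from ℕ onto `Polynomial (MvPolynomial ℕ ℤ) × ℕ` in which every value occurs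
infinitely often (`fun s => e s.unpair.1`); for the code `(P, j)` of stage `k` let `α` = the `j`-th element of the list `(P.map (aeval y)).roots.toList` (default 0); if `NearZ k y α` take `z` from `step_big`, else from `step_alpha`. The final `y` is the union; `aeval` of `G`
depends only on the values at `G.vars` (`MvPolynomial.eval₂Hom_congr'`, `MvPolynomial.aeval_eq..of vars`).
(Y1): all variables of `G` are `< k` for some `k`. (Y2): `α` a root of `P.map (aeval y) ≠ 0`, so it is in `roots`; all variables of all coefficients of `P` are `< k0`; for every `k ≥ k0` the list of roots of `P.map (aeval y_k)` is the same; there is an odd stage `k ≥ k0` with code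
`(P, j)`, `j` the position of `α`: afterwards `NearZ (k+1) y α` (in the second case `|1 * α - y_k| ≤ 1`). (Y3): `G` has variables `< K`, for `2k ≥ K` the element `y_{2k}` is larger than `|aeval y G|`. -/
set_option autoImplicit false
namespace Pool.Agent.H54.SO
open Pool.Agent.H54.SZ

theorem O4_aeval_congr {y y' : ℕ → Hyperreal} {G : MvPolynomial ℕ ℤ} (h : ∀ i ∈ G.vars, y i = y' i) :
    MvPolynomial.aeval y G = MvPolynomial.aeval y' G := by
  have h1 := MvPolynomial.hom_congr_vars (f₁ := (MvPolynomial.aeval y : MvPolynomial ℕ ℤ →ₐ[ℤ] Hyperreal).toRingHom)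
    (f₂ := (MvPolynomial.aeval y' : MvPolynomial ℕ ℤ →ₐ[ℤ] Hyperreal).toRingHom) (p₁ := G) (p₂ := G) (RingHom.ext_int _ _) (by
      intro i hi _
      simpa using h i hi) rfl
  exact h1

theorem O4_bound (G : MvPolynomial ℕ ℤ) : ∃ K : ℕ, ∀ i ∈ G.vars, i < K := by
  refine ⟨G.vars.sup id + 1, fun i hi => ?_⟩
  exact Nat.lt_succ_of_le (Finset.le_sup (f := id) hi)

theorem O4_boundP (P : Polynomial (MvPolynomial ℕ ℤ)) : ∃ K : ℕ, ∀ n, ∀ i ∈ (P.coeff n).vars, i < K := by
  choose K hK using fun n => O4_bound (P.coeff n)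
  refine ⟨P.support.sup K, fun n i hi => ?_⟩
  by_cases hn : n ∈ P.support
  · exact (hK n i hi).trans_le (Finset.le_sup hn)
  · rw [Polynomial.notMem_support_iff.1 hn] at hi
    simp at hi

theorem O4_countable : Countable (Polynomial (MvPolynomial ℕ ℤ)) := by
  have h1 : Cardinal.mk (MvPolynomial ℕ ℤ) ≤ Cardinal.aleph0 := by
    simp
  rw [← Cardinal.mk_le_aleph0_iff]
  refine Polynomial.cardinalMk_le_max.trans ?_
  exact max_le h1 le_rfl

theorem exists_y : ∃ y : ℕ → Hyperreal,
    (∀ G : MvPolynomial ℕ ℤ, (∀ c : ℤ, G ≠ MvPolynomial.C c) →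
      ∀ N : ℕ, (N : Hyperreal) < |MvPolynomial.aeval y G|) ∧
    (∀ α : Hyperreal, (∃ P : Polynomial (MvPolynomial ℕ ℤ),
        P.map (MvPolynomial.aeval y : MvPolynomial ℕ ℤ →ₐ[ℤ] Hyperreal).toRingHom ≠ 0 ∧
        (P.map (MvPolynomial.aeval y : MvPolynomial ℕ ℤ →ₐ[ℤ] Hyperreal).toRingHom).eval α = 0) →
      ∃ (n : ℤ) (G : MvPolynomial ℕ ℤ) (N : ℕ), n ≠ 0 ∧
        |(n : Hyperreal) * α - MvPolynomial.aeval y G| ≤ (N : Hyperreal)) ∧
    (∀ G : MvPolynomial ℕ ℤ, ∃ k0 : ℕ, ∀ k : ℕ, k0 ≤ k → MvPolynomial.aeval y G < y (2 * k)) := by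
  classical
  have := O4_countable
  obtain ⟨e, he⟩ : ∃ e : ℕ → Polynomial (MvPolynomial ℕ ℤ) × ℕ, Function.Surjective e :=
    exists_surjective_nat _
  obtain ⟨root, hroot⟩ : ∃ root : ℕ → (ℕ → Hyperreal) → Hyperreal, ∀ s y, root s y =
      (((e s.unpair.1).1.map (MvPolynomial.aeval y : MvPolynomial ℕ ℤ →ₐ[ℤ] Hyperreal).toRingHom).roots.toList.getD
        (e s.unpair.1).2 0) := ⟨_, fun _ _ => rfl⟩
  have step : ∀ (k : ℕ) (y : ℕ → Hyperreal), Inv k y → ∃ z : Hyperreal,
      Inv (k + 1) (Function.update y k z) ∧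
      (∀ s, k = 2 * s → ∀ G : MvPolynomial ℕ ℤ, |MvPolynomial.aeval y G| < z) ∧
      (∀ s, k = 2 * s + 1 → NearZ k y (root s y) ∨ |z - root s y| ≤ 1) := by
    intro k y h
    rcases Nat.even_or_odd' k with ⟨s, hs | hs⟩
    · obtain ⟨z, hz1, hz2⟩ := step_big k y h
      exact ⟨z, hz2, fun _ _ => hz1, fun s' hs' => by omega⟩
    · by_cases hn : NearZ k y (root s y)
      · obtain ⟨z, hz1, hz2⟩ := step_big k y h
        refine ⟨z, hz2, fun _ _ => hz1, fun s' hs' => ?_⟩
        have : s' = s := by omega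
        subst this
        exact Or.inl hn
      · obtain ⟨z, hz1, hz2⟩ := step_alpha k y h (root s y) hn
        refine ⟨z, hz2, fun s' hs' => by omega, fun s' hs' => ?_⟩
        have : s' = s := by omega
        subst this
        exact Or.inr hz1
  choose z hz1 hz2 hz3 using step
  have hInv0 : Inv 0 (fun _ => 0) := by
    intro G hG hc
    exfalso
    have hv : G.vars = ∅ := by
      apply Finset.eq_empty_of_forall_notMem
      intro i hi
      exact absurd (hG i hi) (Nat.not_lt_zero _)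
    obtain ⟨c, hcc⟩ : ∃ c : ℤ, G = MvPolynomial.C c := by
      refine ⟨MvPolynomial.coeff 0 G, ?_⟩
      exact (MvPolynomial.vars_eq_empty_iff_eq_C).1 hv
    exact hc c hcc
  let Y : (k : ℕ) → {y : ℕ → Hyperreal // Inv k y} := fun k =>
    Nat.rec (motive := fun k => {y : ℕ → Hyperreal // Inv k y}) ⟨fun _ => 0, hInv0⟩
      (fun k y => ⟨Function.update y.1 k (z k y.1 y.2), hz1 k y.1 y.2⟩) k
  have hY : ∀ k, (Y (k + 1)).1 = Function.update (Y k).1 k (z k (Y k).1 (Y k).2) := fun k => rfl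
  let y : ℕ → Hyperreal := fun i => (Y (i + 1)).1 i
  have hyz : ∀ k, y k = z k (Y k).1 (Y k).2 := by
    intro k
    change (Y (k + 1)).1 k = _
    rw [hY, Function.update_self]
  have hag : ∀ k, ∀ i < k, (Y k).1 i = y i := by
    intro k
    induction k with
    | zero => intro i hi; exact absurd hi (Nat.not_lt_zero _)
    | succ k ih =>
      intro i hi
      rcases Nat.lt_succ_iff_lt_or_eq.1 hi with h | h
      · rw [hY, Function.update_of_ne h.ne, ih i h]
      · subst h
        rfl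
  have hae : ∀ k, ∀ G : MvPolynomial ℕ ℤ, (∀ i ∈ G.vars, i < k) →
      MvPolynomial.aeval (Y k).1 G = MvPolynomial.aeval y G := by
    intro k G hG
    exact O4_aeval_congr fun i hi => hag k i (hG i hi)
  refine ⟨y, ?_, ?_, ?_⟩
  · intro G hG N
    obtain ⟨K, hK⟩ := O4_bound G
    have h := (Y K).2 G hK hG N
    rwa [hae K G hK] at h
  · rintro α ⟨P, hP0, hPα⟩
    obtain ⟨K, hK⟩ := O4_boundP P
    have hmem : α ∈ (P.map (MvPolynomial.aeval y : MvPolynomial ℕ ℤ →ₐ[ℤ] Hyperreal).toRingHom).roots :=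
      (Polynomial.mem_roots hP0).2 hPα
    rw [← Multiset.mem_toList] at hmem
    obtain ⟨j, hj, hjα⟩ := List.getElem_of_mem hmem
    obtain ⟨a, ha⟩ := he (P, j)
    let s := Nat.pair a K
    have hsK : K ≤ s := Nat.right_le_pair a K
    have hes : e s.unpair.1 = (P, j) := by
      change e (Nat.unpair (Nat.pair a K)).1 = (P, j)
      rw [Nat.unpair_pair]
      exact ha
    have hmap : P.map (MvPolynomial.aeval (Y (2 * s + 1)).1 : MvPolynomial ℕ ℤ →ₐ[ℤ] Hyperreal).toRingHom =
        P.map (MvPolynomial.aeval y : MvPolynomial ℕ ℤ →ₐ[ℤ] Hyperreal).toRingHom := by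
      ext n
      rw [Polynomial.coeff_map, Polynomial.coeff_map]
      exact hae (2 * s + 1) (P.coeff n) fun i hi => by
        have := hK n i hi
        omega
    have hα : root s (Y (2 * s + 1)).1 = α := by
      rw [hroot, hes]
      simp only
      rw [hmap, List.getD_eq_getElem _ _ hj]
      exact hjα
    rcases hz3 (2 * s + 1) (Y (2 * s + 1)).1 (Y (2 * s + 1)).2 s rfl with h | h
    · rw [hα] at h
      obtain ⟨n, G, N, h1, h2, h3⟩ := h
      rw [hae _ G h2] at h3
      exact ⟨n, G, N, h1, h3⟩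
    · rw [hα] at h
      refine ⟨1, MvPolynomial.X (2 * s + 1), 1, one_ne_zero, ?_⟩
      rw [MvPolynomial.aeval_X, hyz, Int.cast_one, one_mul, abs_sub_comm, Nat.cast_one]
      exact h
  · intro G
    obtain ⟨K, hK⟩ := O4_bound G
    refine ⟨K, fun k hk => ?_⟩
    have h := hz2 (2 * k) (Y (2 * k)).1 (Y (2 * k)).2 k rfl G
    rw [hae (2 * k) G fun i hi => by have := hK i hi; omega] at h
    rw [hyz]
    exact (le_abs_self _).trans_lt h

end Pool.Agent.H54.SO
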