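import Pool.Agent.H54.SO.O0
/-! MP_0e09bd_lc (PI helper54): intermediate value theorem for polynomials over the hyperreals, by representatives. -/
set_option autoImplicit false
namespace Pool.Agent.H54.SO

/-- the germ of a sequence, as a ring homomorphism -/
noncomputable def O5_hom : (ℕ → ℝ) →+* Hyperreal where
  toFun := Hyperreal.ofSeq
  map_one' := rfl
  map_mul' _ _ := rfl
  map_zero' := rfl
  map_add' _ _ := rfl

theorem O5_eval (f : Polynomial Hyperreal) (c : ℕ → ℕ → ℝ) (hc : ∀ i, Hyperreal.ofSeq (c i) = f.coeff i) (x : ℕ → ℝ) :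
    f.eval (Hyperreal.ofSeq x) =
      Hyperreal.ofSeq (fun j => ∑ i ∈ Finset.range (f.natDegree + 1), c i j * x j ^ i) := by
  rw [Polynomial.eval_eq_sum_range]
  have h1 : (fun j => ∑ i ∈ Finset.range (f.natDegree + 1), c i j * x j ^ i) =
      ∑ i ∈ Finset.range (f.natDegree + 1), c i * x ^ i := by
    funext j
    simp only [Finset.sum_apply, Pi.mul_apply, Pi.pow_apply]
  rw [h1]
  show _ = O5_hom (∑ i ∈ Finset.range (f.natDegree + 1), c i * x ^ i)
  rw [map_sum]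
  refine Finset.sum_congr rfl fun i _ => ?_
  rw [map_mul, map_pow, ← hc i]
  rfl

theorem ivt (f : Polynomial Hyperreal) (a b : Hyperreal) (hab : a ≤ b) (h1 : f.eval a < 0)
    (h2 : 0 ≤ f.eval b) : ∃ c : Hyperreal, a ≤ c ∧ c ≤ b ∧ f.eval c = 0 := by
  obtain ⟨α, rfl⟩ := Hyperreal.ofSeq_surjective a
  obtain ⟨β, rfl⟩ := Hyperreal.ofSeq_surjective b
  choose c hc using fun i => Hyperreal.ofSeq_surjective (f.coeff i)
  rw [O5_eval f c hc] at h1 h2
  have h0 : (0 : Hyperreal) = Hyperreal.ofSeq (fun _ => 0) := rfl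
  rw [h0] at h1 h2
  rw [Hyperreal.ofSeq_lt_ofSeq] at h1
  rw [Hyperreal.ofSeq_le_ofSeq] at h2 hab
  have h3 : ∀ j : ℕ, ∃ t : ℝ, (α j ≤ β j → ∑ i ∈ Finset.range (f.natDegree + 1), c i j * α j ^ i < 0 →
      0 ≤ ∑ i ∈ Finset.range (f.natDegree + 1), c i j * β j ^ i →
      α j ≤ t ∧ t ≤ β j ∧ ∑ i ∈ Finset.range (f.natDegree + 1), c i j * t ^ i = 0) := by
    intro j
    by_cases h : α j ≤ β j ∧ ∑ i ∈ Finset.range (f.natDegree + 1), c i j * α j ^ i < 0 ∧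
      0 ≤ ∑ i ∈ Finset.range (f.natDegree + 1), c i j * β j ^ i
    · obtain ⟨p1, p2, p3⟩ := h
      have hcont : Continuous (fun t : ℝ => ∑ i ∈ Finset.range (f.natDegree + 1), c i j * t ^ i) := by fun_prop
      obtain ⟨t, ht, ht0⟩ := intermediate_value_Icc p1 hcont.continuousOn ⟨p2.le, p3⟩
      exact ⟨t, fun _ _ _ => ⟨ht.1, ht.2, ht0⟩⟩
    · exact ⟨0, fun q1 q2 q3 => absurd ⟨q1, q2, q3⟩ h⟩
  choose t ht using h3
  refine ⟨Hyperreal.ofSeq t, ?_, ?_, ?_⟩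
  · rw [Hyperreal.ofSeq_le_ofSeq]
    filter_upwards [hab, h1, h2] with j p1 p2 p3
    exact (ht j p1 p2 p3).1
  · rw [Hyperreal.ofSeq_le_ofSeq]
    filter_upwards [hab, h1, h2] with j p1 p2 p3
    exact (ht j p1 p2 p3).2.1
  · rw [O5_eval f c hc, h0]
    refine le_antisymm ?_ ?_ <;> rw [Hyperreal.ofSeq_le_ofSeq] <;> filter_upwards [hab, h1, h2] with j p1 p2 p3
    · exact (ht j p1 p2 p3).2.2.le
    · exact (ht j p1 p2 p3).2.2.ge

end Pool.Agent.H54.SO
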