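import Pool.Agent.H54.SO.O0
/-! MP_0e09bd_lc (PI helper54): the ring, open induction version. -/
set_option autoImplicit false
namespace Pool.Agent.H54.SO
open Pool.Agent.H54.SZ

/-- elements `a` with `n a = G(y)` and `n` dividing `G(w)` in the ultrapower of the integers -/
def RR (y : ℕ → Hyperreal) (w : ℕ → K) : Subring Hyperreal where
  carrier := {a | ∃ (n : ℤ) (G : MvPolynomial ℕ ℤ), n ≠ 0 ∧
    (n : Hyperreal) * a = MvPolynomial.aeval y G ∧ (n : K) ∣ MvPolynomial.aeval w G}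
  mul_mem' := by
    rintro a b ⟨n, G, hn, hG, hG'⟩ ⟨m, H, hm, hH, hH'⟩
    refine ⟨n * m, G * H, mul_ne_zero hn hm, ?_, ?_⟩
    · rw [map_mul, ← hG, ← hH]; push_cast; ring
    · rw [map_mul]; push_cast; exact mul_dvd_mul hG' hH'
  one_mem' := ⟨1, 1, one_ne_zero, by simp, by simp⟩
  add_mem' := by
    rintro a b ⟨n, G, hn, hG, hG'⟩ ⟨m, H, hm, hH, hH'⟩
    refine ⟨n * m, (m : MvPolynomial ℕ ℤ) * G + (n : MvPolynomial ℕ ℤ) * H, mul_ne_zero hn hm, ?_, ?_⟩
    · rw [map_add, map_mul, map_mul, ← hG, ← hH]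
      simp only [map_intCast]
      push_cast; ring
    · rw [map_add, map_mul, map_mul]
      simp only [map_intCast]
      push_cast
      apply dvd_add
      · rw [mul_comm (n : K)]; exact mul_dvd_mul_left _ hG'
      · exact mul_dvd_mul_left _ hH'
  zero_mem' := ⟨1, 0, one_ne_zero, by simp, by simp⟩
  neg_mem' := by
    rintro a ⟨n, G, hn, hG, hG'⟩
    refine ⟨n, -G, hn, ?_, ?_⟩
    · rw [map_neg, ← hG]; ring
    · rw [map_neg]; exact (dvd_neg).2 hG'

theorem aeval_mem' (y : ℕ → Hyperreal) (w : ℕ → K) (G : MvPolynomial ℕ ℤ) :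
    MvPolynomial.aeval y G ∈ RR y w := ⟨1, G, one_ne_zero, by simp, by simp⟩

/-- (Y1): nonconstant polynomials are infinite -/
def Y1 (y : ℕ → Hyperreal) : Prop :=
  ∀ G : MvPolynomial ℕ ℤ, (∀ c : ℤ, G ≠ MvPolynomial.C c) →
      ∀ N : ℕ, (N : Hyperreal) < |MvPolynomial.aeval y G|

theorem Y1.inj {y : ℕ → Hyperreal} (hy : Y1 y) (G H : MvPolynomial ℕ ℤ)
    (h : MvPolynomial.aeval y G = MvPolynomial.aeval y H) : G = H := by
  by_contra hne
  have h1 : MvPolynomial.aeval y (G - H) = 0 := by rw [map_sub, h, sub_self]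
  by_cases hc : ∃ c : ℤ, G - H = MvPolynomial.C c
  · obtain ⟨c, hc⟩ := hc
    rw [hc] at h1
    have h2 : ((c : ℤ) : Hyperreal) = 0 := by simpa using h1
    have h3 : c = 0 := by exact_mod_cast h2
    rw [h3] at hc
    apply hne
    rw [map_zero] at hc
    exact sub_eq_zero.1 hc
  · push Not at hc
    have := hy (G - H) hc 0
    rw [h1] at this
    simp at this

/-- the residue of the ring modulo a nonzero integer -/
theorem RR_residue (y : ℕ → Hyperreal) (w : ℕ → K) (G : MvPolynomial ℕ ℤ) (n : ℤ) (hn : n ≠ 0) :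
    ∃ k : ℤ, 0 ≤ k ∧ k < |n| ∧ (n : K) ∣ MvPolynomial.aeval w (G - MvPolynomial.C k) := by
  have habs : (0 : K) < ((|n| : ℤ) : K) := by exact_mod_cast abs_pos.2 hn
  obtain ⟨q, r, h1, h2, h3⟩ := K_div (MvPolynomial.aeval w G) ((|n| : ℤ) : K) habs
  obtain ⟨k, hk⟩ := std_of_bdd r |n| (by rw [abs_of_nonneg h2]; exact h3.le)
  rw [hk] at h1 h2 h3
  refine ⟨k, by exact_mod_cast h2, by exact_mod_cast h3, ?_⟩
  have h4 : MvPolynomial.aeval w (G - MvPolynomial.C k) = ((|n| : ℤ) : K) * q := by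
    rw [map_sub, h1]; simp
  rw [h4]
  apply Dvd.dvd.mul_right
  rcases abs_choice n with h | h
  · rw [h]
  · rw [h]; push_cast; exact (dvd_neg).2 (dvd_refl _)

end Pool.Agent.H54.SO
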