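import Pool.Agent.H54.SO.P0
/-! MP_0e09bd_lc (PI helper54): irreducible elements of the ring (compare SZ/E5.lean, same proof).
`m` is not a unit: `m u = 1` and `RR_std`-like: `|m|` infinite since `G` is not constant (`MQ G` irreducible), `u` nonzero in the ring: `n' u = H(y)`, `|n' u| ≥ 1`... (if `H` is constant nonzero `|H(y)| ≥ 1`, else infinite), so `|m u|` infinite or: `C (n') = G H` by `Y1.inj`,
impossible by degrees / since `MQ G` is not a unit. If `m = u v`: `n u = A(y)`, `k v = B(y)`, `C (n k) * G = A B` (`Y1.inj`), over the rationals `MQ G` is associated to `MQ A * MQ B`, irreducible, so one factor, say `MQ A`, is a unit, so `A = C c` (`MvPolynomial.isUnit_iff_eq_C_of_isReduced`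
or totalDegree), `c ≠ 0`; `n u = c` with `n ∣ c` in the ultrapower (`cast_dvd`), so `u = k0` is a nonzero integer. If `k0` is not `1, -1` a prime `p ∣ k0`: `m = k0 v` with `v` in the ring: `n' v = B'(y)`, `n' ∣ B'(w)`; `C n' * G = C k0 * B'` (`Y1.inj`), so
`n' G(w) = k0 B'(w) = k0 n' b`, `G(w) = k0 b`, `p ∣ G(w)`, contradiction to `hp`. -/
set_option autoImplicit false
namespace Pool.Agent.H54.SO
open Pool.Agent.H54.SZ

/-- an integer polynomial that is a unit over the rationals is a nonzero constant -/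
theorem P2_const_of_unit (A : MvPolynomial ℕ ℤ) (h : IsUnit (MQ A)) : ∃ c : ℤ, c ≠ 0 ∧ A = MvPolynomial.C c := by
  obtain ⟨r, hr, hA⟩ := MvPolynomial.isUnit_iff_eq_C_of_isReduced.mp h
  refine ⟨A.coeff 0, ?_, ?_⟩
  · intro h0
    have h1 : (MQ A).coeff 0 = r := by rw [hA, MvPolynomial.coeff_zero_C]
    rw [MvPolynomial.coeff_map, h0, map_zero] at h1
    exact hr.ne_zero h1.symm
  · apply MvPolynomial.ext
    intro k
    by_cases hk : k = 0
    · subst hk
      rw [MvPolynomial.coeff_zero_C]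
    · have h1 : (MQ A).coeff k = 0 := by
        rw [hA, MvPolynomial.coeff_C, if_neg (Ne.symm hk)]
      rw [MvPolynomial.coeff_map] at h1
      have h2 : A.coeff k = 0 := by
        have : ((A.coeff k : ℤ) : ℚ) = 0 := h1
        exact_mod_cast this
      rw [h2, MvPolynomial.coeff_C, if_neg (Ne.symm hk)]

theorem P2_aeval_C {S : Type} [CommRing S] (y : ℕ → S) (c : ℤ) :
    MvPolynomial.aeval y (MvPolynomial.C c : MvPolynomial ℕ ℤ) = (c : S) := by
  rw [MvPolynomial.aeval_C]
  simp

theorem P2_unit_aux (y : ℕ → Hyperreal) (w : ℕ → K) (hy : Y1 y) (G : MvPolynomial ℕ ℤ)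
    (hp : ∀ p : ℕ, p.Prime → ¬ (p : K) ∣ MvPolynomial.aeval w G)
    (m u v : RR y w) (hm : (m : Hyperreal) = MvPolynomial.aeval y G)
    (hmu : (m : Hyperreal) = (u : Hyperreal) * (v : Hyperreal)) (n : ℤ) (A : MvPolynomial ℕ ℤ) (hn : n ≠ 0)
    (hA : (n : Hyperreal) * (u : Hyperreal) = MvPolynomial.aeval y A)
    (hA' : (n : K) ∣ MvPolynomial.aeval w A) (hu : IsUnit (MQ A)) : IsUnit u := by
  obtain ⟨c, hc, rfl⟩ := P2_const_of_unit A hu
  have h1 : (n : K) ∣ (c : K) := by simpa using hA'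
  rw [cast_dvd] at h1
  obtain ⟨k, rfl⟩ := h1
  have hnH : (n : Hyperreal) ≠ 0 := by exact_mod_cast hn
  have h2 : (u : Hyperreal) = (k : Hyperreal) := by
    apply mul_left_cancel₀ hnH
    rw [hA]; simp
  by_cases hk1 : k.natAbs = 1
  · have h3 : k * k = 1 := by
      rcases Int.natAbs_eq_iff.1 hk1 with h4 | h4
      · rw [h4]; rfl
      · rw [h4]; rfl
    refine IsUnit.of_mul_eq_one u (Subtype.ext ?_)
    show (u : Hyperreal) * (u : Hyperreal) = 1
    rw [h2, ← Int.cast_mul, h3, Int.cast_one]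
  · exfalso
    obtain ⟨p, hpp, hpk⟩ := Nat.exists_prime_and_dvd hk1
    obtain ⟨n', B, hn', hB, b, hb⟩ := v.2
    have h3 : MvPolynomial.C n' * G = MvPolynomial.C k * B := by
      apply hy.inj
      rw [map_mul, map_mul, ← hm, ← hB, hmu, h2, P2_aeval_C, P2_aeval_C]
      ring
    have h4 := congrArg (MvPolynomial.aeval w) h3
    rw [map_mul, map_mul, hb, P2_aeval_C, P2_aeval_C] at h4
    have hnK : (n' : K) ≠ 0 := by exact_mod_cast hn'
    have h5 : MvPolynomial.aeval w G = (k : K) * b := by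
      apply mul_left_cancel₀ hnK
      rw [h4]; ring
    apply hp p hpp
    obtain ⟨t, ht⟩ := Int.natCast_dvd.2 hpk
    rw [h5, ht]
    push_cast
    exact ⟨(t : K) * b, by ring⟩

theorem RR_irr (y : ℕ → Hyperreal) (w : ℕ → K) (hy : Y1 y) (G : MvPolynomial ℕ ℤ)
    (hG : Irreducible (MQ G)) (hp : ∀ p : ℕ, p.Prime → ¬ (p : K) ∣ MvPolynomial.aeval w G)
    (m : RR y w) (hm : (m : Hyperreal) = MvPolynomial.aeval y G) : Irreducible m := by
  have hC : ∀ c : ℤ, c ≠ 0 → IsUnit (MQ (MvPolynomial.C c)) := by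
    intro c hc
    rw [MQ, MvPolynomial.map_C]
    apply IsUnit.map
    rw [isUnit_iff_ne_zero]
    simpa using hc
  refine irreducible_iff.2 ⟨?_, ?_⟩
  · intro hu
    obtain ⟨u, hmu⟩ := hu.exists_right_inv
    have h1 : (m : Hyperreal) * (u : Hyperreal) = 1 := by
      have := congrArg (fun z : RR y w => (z : Hyperreal)) hmu
      exact this
    obtain ⟨n', H, hn', hH, -⟩ := u.2
    have h2 : G * H = MvPolynomial.C n' := by
      apply hy.inj
      rw [map_mul, ← hm, ← hH, P2_aeval_C]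
      linear_combination (n' : Hyperreal) * h1
    have h3 : MQ G * MQ H = MQ (MvPolynomial.C n') := by
      rw [← h2, MQ, MQ, MQ, map_mul]
    have h4 : IsUnit (MQ G * MQ H) := by
      rw [h3]
      exact hC n' hn'
    exact hG.not_isUnit (isUnit_of_mul_isUnit_left h4)
  · intro a b hab
    have hab' : (m : Hyperreal) = (a : Hyperreal) * (b : Hyperreal) := by
      rw [hab]; rfl
    obtain ⟨n, A, hn, hA, hA'⟩ := a.2
    obtain ⟨k, B, hk, hB, hB'⟩ := b.2
    have h1 : MvPolynomial.C (n * k) * G = A * B := by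
      apply hy.inj
      rw [map_mul (MvPolynomial.aeval y), map_mul (MvPolynomial.aeval y), ← hm, ← hA, ← hB, hab', P2_aeval_C]
      push_cast
      ring
    have h2 : MQ (MvPolynomial.C (n * k)) * MQ G = MQ A * MQ B := by
      rw [MQ, MQ, MQ, MQ, ← map_mul (MvPolynomial.map (Int.castRingHom ℚ)), h1,
        map_mul (MvPolynomial.map (Int.castRingHom ℚ))]
    have h3 : Irreducible (MQ A * MQ B) := by
      rw [← h2]
      exact (irreducible_isUnit_mul (hC _ (mul_ne_zero hn hk))).2 hG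
    rcases h3.isUnit_or_isUnit rfl with h4 | h4
    · left
      exact P2_unit_aux y w hy G hp m a b hm hab' n A hn hA hA' h4
    · right
      exact P2_unit_aux y w hy G hp m b a hm (by rw [hab', mul_comm]) k B hk hB hB' h4

end Pool.Agent.H54.SO
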