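import Pool.Agent.H54.SO.S1
/-! MP_0e09bd_lc (PI helper54): the key lemma on residues.
Choose a variable `k ∈ (MQ h).vars` (nonempty: `MQ h` is irreducible, so not constant). `H = spl ℚ k (MQ h)`, `H.natDegree > 0` (`spl_const`), leading coefficient `W0 ≠ 0`. For `f ∈ S k`: `F = C (lc⁻¹) * Q f` is monic, let `F' = F.map (algebraMap ℚ (MvPolynomial ℕ ℚ))` (`MvPolynomial.C`), monic,
`r_f = H %ₘ F'`. `r_f ≠ 0`: otherwise `H = F' * q`, evaluate at `X k` (`spl_recover`): `MQ h = F(X_k) * q'`, so `aeval (X k) (Q f) ∣ MQ h`; `MQ h` is irreducible and `aeval (X k) (Q f)` is not a unit, so they are associated, contradiction to `hn`. Let `W_f` = a nonzero coefficient of `r_f`.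
`W = W0 * ∏_{f ∈ S k} W_f * ∏_{l ∈ vars(h), l ≠ k} ∏_{f ∈ S l} (aeval (X l) (Q f))` is a nonzero element of `MvPolynomial ℕ ℚ`; clear denominators, `MvPolynomial.funext` over the integers (infinite domain): an integer point `c : ℕ → ℤ` with `W(c) ≠ 0`. Let `h1 : ℤ[X]` = `h` with `X_k ↦ X`, `X_l ↦ C (c l)` (`MvPolynomial.aeval`):
`Q h1 = H.map (eval at c)` (compare homs), its degree is positive (`W0(c) ≠ 0`), and `Q f` does not divide `Q h1` for `f ∈ S k` (`Polynomial.map_modByMonic`: `(Q h1) %ₘ F = r_f.map (eval c) ≠ 0`), so `IsCoprime (Q h1) (Q f)` (irreducible), and as in `cop` (SZ/A.lean, `clear`) an integer `D_f ≠ 0` with `z ∣ h1(t), z ∣ f(t) → z ∣ D_f`.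
`schur h1 _ N'` with `N' ≥ N`, all `|D_f|` (f ∈ S k), all `|f(c l)|` (`l ∈ vars(h)`, `l ≠ k`, `f ∈ S l`; nonzero): prime `p > N'`, `t0` with `p ∣ h1(t0)`. Define `t k = t0`, `t l = c l` for the other `l ∈ vars(h)`, and for `l` outside: `t l` with `p` dividing no `f(t l)`, `f ∈ S l` (from `(hS l).nofix p`: `p` does not divide the product).
`eval t h = h1(t0)` (only the variables of `h` matter). -/
set_option autoImplicit false
namespace Pool.Agent.H54.SO
open Pool.Agent.H54.SZ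

/-- clearing denominators in a Bezout identity -/
theorem Q2_cop (h y : Polynomial ℤ) (hc : IsCoprime (Q h) (Q y)) :
    ∃ D : ℤ, D ≠ 0 ∧ ∀ z t : ℤ, z ∣ h.eval t → z ∣ y.eval t → z ∣ D := by
  obtain ⟨u, v, huv⟩ := hc
  obtain ⟨D1, u', hD1, hu'⟩ := clear u
  obtain ⟨D2, v', hD2, hv'⟩ := clear v
  refine ⟨D1 * D2, mul_ne_zero hD1 hD2, ?_⟩
  have key : Polynomial.C D2 * u' * h + Polynomial.C D1 * v' * y = Polynomial.C (D1 * D2) := by
    apply Polynomial.map_injective (Int.castRingHom ℚ) (RingHom.injective_int _)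
    simp only [Polynomial.map_add, Polynomial.map_mul, Polynomial.map_C]
    have e1 : u'.map (Int.castRingHom ℚ) = Polynomial.C (D1 : ℚ) * u := hu'
    have e2 : v'.map (Int.castRingHom ℚ) = Polynomial.C (D2 : ℚ) * v := hv'
    rw [e1, e2]
    simp only [eq_intCast, map_mul]
    have : (Polynomial.C (D1:ℚ)) * Polynomial.C (D2:ℚ) * (u * Q h + v * Q y) =
        Polynomial.C (D1:ℚ) * Polynomial.C (D2:ℚ) := by rw [huv, mul_one]
    linear_combination this
  intro z t h1 h2
  have e := congrArg (Polynomial.eval t) key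
  simp only [Polynomial.eval_add, Polynomial.eval_mul, Polynomial.eval_C] at e
  rw [← e]
  exact dvd_add (Dvd.dvd.mul_left h1 _) (Dvd.dvd.mul_left h2 _)

/-- the polynomial `h` in the variable `k`, the other variables replaced by `c` -/
noncomputable def Q2_sub (k : ℕ) (c : ℕ → ℤ) (h : MvPolynomial ℕ ℤ) : Polynomial ℤ :=
  MvPolynomial.aeval (fun i => if i = k then Polynomial.X else Polynomial.C (c i)) h

theorem Q2_sub_map (k : ℕ) (c : ℕ → ℤ) (h : MvPolynomial ℕ ℤ) :
    Q (Q2_sub k c h) = (spl ℚ k (MQ h)).map (MvPolynomial.eval (fun i => (c i : ℚ))) := by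
  have key : ((Polynomial.mapRingHom (Int.castRingHom ℚ)).comp
      ((MvPolynomial.aeval (fun i => if i = k then Polynomial.X else Polynomial.C (c i)) :
        MvPolynomial ℕ ℤ →ₐ[ℤ] Polynomial ℤ) : MvPolynomial ℕ ℤ →+* Polynomial ℤ)) =
      (Polynomial.mapRingHom (MvPolynomial.eval (fun i => (c i : ℚ)))).comp
        (((spl ℚ k : MvPolynomial ℕ ℚ →ₐ[ℚ] Polynomial (MvPolynomial ℕ ℚ)) :
          MvPolynomial ℕ ℚ →+* Polynomial (MvPolynomial ℕ ℚ)).comp
          (MvPolynomial.map (Int.castRingHom ℚ))) := by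
    apply MvPolynomial.ringHom_ext
    · intro r
      simp
    · intro i
      by_cases hi : i = k
      · simp [spl, hi]
      · simp [spl, hi]
  exact DFunLike.congr_fun key h

theorem Q2_sub_eval (k : ℕ) (c : ℕ → ℤ) (h : MvPolynomial ℕ ℤ) (t : ℕ → ℤ)
    (ht : ∀ l ∈ h.vars, l ≠ k → t l = c l) :
    (Q2_sub k c h).eval (t k) = MvPolynomial.eval t h := by
  have key : ((Polynomial.evalRingHom (t k)).comp
      ((MvPolynomial.aeval (fun i => if i = k then Polynomial.X else Polynomial.C (c i)) :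
        MvPolynomial ℕ ℤ →ₐ[ℤ] Polynomial ℤ) : MvPolynomial ℕ ℤ →+* Polynomial ℤ)) h =
      (MvPolynomial.eval t) h := by
    apply MvPolynomial.hom_congr_vars _ _ rfl
    · ext r
      simp
    · intro i hi _
      by_cases hik : i = k
      · simp [hik]
      · simp [hik, ht i hi hik]
  exact key

/-- `f(X_k)` is not zero and not a unit -/
theorem Q2_var (k : ℕ) (F : Polynomial ℚ) :
    (MvPolynomial.aeval (fun i => if i = k then (Polynomial.X : Polynomial ℚ) else 0) :
      MvPolynomial ℕ ℚ →ₐ[ℚ] Polynomial ℚ)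
      (Polynomial.aeval (MvPolynomial.X k : MvPolynomial ℕ ℚ) F) = F := by
  rw [← Polynomial.aeval_algHom_apply]
  simp

theorem Q2_MQ (k : ℕ) (f : Polynomial ℤ) :
    MQ (Polynomial.aeval (MvPolynomial.X k) f) =
      Polynomial.aeval (MvPolynomial.X k : MvPolynomial ℕ ℚ) (Q f) := by
  have key : ((MvPolynomial.map (Int.castRingHom ℚ)).comp
      ((Polynomial.aeval (MvPolynomial.X k) : Polynomial ℤ →ₐ[ℤ] MvPolynomial ℕ ℤ) :
        Polynomial ℤ →+* MvPolynomial ℕ ℤ)) =
      (((Polynomial.aeval (MvPolynomial.X k : MvPolynomial ℕ ℚ)) :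
        Polynomial ℚ →ₐ[ℚ] MvPolynomial ℕ ℚ) : Polynomial ℚ →+* MvPolynomial ℕ ℚ).comp
        (Polynomial.mapRingHom (Int.castRingHom ℚ)) := by
    apply Polynomial.ringHom_ext
    · intro a
      simp
    · simp
  exact DFunLike.congr_fun key f

theorem Q2_eval_var (l : ℕ) (f : Polynomial ℤ) (c : ℕ → ℤ) :
    MvPolynomial.eval (fun i => (c i : ℚ))
      (Polynomial.aeval (MvPolynomial.X l : MvPolynomial ℕ ℚ) (Q f)) = ((f.eval (c l) : ℤ) : ℚ) := by
  have h1 : MvPolynomial.eval (fun i => (c i : ℚ))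
      (Polynomial.aeval (MvPolynomial.X l : MvPolynomial ℕ ℚ) (Q f)) = (Q f).eval (c l : ℚ) := by
    have key : ((MvPolynomial.eval (fun i => (c i : ℚ))).comp
        (((Polynomial.aeval (MvPolynomial.X l : MvPolynomial ℕ ℚ)) :
        Polynomial ℚ →ₐ[ℚ] MvPolynomial ℕ ℚ) : Polynomial ℚ →+* MvPolynomial ℕ ℚ)) =
        Polynomial.evalRingHom (c l : ℚ) := by
      apply Polynomial.ringHom_ext
      · intro a
        simp
      · simp
    exact DFunLike.congr_fun key (Q f)
  rw [h1, Q, Polynomial.eval_intCast_map]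
  simp

/-- the obstruction polynomial for `f ∈ S k` -/
theorem Q2_W (k : ℕ) (f : Polynomial ℤ) (hf : Irreducible (Q f)) (h : MvPolynomial ℕ ℤ)
    (hh : Irreducible (MQ h))
    (hn : ¬ Associated (MQ (Polynomial.aeval (MvPolynomial.X k) f)) (MQ h)) :
    ∃ W : MvPolynomial ℕ ℚ, W ≠ 0 ∧ ∀ c : ℕ → ℤ,
      MvPolynomial.eval (fun i => (c i : ℚ)) W ≠ 0 → ¬ Q f ∣ Q (Q2_sub k c h) := by
  have hf0 : Q f ≠ 0 := hf.ne_zero
  have hlc : (Q f).leadingCoeff ≠ 0 := Polynomial.leadingCoeff_ne_zero.mpr hf0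
  set F : Polynomial ℚ := Polynomial.C ((Q f).leadingCoeff)⁻¹ * Q f with hF
  have hFm : F.Monic := by
    rw [hF, mul_comm]
    exact Polynomial.monic_mul_leadingCoeff_inv hf0
  have hQF : Q f = Polynomial.C ((Q f).leadingCoeff) * F := by
    rw [hF, ← mul_assoc, ← Polynomial.C_mul, mul_inv_cancel₀ hlc, Polynomial.C_1, one_mul]
  set F' : Polynomial (MvPolynomial ℕ ℚ) := F.map MvPolynomial.C with hF'
  have hF'm : F'.Monic := hFm.map _
  set r := (spl ℚ k (MQ h)) %ₘ F' with hr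
  have hr0 : r ≠ 0 := by
    intro h0
    have h1 : F' ∣ spl ℚ k (MQ h) := (Polynomial.modByMonic_eq_zero_iff_dvd hF'm).mp h0
    obtain ⟨g, hg⟩ := h1
    have h2 := congrArg (Polynomial.eval (MvPolynomial.X k)) hg
    rw [spl_recover, Polynomial.eval_mul] at h2
    have h3 : F'.eval (MvPolynomial.X k) = Polynomial.aeval (MvPolynomial.X k : MvPolynomial ℕ ℚ) F := by
      rw [hF', Polynomial.eval_map, Polynomial.aeval_def]
      rfl
    have h4 : MQ (Polynomial.aeval (MvPolynomial.X k) f) ∣ MQ h := by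
      rw [Q2_MQ, hQF, map_mul, Polynomial.aeval_C, ← h3, h2]
      have hu : IsUnit (algebraMap ℚ (MvPolynomial ℕ ℚ) ((Q f).leadingCoeff)) :=
        (IsUnit.mk0 _ hlc).map _
      exact (hu.mul_left_dvd).mpr (dvd_mul_right _ _)
    apply hn
    obtain ⟨b, hb⟩ := h4
    rcases hh.isUnit_or_isUnit hb with h5 | h5
    · exfalso
      rw [Q2_MQ] at h5
      have h6 := h5.map (MvPolynomial.aeval (fun i => if i = k then (Polynomial.X : Polynomial ℚ) else 0) :
        MvPolynomial ℕ ℚ →ₐ[ℚ] Polynomial ℚ)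
      rw [Q2_var] at h6
      exact hf.not_isUnit h6
    · rw [hb]
      exact (associated_mul_unit_right _ _ h5)
  refine ⟨r.leadingCoeff, Polynomial.leadingCoeff_ne_zero.mpr hr0, ?_⟩
  intro c hc hdvd
  rw [Q2_sub_map] at hdvd
  have h1 : F ∣ (spl ℚ k (MQ h)).map (MvPolynomial.eval (fun i => (c i : ℚ))) := by
    refine dvd_trans ?_ hdvd
    rw [hQF]
    exact dvd_mul_left _ _
  have h2 := (Polynomial.modByMonic_eq_zero_iff_dvd hFm).mpr h1
  have h3 : F'.map (MvPolynomial.eval (fun i => (c i : ℚ))) = F := by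
    rw [hF', Polynomial.map_map]
    have : (MvPolynomial.eval (fun i => (c i : ℚ))).comp MvPolynomial.C = RingHom.id ℚ := by
      ext a
      simp
    rw [this, Polynomial.map_id]
  have h4 := Polynomial.map_modByMonic (p := spl ℚ k (MQ h)) (MvPolynomial.eval (fun i => (c i : ℚ))) hF'm
  rw [h3, h2, ← hr] at h4
  apply hc
  have h5 := congrArg (fun q => Polynomial.coeff q r.natDegree) h4
  simp only [Polynomial.coeff_map, Polynomial.coeff_zero] at h5
  exact h5

theorem key (S : ℕ → Finset (Polynomial ℤ)) (hS : ∀ k, Adm (S k)) (h : MvPolynomial ℕ ℤ)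
    (hh : Irreducible (MQ h))
    (hn : ∀ k, ∀ f ∈ S k, ¬ Associated (MQ (Polynomial.aeval (MvPolynomial.X k) f)) (MQ h)) (N : ℕ) :
    ∃ p : ℕ, p.Prime ∧ N < p ∧ ∃ t : ℕ → ℤ, (p : ℤ) ∣ MvPolynomial.eval t h ∧
      ∀ k, ∀ f ∈ S k, ¬ (p : ℤ) ∣ f.eval (t k) := by
  classical
  -- the variable k
  have hvars : (MQ h).vars.Nonempty := by
    rw [Finset.nonempty_iff_ne_empty]
    intro h0
    rw [MvPolynomial.vars_eq_empty_iff_eq_C] at h0
    by_cases h1 : (MQ h).coeff 0 = 0
    · apply hh.ne_zero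
      rw [h0, h1, map_zero]
    · apply hh.not_isUnit
      rw [h0]
      exact (IsUnit.mk0 _ h1).map MvPolynomial.C
  obtain ⟨k, hk⟩ := hvars
  set H := spl ℚ k (MQ h) with hH
  have hHdeg : 0 < H.natDegree := by
    rw [Nat.pos_iff_ne_zero]
    intro h0
    exact (spl_const ℚ k (MQ h) h0).2 hk
  have hW0 : H.leadingCoeff ≠ 0 := by
    rw [Polynomial.leadingCoeff_ne_zero]
    intro h0
    rw [h0] at hHdeg
    simp at hHdeg
  have hWf : ∀ f ∈ S k, ∃ W : MvPolynomial ℕ ℚ, W ≠ 0 ∧ ∀ c : ℕ → ℤ,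
      MvPolynomial.eval (fun i => (c i : ℚ)) W ≠ 0 → ¬ Q f ∣ Q (Q2_sub k c h) :=
    fun f hf => Q2_W k f ((hS k).irrQ f hf) h hh (hn k f hf)
  choose! Wf hWf0 hWf1 using hWf
  set W : MvPolynomial ℕ ℚ := H.leadingCoeff * ((∏ f ∈ S k, Wf f) *
    ∏ l ∈ h.vars, ∏ f ∈ S l, Polynomial.aeval (MvPolynomial.X l : MvPolynomial ℕ ℚ) (Q f)) with hW
  have hWne : W ≠ 0 := by
    rw [hW]
    refine mul_ne_zero hW0 (mul_ne_zero ?_ ?_)
    · rw [Finset.prod_ne_zero_iff]
      exact hWf0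
    · rw [Finset.prod_ne_zero_iff]
      intro l _
      rw [Finset.prod_ne_zero_iff]
      intro f hf h0
      have h1 := Q2_var l (Q f)
      rw [h0, map_zero] at h1
      exact ((hS l).irrQ f hf).ne_zero h1.symm
  obtain ⟨c, hc⟩ : ∃ c : ℕ → ℤ, MvPolynomial.eval (fun i => (c i : ℚ)) W ≠ 0 := by
    by_contra hcon
    push Not at hcon
    apply hWne
    apply MvPolynomial.funext_set (fun _ => Set.range (Int.cast : ℤ → ℚ))
      (fun _ => Set.infinite_range_of_injective Int.cast_injective)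
    intro y hy
    have hy' : ∀ i, ∃ n : ℤ, (n : ℚ) = y i := fun i => hy i (Set.mem_univ i)
    choose n hn' using hy'
    have : y = fun i => (n i : ℚ) := by
      funext i
      exact (hn' i).symm
    rw [this, hcon n, map_zero]
  rw [hW, map_mul, map_mul, map_prod, map_prod] at hc
  have hc0 := left_ne_zero_of_mul hc
  have hc1 := left_ne_zero_of_mul (right_ne_zero_of_mul hc)
  have hc2 := right_ne_zero_of_mul (right_ne_zero_of_mul hc)
  rw [Finset.prod_ne_zero_iff] at hc1 hc2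
  set h1 := Q2_sub k c h with hh1
  have hdeg : 0 < h1.natDegree := by
    have e1 : (Q h1).natDegree = h1.natDegree :=
      Polynomial.natDegree_map_eq_of_injective (RingHom.injective_int _) _
    rw [← e1, hh1, Q2_sub_map, Polynomial.natDegree_map_of_leadingCoeff_ne_zero _ hc0]
    exact hHdeg
  have hD : ∀ f ∈ S k, ∃ D : ℤ, D ≠ 0 ∧ ∀ z t : ℤ, z ∣ f.eval t → z ∣ h1.eval t → z ∣ D := by
    intro f hf
    apply Q2_cop
    rw [((hS k).irrQ f hf).coprime_iff_not_dvd]
    exact hWf1 f hf c (hc1 f hf)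
  choose! D hD0 hD1 using hD
  have hfc : ∀ l ∈ h.vars, ∀ f ∈ S l, f.eval (c l) ≠ 0 := by
    intro l hl f hf h0
    have h2 := hc2 l hl
    rw [map_prod, Finset.prod_ne_zero_iff] at h2
    apply h2 f hf
    rw [Q2_eval_var, h0, Int.cast_zero]
  set N' := N + (∑ f ∈ S k, (D f).natAbs) + ∑ l ∈ h.vars, ∑ f ∈ S l, (f.eval (c l)).natAbs with hN'
  obtain ⟨p, hp, hNp, t0, ht0⟩ := schur h1 hdeg N'
  have hfix : ∀ l, ∃ a : ℤ, ∀ f ∈ S l, ¬ (p : ℤ) ∣ f.eval a := by
    intro l
    obtain ⟨a, ha⟩ := (hS l).nofix p hp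
    exact ⟨a, fun f hf hd => ha (dvd_trans hd (Finset.dvd_prod_of_mem _ hf))⟩
  choose b hb using hfix
  refine ⟨p, hp, by omega, fun l => if l = k then t0 else if l ∈ h.vars then c l else b l, ?_, ?_⟩
  · rw [← Q2_sub_eval k c h]
    · simp only [if_true]
      exact ht0
    · intro l hl hlk
      simp only [if_neg hlk, if_pos hl]
  · intro l f hf
    by_cases hlk : l = k
    · subst hlk
      simp only [if_true]
      intro hd
      have h2 := hD1 f hf p t0 hd ht0
      have h3 : p ∣ (D f).natAbs := Int.natCast_dvd.mp h2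
      have h4 := Nat.le_of_dvd (Int.natAbs_pos.mpr (hD0 f hf)) h3
      have h5 : (D f).natAbs ≤ ∑ f ∈ S l, (D f).natAbs :=
        Finset.single_le_sum (f := fun f => (D f).natAbs) (fun _ _ => Nat.zero_le _) hf
      omega
    · by_cases hlv : l ∈ h.vars
      · simp only [if_neg hlk, if_pos hlv]
        intro hd
        have h3 : p ∣ (f.eval (c l)).natAbs := Int.natCast_dvd.mp hd
        have h4 := Nat.le_of_dvd (Int.natAbs_pos.mpr (hfc l hlv f hf)) h3
        have h5 : (f.eval (c l)).natAbs ≤ ∑ f ∈ S l, (f.eval (c l)).natAbs :=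
          Finset.single_le_sum (f := fun f => (Polynomial.eval (c l) f).natAbs) (fun _ _ => Nat.zero_le _) hf
        have h6 : ∑ f ∈ S l, (f.eval (c l)).natAbs ≤ ∑ l ∈ h.vars, ∑ f ∈ S l, (f.eval (c l)).natAbs :=
          Finset.single_le_sum (f := fun l => ∑ f ∈ S l, (Polynomial.eval (c l) f).natAbs)
            (fun _ _ => Nat.zero_le _) hlv
        omega
      · simp only [if_neg hlk, if_neg hlv]
        exact hb l f hf

end Pool.Agent.H54.SO
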