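import Pool.Agent.H54.SO.O0
/-! MP_0e09bd_lc (PI helper54): splitting off one variable. All by `MvPolynomial.induction_on` or comparison of algebra homs on the variables
(`MvPolynomial.algHom_ext`, `MvPolynomial.ringHom_ext`). `spl_vars`: the coefficients lie in the subalgebra generated by the variables other than `k`
(e.g. apply the substitution `k ↦ 0` (or any `z`) to the coefficients: it fixes `spl`; or induction with `MvPolynomial.vars_add_subset`, `vars_mul`). `spl_const`: if `natDegree = 0`,
`spl R k G = C g`, `g = (spl R k G).coeff 0`, evaluate at `X k`: `G = g`. -/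
set_option autoImplicit false
namespace Pool.Agent.H54.SO
open Pool.Agent.H54.SZ

private theorem spl_X (R : Type) [CommRing R] (k i : ℕ) :
    spl R k (MvPolynomial.X i) = if i = k then Polynomial.X else Polynomial.C (MvPolynomial.X i) := by
  unfold spl
  rw [MvPolynomial.aeval_X]

private theorem spl_C (R : Type) [CommRing R] (k : ℕ) (a : R) :
    spl R k (MvPolynomial.C a) = Polynomial.C (MvPolynomial.C a) := by
  unfold spl
  rw [MvPolynomial.aeval_C]
  rfl

theorem spl_eval (R : Type) [CommRing R] (k : ℕ) (B : Type) [CommRing B] [Algebra R B] (y : ℕ → B) (z : B)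
    (G : MvPolynomial ℕ R) :
    MvPolynomial.aeval (Function.update y k z) G =
      ((spl R k G).map (MvPolynomial.aeval y : MvPolynomial ℕ R →ₐ[R] B).toRingHom).eval z := by
  induction G using MvPolynomial.induction_on with
  | C a => rw [spl_C]; simp
  | add p q hp hq => rw [map_add, hp, hq, map_add, Polynomial.map_add, Polynomial.eval_add]
  | mul_X p i hp =>
    rw [map_mul, hp, map_mul, Polynomial.map_mul, Polynomial.eval_mul, spl_X, MvPolynomial.aeval_X]
    congr 1
    split_ifs with h
    · subst h
      simp
    · rw [Function.update_of_ne h]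
      simp

theorem spl_recover (R : Type) [CommRing R] (k : ℕ) (G : MvPolynomial ℕ R) :
    (spl R k G).eval (MvPolynomial.X k) = G := by
  induction G using MvPolynomial.induction_on with
  | C a => rw [spl_C]; simp
  | add p q hp hq => rw [map_add, Polynomial.eval_add, hp, hq]
  | mul_X p i hp =>
    rw [map_mul, Polynomial.eval_mul, hp, spl_X]
    congr 1
    split_ifs with h
    · subst h
      simp
    · simp

private theorem spl_supp (R : Type) [CommRing R] (k : ℕ) (s : Set ℕ) (G : MvPolynomial ℕ R)
    (hG : G ∈ MvPolynomial.supported R s) (j : ℕ) :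
    (spl R k G).coeff j ∈ MvPolynomial.supported R (s \ {k}) := by
  rw [MvPolynomial.supported_eq_adjoin_X] at hG
  induction hG using Algebra.adjoin_induction generalizing j with
  | mem x hx =>
    obtain ⟨i, hi, rfl⟩ := hx
    rw [spl_X]
    split_ifs with h
    · rw [Polynomial.coeff_X]
      split_ifs
      · exact one_mem _
      · exact zero_mem _
    · rw [Polynomial.coeff_C]
      split_ifs
      · rw [MvPolynomial.supported_eq_adjoin_X]
        exact Algebra.subset_adjoin ⟨i, ⟨hi, h⟩, rfl⟩
      · exact zero_mem _
  | algebraMap r =>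
    rw [AlgHom.commutes]
    show (Polynomial.C (MvPolynomial.C r)).coeff j ∈ _
    rw [Polynomial.coeff_C]
    split_ifs
    · exact Subalgebra.algebraMap_mem _ r
    · exact zero_mem _
  | add x y _ _ hx hy =>
    rw [map_add, Polynomial.coeff_add]
    exact add_mem (hx j) (hy j)
  | mul x y _ _ hx hy =>
    rw [map_mul, Polynomial.coeff_mul]
    exact sum_mem (fun p _ => mul_mem (hx p.1) (hy p.2))

theorem spl_vars (R : Type) [CommRing R] (k : ℕ) (G : MvPolynomial ℕ R) (j i : ℕ)
    (hi : i ∈ ((spl R k G).coeff j).vars) : i ∈ G.vars ∧ i ≠ k := by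
  have h1 : G ∈ MvPolynomial.supported R (G.vars : Set ℕ) := MvPolynomial.mem_supported_vars G
  have h2 := spl_supp R k _ G h1 j
  have h3 := MvPolynomial.mem_supported.1 h2 (by exact_mod_cast hi)
  exact ⟨by exact_mod_cast h3.1, h3.2⟩

theorem spl_const (R : Type) [CommRing R] (k : ℕ) (G : MvPolynomial ℕ R)
    (h : (spl R k G).natDegree = 0) : G = (spl R k G).coeff 0 ∧ k ∉ G.vars := by
  have h1 := Polynomial.eq_C_of_natDegree_eq_zero h
  have h2 : G = (spl R k G).coeff 0 := by
    have h3 := spl_recover R k G
    rw [h1, Polynomial.eval_C] at h3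
    exact h3.symm
  refine ⟨h2, fun hk => ?_⟩
  rw [h2] at hk
  exact (spl_vars R k G 0 k hk).2 rfl

theorem spl_not (R : Type) [CommRing R] (k : ℕ) (G : MvPolynomial ℕ R) (h : k ∉ G.vars) :
    spl R k G = Polynomial.C G := by
  have h1 : G ∈ MvPolynomial.supported R (G.vars : Set ℕ) := MvPolynomial.mem_supported_vars G
  have h2 : G ∈ MvPolynomial.supported R ({k}ᶜ : Set ℕ) := by
    refine MvPolynomial.supported_mono ?_ h1
    intro i hi hik
    rw [Set.mem_singleton_iff] at hik
    subst hik
    exact h (by exact_mod_cast hi)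
  rw [MvPolynomial.supported_eq_adjoin_X] at h2
  clear h h1
  induction h2 using Algebra.adjoin_induction with
  | mem x hx =>
    obtain ⟨i, hi, rfl⟩ := hx
    have hi' : i ≠ k := hi
    rw [spl_X, if_neg hi']
  | algebraMap r => exact spl_C R k r
  | add x y _ _ hx hy => rw [map_add, hx, hy, map_add]
  | mul x y _ _ hx hy => rw [map_mul, hx, hy, map_mul]

theorem spl_injective (R : Type) [CommRing R] (k : ℕ) : Function.Injective (spl R k) := by
  intro a b h
  rw [← spl_recover R k a, ← spl_recover R k b, h]

end Pool.Agent.H54.SO
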